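import Mathlib

/-!
# Homomorphisms that preserve algebraic independence are injective
-/

set_option autoImplicit false

namespace Pool.Agent.H626R2

theorem faithful {A B : Type} [CommRing A] [IsDomain A] [Algebra ℚ A] [CommRing B] [IsDomain B]
    [Algebra ℚ B] {n k : ℕ} (T : Fin n → A) (Θ : A →ₐ[ℚ] B)
    (hk : ∀ u : Fin (k + 1) → Fin n, ¬ AlgebraicIndependent ℚ (fun a => T (u a)))
    (hΘ : ∀ r ≤ k, ∀ u : Fin r → Fin n, AlgebraicIndependent ℚ (fun a => T (u a)) →
      AlgebraicIndependent ℚ (fun a => Θ (T (u a))))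
    {h : A} (hmem : h ∈ Algebra.adjoin ℚ (Set.range T)) (h0 : Θ h = 0) : h = 0 := by
  classical
  let P : ℕ → Prop := fun r => ∃ u : Fin r → Fin n, AlgebraicIndependent ℚ (fun a => T (u a))
  have hP0 : P 0 := by
    refine ⟨Fin.elim0, ?_⟩
    rw [algebraicIndependent_empty_type_iff]
    exact (algebraMap ℚ A).injective
  have hspec : P (Nat.findGreatest P k) := Nat.findGreatest_spec (Nat.zero_le _) hP0
  have hle : Nat.findGreatest P k ≤ k := Nat.findGreatest_le _
  set r := Nat.findGreatest P k with hr
  have hnP : ¬ P (r + 1) := by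
    intro h2
    by_cases hk1 : r + 1 ≤ k
    · exact Nat.findGreatest_is_greatest (P := P) (n := k) (k := r + 1) (by omega) hk1 h2
    · have : r + 1 = k + 1 := by omega
      rw [this] at h2
      obtain ⟨u, hu⟩ := h2
      exact hk u hu
  obtain ⟨u, hu⟩ := hspec
  set S := Algebra.adjoin ℚ (Set.range (fun a => T (u a))) with hS
  have hTalg : ∀ i, IsAlgebraic S (T i) := by
    intro i
    by_contra hcon
    apply hnP
    have h1 := (hu.option_iff_transcendental (T i)).2 hcon
    refine ⟨fun a => (finSuccEquiv r a).elim i u, ?_⟩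
    have h2 := h1.comp (finSuccEquiv r) (finSuccEquiv r).injective
    convert h2 using 1
    funext a
    simp only [Function.comp_apply]
    cases finSuccEquiv r a <;> rfl
  have hSdom : IsDomain S := inferInstance
  have halg' : ∀ g ∈ Algebra.adjoin ℚ (Set.range T), IsAlgebraic S g := by
    intro g hg
    induction hg using Algebra.adjoin_induction with
    | mem y hy =>
      obtain ⟨i, rfl⟩ := hy
      exact hTalg i
    | algebraMap q =>
      have : algebraMap ℚ A q = algebraMap S A (algebraMap ℚ S q) := rfl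
      rw [this]
      exact isAlgebraic_algebraMap _
    | add y z _ _ hy hz => exact hy.add hz
    | mul y z _ _ hy hz => exact hy.mul hz
  have halg := halg' h hmem
  by_contra hne
  obtain ⟨q, hq0, hq⟩ := halg.exists_nonzero_coeff_and_aeval_eq_zero
    (mem_nonZeroDivisors_of_ne_zero hne)
  have h3 : Θ ((q.coeff 0 : S) : A) = 0 := by
    rw [Polynomial.aeval_eq_sum_range] at hq
    have h4 := congrArg Θ hq
    rw [map_sum, map_zero, Finset.sum_eq_single 0] at h4
    · rw [pow_zero, Algebra.smul_def, mul_one] at h4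
      exact h4
    · intro m _ hm
      rw [Algebra.smul_def, map_mul, map_pow, h0, zero_pow hm, mul_zero]
    · intro h5
      exact absurd (Finset.mem_range.2 (Nat.succ_pos _)) h5
  apply hq0
  have h6 : ((q.coeff 0 : S) : A) ∈ Algebra.adjoin ℚ (Set.range (fun a => T (u a))) :=
    (q.coeff 0).2
  rw [Algebra.adjoin_range_eq_range_aeval] at h6
  obtain ⟨p, hp⟩ := h6
  have h7 : MvPolynomial.aeval (fun a => Θ (T (u a))) p = 0 := by
    rw [← h3]
    have h8 : ((q.coeff 0 : S) : A) = MvPolynomial.aeval (fun a => T (u a)) p := hp.symm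
    rw [h8, ← AlgHom.comp_apply]
    congr 1
    apply MvPolynomial.algHom_ext
    intro i
    simp
  have h8 := (algebraicIndependent_iff.1 (hΘ r hle u hu)) p h7
  apply Subtype.ext
  have h9 : ((q.coeff 0 : S) : A) = MvPolynomial.aeval (fun a => T (u a)) p := hp.symm
  rw [h9, h8, map_zero]
  rfl

end Pool.Agent.H626R2
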