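import Mathlib
import Pool.Agent.H626R2.PJac

/-!
# Linear substitutions given by sums of points of the moment curve
-/

set_option autoImplicit false

namespace Pool.Agent.H626R2

open MvPolynomial

variable {σ : Type} [Fintype σ] {v : ℕ}

/-- The substitution `x_i = ∑ t, y_t z_t ^ idx i`. -/
noncomputable def Thq (v : ℕ) (idx : σ → ℕ) :
    MvPolynomial σ ℚ →ₐ[ℚ] MvPolynomial (Fin (v + v)) ℚ :=
  aeval fun i => ∑ t : Fin v, X (Fin.castAdd v t) * X (Fin.natAdd v t) ^ idx i

/-- The linear form `w` at the point `(z_t ^ idx i)_i`. -/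
noncomputable def ev (idx : σ → ℕ) (w : σ → ℚ) (t : Fin v) : MvPolynomial (Fin (v + v)) ℚ :=
  ∑ i, C (w i) * X (Fin.natAdd v t) ^ idx i

/-- Affine forms. -/
noncomputable def af (c : ℚ) (w : σ → ℚ) : MvPolynomial σ ℚ := C c + ∑ i, C (w i) * X i

theorem ev_add (idx : σ → ℕ) (w w' : σ → ℚ) (t : Fin v) :
    ev idx (w + w') t = ev idx w t + ev idx w' t := by
  rw [ev, ev, ev, ← Finset.sum_add_distrib]
  refine Finset.sum_congr rfl fun i _ => ?_
  rw [Pi.add_apply, C_add, add_mul]

theorem ev_smul (idx : σ → ℕ) (q : ℚ) (w : σ → ℚ) (t : Fin v) :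
    ev idx (q • w) t = C q * ev idx w t := by
  rw [ev, ev, Finset.mul_sum]
  refine Finset.sum_congr rfl fun i _ => ?_
  rw [Pi.smul_apply, smul_eq_mul, C_mul, mul_assoc]

theorem ev_zero (idx : σ → ℕ) (t : Fin v) : ev idx (0 : σ → ℚ) t = 0 := by
  simp [ev]

theorem ev_sum (idx : σ → ℕ) {ι : Type} (s : Finset ι) (q : ι → ℚ) (w : ι → σ → ℚ) (t : Fin v) :
    ev idx (∑ d ∈ s, q d • w d) t = ∑ d ∈ s, C (q d) * ev idx (w d) t := by
  classical
  induction s using Finset.induction_on with
  | empty => simp [ev_zero]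
  | insert a s ha ih => rw [Finset.sum_insert ha, Finset.sum_insert ha, ev_add, ev_smul, ih]

theorem Thq_af (idx : σ → ℕ) (c : ℚ) (w : σ → ℚ) :
    Thq v idx (af c w) = C c + ∑ t : Fin v, X (Fin.castAdd v t) * ev idx w t := by
  rw [af, map_add, map_sum, algHom_C, algebraMap_eq]
  congr 1
  simp only [ev, Finset.mul_sum]
  rw [Finset.sum_comm]
  refine Finset.sum_congr rfl fun i _ => ?_
  rw [map_mul, algHom_C, algebraMap_eq, Thq, aeval_X, Finset.mul_sum]
  exact Finset.sum_congr rfl fun t _ => by ring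

/-- Points at which linearly independent forms have a nonzero determinant. -/
theorem exists_points {idx : σ → ℕ} (hidx : Function.Injective idx) {q : ℕ} (w : Fin q → σ → ℚ)
    (hw : LinearIndependent ℚ w) :
    ∃ ζ : Fin q → ℚ, (Matrix.of fun d c => ∑ i, w d i * ζ c ^ idx i).det ≠ 0 := by
  classical
  apply Pool.Agent.H531R2.exists_minor q (fun d (z : ℚ) => ∑ i, w d i * z ^ idx i)
  intro c hc
  set Q : Polynomial ℚ := ∑ i, Polynomial.C (∑ d, c d * w d i) * Polynomial.X ^ idx i with hQ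
  have hQ0 : Q = 0 := by
    apply Polynomial.funext
    intro z
    rw [hQ, Polynomial.eval_finsetSum, Polynomial.eval_zero, ← hc z]
    simp only [Polynomial.eval_mul, Polynomial.eval_C, Polynomial.eval_pow, Polynomial.eval_X,
      Finset.mul_sum, Finset.sum_mul]
    rw [Finset.sum_comm]
    exact Finset.sum_congr rfl fun b _ => Finset.sum_congr rfl fun j _ => by ring
  rw [Fintype.linearIndependent_iff] at hw
  funext d
  refine hw c ?_ d
  funext i
  have h2 := congrArg (fun q => Polynomial.coeff q (idx i)) hQ0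
  simp only [hQ, Polynomial.finsetSum_coeff, Polynomial.coeff_C_mul_X_pow,
    Polynomial.coeff_zero] at h2
  rw [Finset.sum_eq_single i] at h2
  · rw [if_pos rfl] at h2
    simpa using h2
  · intro j _ hne
    rw [if_neg]
    intro h3
    exact hne (hidx h3.symm)
  · intro h3
    exact absurd (Finset.mem_univ _) h3

/-- Generalised Vandermonde determinants do not vanish. -/
theorem det_ev_ne {idx : σ → ℕ} (hidx : Function.Injective idx) {q : ℕ} (hq : q ≤ v)
    (w : Fin q → σ → ℚ) (hw : LinearIndependent ℚ w) :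
    (Matrix.of fun d c => ev idx (w d) (Fin.castLE hq c)).det ≠ 0 := by
  obtain ⟨ζ, hζ⟩ := exists_points hidx w hw
  intro h0
  apply hζ
  let χ : MvPolynomial (Fin (v + v)) ℚ →+* ℚ :=
    eval (Fin.addCases (fun _ => 0) (fun t : Fin v => if h : t.1 < q then ζ ⟨t.1, h⟩ else 0))
  have h1 := congrArg χ h0
  rw [map_zero, RingHom.map_det] at h1
  rw [← h1]
  congr 1
  ext d c
  simp only [Matrix.of_apply, RingHom.mapMatrix_apply, Matrix.map_apply, ev, map_sum, map_mul,
    map_pow, χ]
  refine Finset.sum_congr rfl fun i _ => ?_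
  rw [eval_C, eval_X, Fin.addCases_right]
  congr 2
  rw [dif_pos (by exact c.2)]
  rfl

/-- The matrix with first row the form `w0`. -/
noncomputable def Mx (idx : σ → ℕ) {r : ℕ} (hr : r + 1 ≤ v) (w : Fin r → σ → ℚ) (w0 : σ → ℚ) :
    Matrix (Fin (r + 1)) (Fin (r + 1)) (MvPolynomial (Fin (v + v)) ℚ) :=
  Matrix.of fun d c => ev idx ((Fin.cons w0 w : Fin (r + 1) → σ → ℚ) d) (Fin.castLE hr c)

/-- The direction of translation. -/
noncomputable def bet (idx : σ → ℕ) {r : ℕ} (hr : r + 1 ≤ v) (w : Fin r → σ → ℚ) (t : Fin v) :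
    MvPolynomial (Fin (v + v)) ℚ :=
  ∑ j : Fin (r + 1), if Fin.castLE hr j = t then
    (-1) ^ (j : ℕ) * ((Mx idx hr w 0).submatrix Fin.succ j.succAbove).det else 0

theorem sum_bet (idx : σ → ℕ) {r : ℕ} (hr : r + 1 ≤ v) (w : Fin r → σ → ℚ) (w0 : σ → ℚ) :
    ∑ t : Fin v, bet idx hr w t * ev idx w0 t = (Mx idx hr w w0).det := by
  classical
  rw [Matrix.det_succ_row_zero]
  simp only [bet, Finset.sum_mul]
  rw [Finset.sum_comm]
  refine Finset.sum_congr rfl fun j _ => ?_
  rw [Finset.sum_eq_single (Fin.castLE hr j)]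
  · rw [if_pos rfl]
    have h1 : Mx idx hr w w0 0 j = ev idx w0 (Fin.castLE hr j) := by
      rw [Mx, Matrix.of_apply, Fin.cons_zero]
    have h2 : (Mx idx hr w w0).submatrix Fin.succ j.succAbove
        = (Mx idx hr w 0).submatrix Fin.succ j.succAbove := by
      ext d c
      rw [Matrix.submatrix_apply, Matrix.submatrix_apply, Mx, Mx, Matrix.of_apply,
        Matrix.of_apply, Fin.cons_succ, Fin.cons_succ]
    rw [h1, h2]
    ring
  · intro t _ ht
    rw [if_neg (Ne.symm ht), zero_mul]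
  · intro h
    exact absurd (Finset.mem_univ _) h

theorem det_Mx_of_mem (idx : σ → ℕ) {r : ℕ} (hr : r + 1 ≤ v) (w : Fin r → σ → ℚ) {w0 : σ → ℚ}
    (h : w0 ∈ Submodule.span ℚ (Set.range w)) : (Mx idx hr w w0).det = 0 := by
  rw [← sum_bet]
  induction h using Submodule.span_induction with
  | mem x hx =>
    obtain ⟨d, rfl⟩ := hx
    rw [sum_bet]
    apply Matrix.det_zero_of_row_eq (i := 0) (j := d.succ) (Fin.succ_ne_zero d).symm
    funext c
    rw [Mx, Matrix.of_apply, Matrix.of_apply, Fin.cons_zero, Fin.cons_succ]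
  | zero => simp [ev_zero]
  | add x y _ _ hx hy =>
    simp only [ev_add, mul_add, Finset.sum_add_distrib, hx, hy, add_zero]
  | smul q x _ hx =>
    have h1 : ∀ t : Fin v, bet idx hr w t * ev idx (q • x) t
        = C q * (bet idx hr w t * ev idx x t) := by
      intro t
      rw [ev_smul]; ring
    rw [Finset.sum_congr rfl fun t _ => h1 t, ← Finset.mul_sum, hx, mul_zero]

theorem det_Mx_of_not_mem {idx : σ → ℕ} (hidx : Function.Injective idx) {r : ℕ}
    (hr : r + 1 ≤ v) (w : Fin r → σ → ℚ) (hw : LinearIndependent ℚ w) {w0 : σ → ℚ}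
    (h : w0 ∉ Submodule.span ℚ (Set.range w)) : (Mx idx hr w w0).det ≠ 0 :=
  det_ev_ne hidx hr _ (linearIndependent_finCons.2 ⟨hw, h⟩)

theorem sum_bet_eq_zero_iff {idx : σ → ℕ} (hidx : Function.Injective idx) {r : ℕ}
    (hr : r + 1 ≤ v) (w : Fin r → σ → ℚ) (hw : LinearIndependent ℚ w) (w0 : σ → ℚ) :
    ∑ t : Fin v, bet idx hr w t * ev idx w0 t = 0 ↔ w0 ∈ Submodule.span ℚ (Set.range w) := by
  rw [sum_bet]
  constructor
  · intro h
    by_contra hcon
    exact det_Mx_of_not_mem hidx hr w hw hcon h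
  · exact det_Mx_of_mem idx hr w

/-- `bet` only depends on the `z` variables: it is fixed by every map that fixes them. -/
theorem map_bet {R : Type} [CommRing R] (φ ψ : MvPolynomial (Fin (v + v)) ℚ →+* R)
    (h : ∀ t : Fin v, φ (X (Fin.natAdd v t)) = ψ (X (Fin.natAdd v t)))
    (hC : ∀ q : ℚ, φ (C q) = ψ (C q)) (idx : σ → ℕ) (w : σ → ℚ) (t : Fin v) :
    φ (ev idx w t) = ψ (ev idx w t) := by
  rw [ev, map_sum, map_sum]
  refine Finset.sum_congr rfl fun i _ => ?_
  rw [map_mul, map_mul, map_pow, map_pow, h, hC]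

/-- The derivative with respect to `y_c` of an affine form. -/
theorem pderiv_Thq_af (idx : σ → ℕ) (c : ℚ) (w : σ → ℚ) (t : Fin v) :
    pderiv (Fin.castAdd v t) (Thq v idx (af c w)) = ev idx w t := by
  classical
  have hev : ∀ t' : Fin v, pderiv (Fin.castAdd v t) (ev idx w t') = 0 := by
    intro t'
    rw [ev, map_sum]
    refine Finset.sum_eq_zero fun i _ => ?_
    rw [pderiv_C_mul, pderiv_pow, pderiv_X_of_ne, mul_zero, mul_zero]
    intro h
    have := congrArg Fin.val h
    rw [Fin.val_natAdd, Fin.val_castAdd] at this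
    omega
  rw [Thq_af, map_add, pderiv_C, zero_add, map_sum, Finset.sum_eq_single t]
  · rw [pderiv_mul, pderiv_X_self, hev, one_mul, mul_zero, add_zero]
  · intro t' _ ht'
    rw [pderiv_mul, hev, mul_zero, add_zero, pderiv_X_of_ne, zero_mul]
    intro h
    apply ht'
    exact Fin.castAdd_injective _ _ h
  · intro h
    exact absurd (Finset.mem_univ _) h

/-- The images of at most `v` linearly independent forms are algebraically independent. -/
theorem algInd_forms {idx : σ → ℕ} (hidx : Function.Injective idx) {r : ℕ} (hr : r ≤ v)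
    (w : Fin r → σ → ℚ) (hw : LinearIndependent ℚ w) :
    AlgebraicIndependent ℚ (fun d => Thq v idx (af 0 (w d))) := by
  apply algInd_of_det (fun c => pderiv (Fin.castAdd v (Fin.castLE hr c)))
  simp only [pderiv_Thq_af]
  exact det_ev_ne hidx hr w hw

theorem Thq_af_ne {idx : σ → ℕ} (hidx : Function.Injective idx) (hv : 1 ≤ v) (c : ℚ)
    (w : σ → ℚ) (h : af c w ≠ 0) : Thq v idx (af c w) ≠ 0 := by
  intro h0
  by_cases hw : w = 0
  · subst hw
    rw [Thq_af] at h0
    simp only [ev_zero, mul_zero, Finset.sum_const_zero, add_zero] at h0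
    apply h
    rw [C_eq_zero] at h0
    rw [af, h0]
    simp
  · have h1 := pderiv_Thq_af (v := v) idx c w (Fin.castLE hv 0)
    rw [h0, map_zero] at h1
    have h2 := det_ev_ne (v := v) hidx hv (fun _ : Fin 1 => w) (by
      rw [linearIndependent_unique_iff]
      exact hw)
    apply h2
    rw [Matrix.det_fin_one, Matrix.of_apply, ← h1]

end Pool.Agent.H626R2
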