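import Mathlib
import Pool.Agent.H626R2.PVand

/-!
# Power products of affine forms: substitutions that preserve algebraic independence
-/

set_option autoImplicit false

namespace Pool.Agent.H626R2

open MvPolynomial

/-- The top coefficient of a determinant of polynomials. -/
theorem coeff_det_top {R : Type} [CommRing R] {r : ℕ}
    (M : Matrix (Fin r) (Fin r) (Polynomial R)) (d : ℕ) (h : ∀ a c, (M a c).natDegree ≤ d) :
    M.det.coeff (r * d) = (Matrix.of fun a c => (M a c).coeff d).det := by
  rw [Matrix.det_apply, Matrix.det_apply, Polynomial.finsetSum_coeff]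
  refine Finset.sum_congr rfl fun τ _ => ?_
  have h1 := Polynomial.coeff_prod_of_natDegree_le (Finset.univ : Finset (Fin r))
    (fun i => M (τ i) i) d (fun i _ => h _ _)
  rw [Finset.card_univ, Fintype.card_fin] at h1
  rcases Int.units_eq_one_or (Equiv.Perm.sign τ) with h2 | h2 <;> rw [h2]
  · simpa using h1
  · simpa using h1

/-- The logarithmic derivative of a power product. -/
theorem deriv_prod_pow {B : Type} [CommRing B] [Algebra ℚ B] (D : Derivation ℚ B B) {n : ℕ}
    (g : Fin n → B) (e : Fin n → ℕ) (s : Finset (Fin n)) :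
    D (∏ j ∈ s, g j ^ e j) * ∏ j ∈ s, g j
      = (∏ j ∈ s, g j ^ e j) * ∑ j ∈ s, (e j : B) * D (g j) * ∏ j' ∈ s.erase j, g j' := by
  classical
  induction s using Finset.induction_on with
  | empty => simp
  | insert a s ha ih =>
    rw [Finset.prod_insert ha, Finset.prod_insert ha, Finset.sum_insert ha,
      Finset.erase_insert ha, Derivation.leibniz, smul_eq_mul, smul_eq_mul]
    have h1 : ∀ j ∈ s, (e j : B) * D (g j) * ∏ j' ∈ (insert a s).erase j, g j'
        = g a * ((e j : B) * D (g j) * ∏ j' ∈ s.erase j, g j') := by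
      intro j hj
      have hja : a ≠ j := fun h => ha (h ▸ hj)
      rw [Finset.erase_insert_of_ne hja, Finset.prod_insert (fun h => ha (Finset.mem_of_mem_erase h))]
      ring
    rw [Finset.sum_congr rfl h1, ← Finset.mul_sum]
    have h2 : D (g a ^ e a) * g a = (e a : B) * g a ^ e a * D (g a) := by
      rw [Derivation.leibniz_pow, nsmul_eq_mul, smul_eq_mul]
      rcases Nat.eq_zero_or_pos (e a) with h | h
      · rw [h]; simp
      · have : g a ^ e a = g a ^ (e a - 1) * g a := by
          rw [← pow_succ, Nat.sub_add_cancel h]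
        rw [this]; ring
    linear_combination (g a ^ e a * g a) * ih + (∏ j ∈ s, g j ^ e j) * (∏ j ∈ s, g j) * h2

/-- Jacobian determinants of power products. -/
theorem det_prod_pow {B : Type} [CommRing B] [Algebra ℚ B] {n r : ℕ}
    (D : Fin r → Derivation ℚ B B) (g : Fin n → B) (e : Fin r → Fin n → ℕ) :
    (Matrix.of fun a b => D b (∏ j, g j ^ e a j)).det * (∏ j, g j) ^ r
      = (∏ a, ∏ j, g j ^ e a j) *
        (Matrix.of fun a b => ∑ j, (e a j : B) * D b (g j) * ∏ j' ∈ Finset.univ.erase j, g j').det := by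
  have h1 : (Matrix.of fun a b => D b (∏ j, g j ^ e a j)).det * (∏ j, g j) ^ r
      = (Matrix.of fun (a b : Fin r) => (∏ j, g j) * D b (∏ j, g j ^ e a j)).det := by
    have := Matrix.det_mul_column (fun _ : Fin r => ∏ j, g j)
      (Matrix.of fun a b => D b (∏ j, g j ^ e a j))
    rw [Finset.prod_const, Finset.card_univ, Fintype.card_fin] at this
    rw [mul_comm, ← this]
    congr 1
  rw [h1]
  have h2 := Matrix.det_mul_column (fun a : Fin r => ∏ j, g j ^ e a j)
    (Matrix.of fun a b => ∑ j, (e a j : B) * D b (g j) * ∏ j' ∈ Finset.univ.erase j, g j')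
  rw [← h2]
  congr 1
  ext a b
  simp only [Matrix.of_apply]
  rw [mul_comm, deriv_prod_pow]

variable {σ : Type} [Fintype σ] {v n r : ℕ}

/-- The localisation step: it suffices to look at the forms in a subspace. -/
theorem loc_step {idx : σ → ℕ} (hidx : Function.Injective idx) (hr : r + 1 ≤ v)
    (e : Fin r → Fin n → ℕ) (L0 : Fin n → ℚ) (L : Fin n → σ → ℚ) (w : Fin r → σ → ℚ)
    (hw : LinearIndependent ℚ w) (J : Finset (Fin n))
    (hJ : ∀ j, j ∈ J ↔ L j ∈ Submodule.span ℚ (Set.range w))
    (hdet : (Matrix.of fun (a c : Fin r) => ∑ j ∈ J, (e a j : MvPolynomial (Fin (v + v)) ℚ) *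
      ev idx (L j) (Fin.castLE (Nat.le_of_succ_le hr) c) *
      ∏ j' ∈ J.erase j, Thq v idx (af (L0 j') (L j'))).det ≠ 0) :
    (Matrix.of fun (a c : Fin r) => ∑ j, (e a j : MvPolynomial (Fin (v + v)) ℚ) *
      ev idx (L j) (Fin.castLE (Nat.le_of_succ_le hr) c) *
      ∏ j' ∈ Finset.univ.erase j, Thq v idx (af (L0 j') (L j'))).det ≠ 0 := by
  classical
  intro h0
  apply hdet
  let P : Fin (v + v) → Polynomial (MvPolynomial (Fin (v + v)) ℚ) := fun s => Fin.addCases
    (fun t : Fin v => Polynomial.C (X (Fin.castAdd v t)) + Polynomial.X *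
      Polynomial.C (bet idx hr w t))
    (fun t : Fin v => Polynomial.C (X (Fin.natAdd v t))) s
  let α : MvPolynomial (Fin (v + v)) ℚ →+* Polynomial (MvPolynomial (Fin (v + v)) ℚ) :=
    eval₂Hom ((Polynomial.C : MvPolynomial (Fin (v + v)) ℚ →+* _).comp
      (C : ℚ →+* MvPolynomial (Fin (v + v)) ℚ)) P
  have hαC : ∀ q : ℚ, α (C q) = Polynomial.C (C q) := fun q => eval₂Hom_C _ _ _
  have hαY : ∀ t : Fin v, α (X (Fin.castAdd v t)) = Polynomial.C (X (Fin.castAdd v t)) +
      Polynomial.X * Polynomial.C (bet idx hr w t) := by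
    intro t
    refine (eval₂Hom_X' _ _ _).trans ?_
    simp only [P, Fin.addCases_left]
  have hαZ : ∀ t : Fin v, α (X (Fin.natAdd v t)) = Polynomial.C (X (Fin.natAdd v t)) := by
    intro t
    refine (eval₂Hom_X' _ _ _).trans ?_
    simp only [P, Fin.addCases_right]
  have hαev : ∀ (w' : σ → ℚ) (t : Fin v), α (ev idx w' t) = Polynomial.C (ev idx w' t) :=
    fun w' t => map_bet α Polynomial.C hαZ hαC idx w' t
  set μ : Fin n → MvPolynomial (Fin (v + v)) ℚ := fun j => ∑ t : Fin v, bet idx hr w t * ev idx (L j) t with hμ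
  set Θ : Fin n → MvPolynomial (Fin (v + v)) ℚ := fun j => Thq v idx (af (L0 j) (L j)) with hΘ
  have hμJ : ∀ j, μ j = 0 ↔ j ∈ J := by
    intro j
    rw [hJ]
    exact sum_bet_eq_zero_iff hidx hr w hw (L j)
  have hαΘ : ∀ j, α (Θ j) = Polynomial.C (Θ j) + Polynomial.X * Polynomial.C (μ j) := by
    intro j
    simp only [hΘ, hμ]
    rw [Thq_af, map_add, map_sum, hαC, map_add, map_sum, map_sum, Finset.mul_sum]
    rw [add_assoc, ← Finset.sum_add_distrib]
    congr 1
    refine Finset.sum_congr rfl fun t _ => ?_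
    rw [map_mul, hαY, hαev, map_mul, map_mul]
    ring
  -- the image of the vanishing determinant
  set d := (Finset.univ \ J).card with hd
  set F : Matrix (Fin r) (Fin r) (Polynomial (MvPolynomial (Fin (v + v)) ℚ)) := Matrix.of fun a c => ∑ j,
    Polynomial.C ((e a j : MvPolynomial (Fin (v + v)) ℚ) * ev idx (L j) (Fin.castLE (Nat.le_of_succ_le hr) c)) *
      ∏ j' ∈ Finset.univ.erase j, (Polynomial.C (Θ j') + Polynomial.X * Polynomial.C (μ j')) with hF
  have hF0 : F.det = 0 := by
    have h1 := congrArg α h0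
    rw [map_zero, RingHom.map_det] at h1
    rw [← h1]
    congr 1
    ext1 a c
    rw [RingHom.mapMatrix_apply, Matrix.map_apply, hF, Matrix.of_apply, Matrix.of_apply, map_sum]
    refine Finset.sum_congr rfl fun j _ => ?_
    rw [map_mul α, map_mul α, map_natCast α, hαev, map_prod α, map_mul Polynomial.C,
      map_natCast Polynomial.C]
    congr 1
    exact Finset.prod_congr rfl fun j' _ => (hαΘ j').symm
  -- products over a set
  have hprod : ∀ s : Finset (Fin n),
      (∏ j' ∈ s, (Polynomial.C (Θ j') + Polynomial.X * Polynomial.C (μ j'))).natDegree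
        ≤ (s \ J).card ∧
      (∏ j' ∈ s, (Polynomial.C (Θ j') + Polynomial.X * Polynomial.C (μ j'))).coeff (s \ J).card
        = (∏ j' ∈ s ∩ J, Θ j') * ∏ j' ∈ s \ J, μ j' := by
    intro s
    have h1 : ∏ j' ∈ s, (Polynomial.C (Θ j') + Polynomial.X * Polynomial.C (μ j'))
        = Polynomial.C (∏ j' ∈ s ∩ J, Θ j') *
          ∏ j' ∈ s \ J, (Polynomial.C (Θ j') + Polynomial.X * Polynomial.C (μ j')) := by
      rw [← Finset.prod_inter_mul_prod_sdiff s J, map_prod]
      congr 1
      refine Finset.prod_congr rfl fun j' hj' => ?_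
      rw [(hμJ j').2 (Finset.mem_of_mem_inter_right hj'), Polynomial.C_0, mul_zero, add_zero]
    have h2 : ∀ j' ∈ s \ J, (Polynomial.C (Θ j') + Polynomial.X * Polynomial.C (μ j')).natDegree
        ≤ 1 := by
      intro j' _
      compute_degree
    have h3 := Polynomial.coeff_prod_of_natDegree_le (s \ J) _ 1 h2
    have h4 := Polynomial.natDegree_prod_le (s \ J)
      (fun j' => Polynomial.C (Θ j') + Polynomial.X * Polynomial.C (μ j'))
    rw [h1]
    constructor
    · refine (Polynomial.natDegree_C_mul_le _ _).trans (h4.trans ?_)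
      simpa using Finset.sum_le_card_nsmul _ _ 1 h2
    · rw [Polynomial.coeff_C_mul]
      congr 1
      rw [mul_one] at h3
      rw [h3]
      refine Finset.prod_congr rfl fun j' _ => ?_
      simp
  have hterm : ∀ j, (∏ j' ∈ Finset.univ.erase j,
      (Polynomial.C (Θ j') + Polynomial.X * Polynomial.C (μ j'))).natDegree ≤ d ∧
      (∏ j' ∈ Finset.univ.erase j,
      (Polynomial.C (Θ j') + Polynomial.X * Polynomial.C (μ j'))).coeff d
        = if j ∈ J then (∏ j' ∈ J.erase j, Θ j') * ∏ j' ∈ Finset.univ \ J, μ j' else 0 := by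
    intro j
    obtain ⟨h1, h2⟩ := hprod (Finset.univ.erase j)
    by_cases hj : j ∈ J
    · have h3 : Finset.univ.erase j \ J = Finset.univ \ J := by
        ext x
        simp only [Finset.mem_sdiff, Finset.mem_erase, Finset.mem_univ, and_true, true_and]
        constructor
        · exact fun h => h.2
        · exact fun h => ⟨fun h' => h (h' ▸ hj), h⟩
      have h4 : Finset.univ.erase j ∩ J = J.erase j := by
        ext x
        simp only [Finset.mem_inter, Finset.mem_erase, Finset.mem_univ, and_true]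
      rw [h3] at h1 h2
      rw [h4] at h2
      rw [if_pos hj]
      exact ⟨h1, h2⟩
    · have h3 : (Finset.univ.erase j \ J).card + 1 = d := by
        have : Finset.univ.erase j \ J = (Finset.univ \ J).erase j := by
          ext x
          simp only [Finset.mem_sdiff, Finset.mem_erase, Finset.mem_univ, and_true, true_and]
        rw [this, Finset.card_erase_of_mem (by simp [hj]), hd]
        have : 0 < (Finset.univ \ J).card := Finset.card_pos.2 ⟨j, by simp [hj]⟩
        omega
      rw [if_neg hj]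
      refine ⟨by omega, ?_⟩
      exact Polynomial.coeff_eq_zero_of_natDegree_lt (by omega)
  have hFd : ∀ a c, (F a c).natDegree ≤ d := by
    intro a c
    rw [hF, Matrix.of_apply]
    apply Polynomial.natDegree_sum_le_of_forall_le
    intro j _
    exact (Polynomial.natDegree_C_mul_le _ _).trans (hterm j).1
  have hFc := coeff_det_top F d hFd
  rw [hF0, Polynomial.coeff_zero] at hFc
  have hM : (∏ j' ∈ Finset.univ \ J, μ j') ^ r ≠ 0 := by
    apply pow_ne_zero
    rw [Finset.prod_ne_zero_iff]
    intro j hj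
    rw [Ne, hμJ]
    exact (Finset.mem_sdiff.1 hj).2
  have h5 := Matrix.det_mul_column (fun _ : Fin r => ∏ j' ∈ Finset.univ \ J, μ j')
    (Matrix.of fun (a c : Fin r) => ∑ j ∈ J, (e a j : MvPolynomial (Fin (v + v)) ℚ) *
      ev idx (L j) (Fin.castLE (Nat.le_of_succ_le hr) c) * ∏ j' ∈ J.erase j, Θ j')
  rw [Finset.prod_const, Finset.card_univ, Fintype.card_fin] at h5
  have h6 : (Matrix.of fun a c => (F a c).coeff d)
      = (Matrix.of fun (i j : Fin r) => (∏ j' ∈ Finset.univ \ J, μ j') *
        (Matrix.of fun (a c : Fin r) => ∑ j ∈ J, (e a j : MvPolynomial (Fin (v + v)) ℚ) *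
        ev idx (L j) (Fin.castLE (Nat.le_of_succ_le hr) c) * ∏ j' ∈ J.erase j, Θ j') i j) := by
    ext1 a c
    rw [Matrix.of_apply, Matrix.of_apply, Matrix.of_apply, hF, Matrix.of_apply,
      Polynomial.finsetSum_coeff, Finset.mul_sum, ← Finset.sum_subset (Finset.subset_univ J)]
    · refine Finset.sum_congr rfl fun j hj => ?_
      rw [Polynomial.coeff_C_mul, (hterm j).2, if_pos hj]
      ring
    · intro j _ hj
      rw [Polynomial.coeff_C_mul, (hterm j).2, if_neg hj, mul_zero]
  rw [h6, h5] at hFc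
  rcases mul_eq_zero.1 hFc.symm with h | h
  · exact absurd h hM
  · exact h

end Pool.Agent.H626R2
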