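import Mathlib
import Pool.Agent.H626R2.PLoc

/-!
# Power products of affine forms: substitutions that preserve algebraic independence, II
-/

set_option autoImplicit false

namespace Pool.Agent.H626R2

open MvPolynomial

variable {σ : Type} [Fintype σ] {v n r : ℕ}

theorem det_mem {A : Type} [CommRing A] [Algebra ℚ A] (R : Subalgebra ℚ A) {r : ℕ}
    (M : Matrix (Fin r) (Fin r) A) (h : ∀ a b, M a b ∈ R) : M.det ∈ R := by
  rw [Matrix.det_apply]
  refine R.sum_mem fun τ _ => ?_
  have h1 : ∏ i, M (τ i) i ∈ R := R.prod_mem fun i _ => h _ _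
  rcases Int.units_eq_one_or (Equiv.Perm.sign τ) with h2 | h2 <;> rw [h2]
  · simpa using h1
  · simpa using h1

/-- The case that all forms lie in a space of small dimension. -/
theorem small_step {idx : σ → ℕ} (hidx : Function.Injective idx) (hr : r ≤ v)
    (e : Fin r → Fin n → ℕ) (L0 : Fin n → ℚ) (L : Fin n → σ → ℚ) (w : Fin r → σ → ℚ)
    (hw : LinearIndependent ℚ w) (J : Finset (Fin n))
    (hJ : ∀ j ∈ J, L j ∈ Submodule.span ℚ (Set.range w)) (s : Fin r → σ)
    (hdet : (Matrix.of fun (a b : Fin r) => ∑ j ∈ J, (e a j : MvPolynomial σ ℚ) *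
      C (L j (s b)) * ∏ j' ∈ J.erase j, af (L0 j') (L j')).det ≠ 0) :
    (Matrix.of fun (a c : Fin r) => ∑ j ∈ J, (e a j : MvPolynomial (Fin (v + v)) ℚ) *
      ev idx (L j) (Fin.castLE hr c) *
      ∏ j' ∈ J.erase j, Thq v idx (af (L0 j') (L j'))).det ≠ 0 := by
  classical
  have hκ : ∀ j, ∃ κ : Fin r → ℚ, j ∈ J → L j = ∑ d, κ d • w d := by
    intro j
    by_cases hj : j ∈ J
    · obtain ⟨κ, hκ⟩ := (Submodule.mem_span_range_iff_exists_fun ℚ).1 (hJ j hj)
      exact ⟨κ, fun _ => hκ.symm⟩
    · exact ⟨0, fun h => absurd h hj⟩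
  choose κ hκ using hκ
  let W : Matrix (Fin r) (Fin r) (MvPolynomial σ ℚ) := Matrix.of fun a d =>
    ∑ j ∈ J, (e a j : MvPolynomial σ ℚ) * C (κ j d) * ∏ j' ∈ J.erase j, af (L0 j') (L j')
  have h1 : (Matrix.of fun (a b : Fin r) => ∑ j ∈ J, (e a j : MvPolynomial σ ℚ) *
      C (L j (s b)) * ∏ j' ∈ J.erase j, af (L0 j') (L j'))
      = W * Matrix.of fun d b => (C (w d (s b)) : MvPolynomial σ ℚ) := by
    ext1 a b
    rw [Matrix.mul_apply]
    simp only [W, Matrix.of_apply, Finset.sum_mul]
    rw [Finset.sum_comm]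
    refine Finset.sum_congr rfl fun j hj => ?_
    have h2 : L j (s b) = ∑ d, κ j d * w d (s b) := by
      have := congrFun (hκ j hj) (s b)
      simpa using this
    rw [h2, map_sum, Finset.mul_sum, Finset.sum_mul]
    refine Finset.sum_congr rfl fun d _ => ?_
    rw [C_mul]
    ring
  have hW : W.det ≠ 0 := by
    intro h0
    apply hdet
    rw [h1, Matrix.det_mul, h0, zero_mul]
  have h3 : (Matrix.of fun (a c : Fin r) => ∑ j ∈ J, (e a j : MvPolynomial (Fin (v + v)) ℚ) *
      ev idx (L j) (Fin.castLE hr c) * ∏ j' ∈ J.erase j, Thq v idx (af (L0 j') (L j')))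
      = (Thq v idx : MvPolynomial σ ℚ →+* MvPolynomial (Fin (v + v)) ℚ).mapMatrix W *
        Matrix.of fun d c => ev idx (w d) (Fin.castLE hr c) := by
    ext1 a c
    rw [Matrix.mul_apply]
    simp only [W, Matrix.of_apply, RingHom.mapMatrix_apply, Matrix.map_apply, RingHom.coe_coe,
      map_sum, Finset.sum_mul]
    rw [Finset.sum_comm]
    refine Finset.sum_congr rfl fun j hj => ?_
    rw [hκ j hj, ev_sum, Finset.mul_sum, Finset.sum_mul]
    refine Finset.sum_congr rfl fun d _ => ?_
    rw [map_mul, map_mul, map_natCast, algHom_C, algebraMap_eq, map_prod]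
    ring
  rw [h3, Matrix.det_mul, ← RingHom.map_det]
  refine mul_ne_zero ?_ (det_ev_ne hidx hr w hw)
  -- injectivity on the subalgebra of the forms
  intro h0
  apply hW
  set R := Algebra.adjoin ℚ (Set.range fun d => (af 0 (w d) : MvPolynomial σ ℚ)) with hR
  have hCR : ∀ q : ℚ, (C q : MvPolynomial σ ℚ) ∈ R := fun q => by
    rw [← algebraMap_eq]; exact R.algebraMap_mem q
  have hafR : ∀ j ∈ J, af (L0 j) (L j) ∈ R := by
    intro j hj
    have h4 : af (L0 j) (L j) = C (L0 j) + ∑ d, C (κ j d) * af 0 (w d) := by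
      rw [af]
      congr 1
      simp only [af, C_0, zero_add, Finset.mul_sum]
      rw [Finset.sum_comm]
      refine Finset.sum_congr rfl fun i _ => ?_
      have h2 : L j i = ∑ d, κ j d * w d i := by
        have := congrFun (hκ j hj) i
        simpa using this
      rw [h2, map_sum, Finset.sum_mul]
      refine Finset.sum_congr rfl fun d _ => ?_
      rw [C_mul]
      ring
    rw [h4]
    refine R.add_mem (hCR _) (R.sum_mem fun d _ => R.mul_mem (hCR _) ?_)
    exact Algebra.subset_adjoin ⟨d, rfl⟩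
  have hdR : W.det ∈ R := by
    apply det_mem
    intro a d
    simp only [W, Matrix.of_apply]
    refine R.sum_mem fun j _ => R.mul_mem (R.mul_mem (natCast_mem R _) (hCR _)) ?_
    exact R.prod_mem fun j' hj' => hafR j' (Finset.mem_of_mem_erase hj')
  rw [hR, Algebra.adjoin_range_eq_range_aeval] at hdR
  obtain ⟨P, hP⟩ := hdR
  have hP' : aeval (fun d => (af 0 (w d) : MvPolynomial σ ℚ)) P = W.det := hP
  rw [← hP'] at h0 ⊢
  have h5 : aeval (fun d => Thq v idx (af 0 (w d))) P = 0 := by
    rw [← h0]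
    have h6 : (aeval fun d => Thq v idx (af 0 (w d)))
        = (Thq v idx).comp (aeval fun d => (af 0 (w d) : MvPolynomial σ ℚ)) := by
      apply algHom_ext
      intro d
      simp
    rw [h6]
    rfl
  rw [(algebraicIndependent_iff.1 (algInd_forms hidx hr w hw)) P h5, map_zero]

/-- The expansion step: some subspace spanned by forms contributes. -/
theorem expand_step (e : Fin r → Fin n → ℕ) (L0 : Fin n → ℚ) (L : Fin n → σ → ℚ) (s : Fin r → σ)
    (hdet : (Matrix.of fun (a b : Fin r) => ∑ j, (e a j : MvPolynomial σ ℚ) *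
      C (L j (s b)) * ∏ j' ∈ Finset.univ.erase j, af (L0 j') (L j')).det ≠ 0) :
    ∃ f : Fin r → Fin n, LinearIndependent ℚ (fun a => L (f a)) ∧
      ∀ J : Finset (Fin n),
        (∀ j, j ∈ J ↔ L j ∈ Submodule.span ℚ (Set.range fun a => L (f a))) →
        (Matrix.of fun (a b : Fin r) => ∑ j ∈ J, (e a j : MvPolynomial σ ℚ) *
          C (L j (s b)) * ∏ j' ∈ J.erase j, af (L0 j') (L j')).det ≠ 0 := by
  classical
  let G : Fin r → Fin n → MvPolynomial σ ℚ := fun a j =>
    (e a j : MvPolynomial σ ℚ) * ∏ j' ∈ Finset.univ.erase j, af (L0 j') (L j')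
  let term : (Fin r → Fin n) → MvPolynomial σ ℚ := fun f =>
    (Matrix.of fun (a b : Fin r) => G a (f a) * C (L (f a) (s b))).det
  have hexp : ∀ J : Finset (Fin n), (Matrix.of fun (a b : Fin r) => ∑ j ∈ J,
      G a j * C (L j (s b))).det = ∑ f ∈ Fintype.piFinset (fun _ : Fin r => J), term f := by
    intro J
    have h1 := (Matrix.detRowAlternating (n := Fin r)
      (R := MvPolynomial σ ℚ)).toMultilinearMap.map_sum_finset
      (fun (a : Fin r) (j : Fin n) => fun b : Fin r => G a j * C (L j (s b))) (fun _ => J)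
    have h2 : (Matrix.of fun (a b : Fin r) => ∑ j ∈ J, G a j * C (L j (s b)))
        = fun a => ∑ j ∈ J, fun b : Fin r => G a j * C (L j (s b)) := by
      funext a b
      rw [Matrix.of_apply, Finset.sum_apply]
    rw [h2]
    exact h1
  have hterm : ∀ f, term f = (∏ a, G a (f a)) *
      C ((Matrix.of fun (a b : Fin r) => L (f a) (s b)).det) := by
    intro f
    have h1 := Matrix.det_mul_column (fun a => G a (f a))
      (Matrix.of fun (a b : Fin r) => (C (L (f a) (s b)) : MvPolynomial σ ℚ))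
    simp only [term]
    have h2 : (C ((Matrix.of fun (a b : Fin r) => L (f a) (s b)).det) : MvPolynomial σ ℚ)
        = (Matrix.of fun (a b : Fin r) => (C (L (f a) (s b)) : MvPolynomial σ ℚ)).det := by
      rw [RingHom.map_det]
      rfl
    rw [h2, ← h1]
    rfl
  have hli : ∀ f, term f ≠ 0 → LinearIndependent ℚ (fun a => L (f a)) := by
    intro f hf
    have h1 : (Matrix.of fun (a b : Fin r) => L (f a) (s b)).det ≠ 0 := by
      intro h0
      apply hf
      rw [hterm, h0, C_0, mul_zero]
    have h2 := Matrix.linearIndependent_rows_of_det_ne_zero h1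
    have h3 : LinearIndependent ℚ ((LinearMap.funLeft ℚ ℚ s) ∘ (fun a => L (f a))) := h2
    exact h3.of_comp _
  have h0 : ∑ f, term f ≠ 0 := by
    have h1 := hexp Finset.univ
    have h2 : (Matrix.of fun (a b : Fin r) => ∑ j, G a j * C (L j (s b)))
        = Matrix.of fun (a b : Fin r) => ∑ j, (e a j : MvPolynomial σ ℚ) *
          C (L j (s b)) * ∏ j' ∈ Finset.univ.erase j, af (L0 j') (L j') := by
      ext1 a b
      rw [Matrix.of_apply, Matrix.of_apply]
      refine Finset.sum_congr rfl fun j _ => ?_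
      simp only [G]
      ring
    rw [h2, Fintype.piFinset_univ] at h1
    rw [← h1]
    exact hdet
  let Vf : (Fin r → Fin n) → Submodule ℚ (σ → ℚ) := fun f =>
    Submodule.span ℚ (Set.range fun a => L (f a))
  rw [← Finset.sum_fiberwise_of_maps_to (s := Finset.univ) (t := Finset.univ.image Vf) (g := Vf)
    (fun f _ => Finset.mem_image_of_mem _ (Finset.mem_univ f)) term] at h0
  obtain ⟨V, -, hV⟩ := Finset.exists_ne_zero_of_sum_ne_zero h0
  obtain ⟨f0, hf0, hf0t⟩ := Finset.exists_ne_zero_of_sum_ne_zero hV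
  have hf0V : Vf f0 = V := (Finset.mem_filter.1 hf0).2
  have hind := hli f0 hf0t
  refine ⟨f0, hind, fun J hJ => ?_⟩
  have hJV : ∀ j, j ∈ J ↔ L j ∈ V := by
    intro j
    rw [hJ, ← hf0V]
  have h1 : ∑ f ∈ Fintype.piFinset (fun _ : Fin r => J), term f
      = ∑ f ∈ Finset.univ.filter (fun f => Vf f = V), term f := by
    symm
    apply Finset.sum_subset
    · intro f hf
      rw [Finset.mem_filter] at hf
      rw [Fintype.mem_piFinset]
      intro a
      rw [hJV, ← hf.2]
      exact Submodule.subset_span ⟨a, rfl⟩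
    · intro f hf hf'
      by_contra hne
      apply hf'
      rw [Finset.mem_filter]
      refine ⟨Finset.mem_univ _, ?_⟩
      have h2 := hli f hne
      rw [Fintype.mem_piFinset] at hf
      have h3 : Vf f ≤ V := by
        rw [Submodule.span_le]
        rintro _ ⟨a, rfl⟩
        exact (hJV _).1 (hf a)
      apply Submodule.eq_of_le_of_finrank_eq h3
      have h4 := finrank_span_eq_card h2
      have h5 := finrank_span_eq_card hind
      rw [← hf0V]
      exact h4.trans h5.symm
  have h2 : (Matrix.of fun (a b : Fin r) => ∑ j ∈ J, G a j * C (L j (s b))).det ≠ 0 := by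
    rw [hexp J, h1]
    exact hV
  intro h3
  apply h2
  have h4 := Matrix.det_mul_column (fun _ : Fin r => ∏ j' ∈ Finset.univ \ J, af (L0 j') (L j'))
    (Matrix.of fun (a b : Fin r) => ∑ j ∈ J, (e a j : MvPolynomial σ ℚ) *
          C (L j (s b)) * ∏ j' ∈ J.erase j, af (L0 j') (L j'))
  rw [h3, mul_zero] at h4
  rw [← h4]
  congr 1
  ext1 a b
  rw [Matrix.of_apply, Matrix.of_apply, Matrix.of_apply, Finset.mul_sum]
  refine Finset.sum_congr rfl fun j hj => ?_
  simp only [G]
  have h5 : ∏ j' ∈ Finset.univ.erase j, af (L0 j') (L j')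
      = (∏ j' ∈ J.erase j, af (L0 j') (L j')) * ∏ j' ∈ Finset.univ \ J, af (L0 j') (L j') := by
    rw [← Finset.prod_inter_mul_prod_sdiff (Finset.univ.erase j) J]
    congr 1
    · apply Finset.prod_congr _ fun _ _ => rfl
      ext x
      simp only [Finset.mem_inter, Finset.mem_erase, Finset.mem_univ, and_true]
    · apply Finset.prod_congr _ fun _ _ => rfl
      ext x
      simp only [Finset.mem_sdiff, Finset.mem_erase, Finset.mem_univ, and_true, true_and]
      constructor
      · exact fun h => h.2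
      · exact fun h => ⟨fun h' => h (h' ▸ hj), h⟩
  rw [h5]
  ring

/-- The substitution preserves the algebraic independence of at most `v - 1` power products of
affine forms. -/
theorem transfer {idx : σ → ℕ} (hidx : Function.Injective idx) (hr : r + 1 ≤ v)
    (e : Fin r → Fin n → ℕ) (L0 : Fin n → ℚ) (L : Fin n → σ → ℚ)
    (hne : ∀ j, (af (L0 j) (L j) : MvPolynomial σ ℚ) ≠ 0)
    (hT : AlgebraicIndependent ℚ (fun a => (∏ j, af (L0 j) (L j) ^ e a j : MvPolynomial σ ℚ))) :
    AlgebraicIndependent ℚ (fun a => Thq v idx (∏ j, af (L0 j) (L j) ^ e a j)) := by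
  classical
  obtain ⟨s, hs⟩ := det_of_algInd _ hT
  have h1 := det_prod_pow (fun b : Fin r => (pderiv (s b) : Derivation ℚ (MvPolynomial σ ℚ) _))
    (fun j => (af (L0 j) (L j) : MvPolynomial σ ℚ)) e
  have haf : ∀ (j : Fin n) (i : σ), pderiv i (af (L0 j) (L j)) = (C (L j i) : MvPolynomial σ ℚ) := by
    intro j i
    rw [af, map_add, pderiv_C, zero_add, map_sum, Finset.sum_eq_single i]
    · rw [pderiv_C_mul, pderiv_X_self, mul_one]
    · intro i' _ hi'
      rw [pderiv_C_mul, pderiv_X_of_ne hi', mul_zero]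
    · intro h
      exact absurd (Finset.mem_univ _) h
  have h2 : (Matrix.of fun (a b : Fin r) => ∑ j, (e a j : MvPolynomial σ ℚ) *
      C (L j (s b)) * ∏ j' ∈ Finset.univ.erase j, af (L0 j') (L j')).det ≠ 0 := by
    intro h0
    have h3 : (Matrix.of fun a b => ∑ j, (e a j : MvPolynomial σ ℚ) *
        (pderiv (s b)) (af (L0 j) (L j)) * ∏ j' ∈ Finset.univ.erase j, af (L0 j') (L j'))
        = Matrix.of fun (a b : Fin r) => ∑ j, (e a j : MvPolynomial σ ℚ) *
      C (L j (s b)) * ∏ j' ∈ Finset.univ.erase j, af (L0 j') (L j') := by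
      ext1 a b
      rw [Matrix.of_apply, Matrix.of_apply]
      exact Finset.sum_congr rfl fun j _ => by rw [haf]
    rw [h3, h0, mul_zero] at h1
    rcases mul_eq_zero.1 h1 with h | h
    · exact hs h
    · exact (pow_ne_zero r (Finset.prod_ne_zero_iff.2 fun j _ => hne j)) h
  obtain ⟨f, hf, hJf⟩ := expand_step e L0 L s h2
  set J : Finset (Fin n) := Finset.univ.filter
    (fun j => L j ∈ Submodule.span ℚ (Set.range fun a => L (f a))) with hJdef
  have hJ : ∀ j, j ∈ J ↔ L j ∈ Submodule.span ℚ (Set.range fun a => L (f a)) := by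
    intro j
    rw [hJdef, Finset.mem_filter]
    simp
  have h3 := small_step hidx (Nat.le_of_succ_le hr) e L0 L (fun a => L (f a)) hf J
    (fun j hj => (hJ j).1 hj) s (hJf J hJ)
  have h4 := loc_step hidx hr e L0 L (fun a => L (f a)) hf J hJ h3
  apply algInd_of_det (fun c => pderiv (Fin.castAdd v (Fin.castLE (Nat.le_of_succ_le hr) c)))
  have h5 := det_prod_pow (fun c : Fin r =>
    (pderiv (Fin.castAdd v (Fin.castLE (Nat.le_of_succ_le hr) c)) :
      Derivation ℚ (MvPolynomial (Fin (v + v)) ℚ) _))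
    (fun j => Thq v idx (af (L0 j) (L j))) e
  simp only [pderiv_Thq_af] at h5
  intro h0
  have h6 : ∀ a, Thq v idx (∏ j, af (L0 j) (L j) ^ e a j)
      = ∏ j, Thq v idx (af (L0 j) (L j)) ^ e a j := by
    intro a
    rw [map_prod]
    exact Finset.prod_congr rfl fun j _ => map_pow _ _ _
  simp only [h6] at h0
  rw [h0, zero_mul] at h5
  rcases mul_eq_zero.1 h5.symm with h | h
  · obtain ⟨a, _, ha⟩ := Finset.prod_eq_zero_iff.1 h
    obtain ⟨j, _, hj⟩ := Finset.prod_eq_zero_iff.1 ha
    exact Thq_af_ne hidx (by omega) _ _ (hne j) (pow_eq_zero_iff' |>.1 hj |>.1)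
  · exact h4 h

end Pool.Agent.H626R2
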