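import Mathlib
import Pool.Agent.H531R2.Hit2
import Pool.Agent.H626R2.PTrans
import Pool.Agent.H626R2.PFaith

/-!
# Integer affine forms and the definition of the class of polynomials
-/

set_option autoImplicit false

namespace Pool.Agent.H626R2

open MvPolynomial Pool.Agent.H531R2

/-- The affine form `a0 + ∑_{i ∈ S} a_i x_i`. -/
noncomputable def aff {R : Type} [CommRing R] (S : Finset ℕ) (a0 : R) (a : ℕ → R) :
    MvPolynomial ℕ R := C a0 + ∑ i ∈ S, C (a i) * X i

/-- `F` is a rational combination `∑ c_i T_i` of `n` power products `T_i = ∏_j ℓ_j ^ e_ij`. Here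
the `ℓ_j` are `n` affine linear forms in at most `n` variables with integer coefficients of
absolute value at most `2 ^ n`, the exponents `e_ij` are at most `2 ^ n`, the `c_i` are arbitrary
rational numbers, and the transcendence degree of the `T_i` is at most `k`: no `k + 1` of them are
algebraically independent. -/
def FewTr (k n : ℕ) (F : MvPolynomial ℕ ℚ) : Prop :=
  ∃ (S : Finset ℕ) (a0 : Fin n → ℤ) (a : Fin n → ℕ → ℤ) (e : Fin n → Fin n → ℕ)
    (c : Fin n → ℚ),
    S.card ≤ n ∧ (∀ j, (a0 j).natAbs ≤ 2 ^ n) ∧ (∀ j i, (a j i).natAbs ≤ 2 ^ n) ∧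
    (∀ i j, e i j ≤ 2 ^ n) ∧
    (∀ u : Fin (k + 1) → Fin n, ¬ AlgebraicIndependent ℚ
      (fun b => ∏ j, aff S (a0 j : ℚ) (fun i => (a j i : ℚ)) ^ e (u b) j)) ∧
    F = ∑ i, C (c i) * ∏ j, aff S (a0 j : ℚ) (fun l => (a j l : ℚ)) ^ e i j

/-- `f` divides, over the rational numbers, a product of `n` nonzero polynomials with
`FewTr k n`, and no power `p ^ (n + 1)` of a prime number `p > n` divides all coefficients of
`f`. -/
def TameTr (k n : ℕ) (f : MvPolynomial ℕ ℤ) : Prop :=
  (∀ p : ℕ, p.Prime → n < p → ¬ (C ((p : ℤ) ^ (n + 1)) ∣ f)) ∧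
    ∃ F : Fin n → MvPolynomial ℕ ℚ, (∀ a, F a ≠ 0 ∧ FewTr k n (F a)) ∧
      map (Int.castRingHom ℚ) f ∣ ∏ a, F a

variable {k n v : ℕ}

theorem coeff_aff_zero {R : Type} [CommRing R] (S : Finset ℕ) (a0 : R) (a : ℕ → R) :
    coeff 0 (aff S a0 a) = a0 := by
  classical
  rw [aff, coeff_add, coeff_zero_C, coeff_sum, Finset.sum_eq_zero, add_zero]
  intro i _
  rw [coeff_C_mul, coeff_zero_X, mul_zero]

theorem coeff_aff_single {R : Type} [CommRing R] (S : Finset ℕ) (a0 : R) (a : ℕ → R) {i : ℕ}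
    (hi : i ∈ S) : coeff (Finsupp.single i 1) (aff S a0 a) = a i := by
  classical
  rw [aff, coeff_add, coeff_C, if_neg (by
    intro h
    have := DFunLike.congr_fun h i
    simp at this), zero_add, coeff_sum, Finset.sum_eq_single i]
  · rw [coeff_C_mul, coeff_X, if_pos rfl, mul_one]
  · intro j _ hj
    rw [coeff_C_mul, coeff_X, if_neg, mul_zero]
    intro h
    exact hj ((Finsupp.single_left_inj one_ne_zero).1 h)
  · intro h
    exact absurd hi h

theorem C_mul_aff {R : Type} [CommRing R] (S : Finset ℕ) (κ a0 : R) (a : ℕ → R) :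
    C κ * aff S a0 a = aff S (κ * a0) (fun i => κ * a i) := by
  rw [aff, aff, mul_add, Finset.mul_sum, C_mul]
  congr 1
  refine Finset.sum_congr rfl fun i _ => ?_
  rw [C_mul]
  ring

theorem aff_congr {R : Type} [CommRing R] (S : Finset ℕ) (a0 : R) {a b : ℕ → R}
    (h : ∀ i ∈ S, a i = b i) : aff S a0 a = aff S a0 b := by
  rw [aff, aff]
  congr 1
  exact Finset.sum_congr rfl fun i hi => by rw [h i hi]

/-- Primitive parts of affine forms. -/
theorem aff_prim_part (S : Finset ℕ) (a0 : ℤ) (a : ℕ → ℤ) {B : ℕ} (hB : 1 ≤ B)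
    (ha0 : a0.natAbs ≤ B) (ha : ∀ i, (a i).natAbs ≤ B) :
    ∃ (κ a0' : ℤ) (a' : ℕ → ℤ), aff S a0 a = C κ * aff S a0' a' ∧ Prim (aff S a0' a') ∧
      a0'.natAbs ≤ B ∧ ∀ i, (a' i).natAbs ≤ B := by
  classical
  by_cases h0 : aff S a0 a = 0
  · refine ⟨0, 1, fun _ => 0, by rw [h0]; simp, ?_, by simpa using hB, by simp⟩
    have : aff S (1 : ℤ) (fun _ => 0) = 1 := by simp [aff]
    rw [this]
    exact Prim.one
  · obtain ⟨κ, D, hκ, hD, hDp⟩ := exists_prim_part h0
    have h1 : ∀ m, coeff m (aff S a0 a) = κ * coeff m D := fun m => by rw [hD, coeff_C_mul]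
    have h2 : a0 = κ * coeff 0 D := by rw [← h1, coeff_aff_zero]
    have h3 : ∀ i ∈ S, a i = κ * coeff (Finsupp.single i 1) D := fun i hi => by
      rw [← h1, coeff_aff_single S a0 a hi]
    have h4 : D = aff S (coeff 0 D)
        (fun i => if i ∈ S then coeff (Finsupp.single i 1) D else 0) := by
      have hC : (C κ : MvPolynomial ℕ ℤ) ≠ 0 := by rw [Ne, C_eq_zero]; exact hκ
      apply mul_left_cancel₀ hC
      rw [← hD, C_mul_aff, ← h2]
      apply aff_congr
      intro i hi
      rw [if_pos hi]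
      exact h3 i hi
    have hle : ∀ x : ℤ, x.natAbs ≤ (κ * x).natAbs := fun x => by
      rw [Int.natAbs_mul]
      exact Nat.le_mul_of_pos_left _ (Int.natAbs_pos.2 hκ)
    refine ⟨κ, coeff 0 D, fun i => if i ∈ S then coeff (Finsupp.single i 1) D else 0, ?_, ?_, ?_,
      ?_⟩
    · rw [← h4]; exact hD
    · rw [← h4]; exact hDp
    · refine (hle _).trans ?_
      rw [← h2]; exact ha0
    · intro i
      by_cases hi : i ∈ S
      · simp only [if_pos hi]
        refine (hle _).trans ?_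
        rw [← h3 i hi]; exact ha i
      · simp [hi]

theorem Th_aff (idx : ℕ → ℕ) (S : Finset ℕ) (a0 : ℤ) (a : ℕ → ℤ) :
    Th v idx (aff S a0 a) = C a0 + ∑ t : Fin v, X (Fin.castAdd v t) *
      ∑ i ∈ S, C (a i) * X (Fin.natAdd v t) ^ idx i := by
  rw [aff, map_add, map_sum, algHom_C, algebraMap_eq]
  congr 1
  simp only [Finset.mul_sum]
  rw [Finset.sum_comm]
  refine Finset.sum_congr rfl fun i _ => ?_
  rw [map_mul, algHom_C, algebraMap_eq, Th, aeval_X, Finset.mul_sum]
  exact Finset.sum_congr rfl fun t _ => by ring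

/-- The substitution preserves primitivity of affine forms. -/
theorem Prim_Th_aff (hv : 1 ≤ v) (idx : ℕ → ℕ) (S : Finset ℕ) (hidx : Set.InjOn idx S)
    (a0 : ℤ) (a : ℕ → ℤ) (h : Prim (aff S a0 a)) : Prim (Th v idx (aff S a0 a)) := by
  classical
  intro p hp hdvd
  apply h p hp
  -- specialise to `Y + ...`
  let P : Fin (v + v) → Polynomial (Polynomial ℤ) := fun s => Fin.addCases
    (fun t : Fin v => if t.1 = 0 then Polynomial.X else 0)
    (fun t : Fin v => Polynomial.C Polynomial.X) s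
  let χ : MvPolynomial (Fin (v + v)) ℤ →+* Polynomial (Polynomial ℤ) :=
    eval₂Hom ((Polynomial.C : Polynomial ℤ →+* _).comp (Polynomial.C : ℤ →+* Polynomial ℤ)) P
  have hχC : ∀ z : ℤ, χ (C z) = Polynomial.C (Polynomial.C z) := fun z => eval₂Hom_C _ _ _
  have hχY : ∀ t : Fin v, χ (X (Fin.castAdd v t)) = if t.1 = 0 then Polynomial.X else 0 := by
    intro t
    refine (eval₂Hom_X' _ _ _).trans ?_
    simp only [P, Fin.addCases_left]
  have hχZ : ∀ t : Fin v, χ (X (Fin.natAdd v t)) = Polynomial.C Polynomial.X := by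
    intro t
    refine (eval₂Hom_X' _ _ _).trans ?_
    simp only [P, Fin.addCases_right]
  have h1 : χ (Th v idx (aff S a0 a)) = Polynomial.C (Polynomial.C a0) + Polynomial.X *
      Polynomial.C (∑ i ∈ S, Polynomial.C (a i) * Polynomial.X ^ idx i) := by
    rw [Th_aff, map_add, hχC, map_sum, Finset.sum_eq_single (⟨0, hv⟩ : Fin v)]
    · rw [map_mul, hχY, if_pos rfl, map_sum, map_sum]
      congr 2
      refine Finset.sum_congr rfl fun i _ => ?_
      rw [map_mul, map_pow, hχC, hχZ, map_mul, map_pow]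
    · intro t _ ht
      rw [map_mul, hχY, if_neg, zero_mul]
      intro h0
      exact ht (Fin.ext h0)
    · intro h0
      exact absurd (Finset.mem_univ _) h0
  obtain ⟨q, hq⟩ := hdvd
  have h2 : χ (Th v idx (aff S a0 a)) = Polynomial.C (Polynomial.C (p : ℤ)) * χ q := by
    rw [hq, map_mul, hχC]
  have hd0 : (p : ℤ) ∣ a0 := by
    have h3 := congrArg (fun z => (Polynomial.coeff z 0).coeff 0) (h1.symm.trans h2)
    simp only [Polynomial.coeff_add, Polynomial.coeff_C_zero, Polynomial.mul_coeff_zero,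
      Polynomial.coeff_X_zero, zero_mul, add_zero] at h3
    exact ⟨_, h3⟩
  have hdi : ∀ i ∈ S, (p : ℤ) ∣ a i := by
    intro i hi
    have h3 := congrArg (fun z => Polynomial.coeff z 1) (h1.symm.trans h2)
    simp only [Polynomial.coeff_add, Polynomial.coeff_C_mul] at h3
    rw [Polynomial.coeff_C_of_ne_zero one_ne_zero, zero_add, Polynomial.coeff_X_mul,
      Polynomial.coeff_C_zero] at h3
    have h4 := congrArg (fun z => Polynomial.coeff z (idx i)) h3
    simp only [Polynomial.finsetSum_coeff, Polynomial.coeff_C_mul] at h4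
    rw [Finset.sum_eq_single i] at h4
    · rw [Polynomial.coeff_X_pow_self, mul_one] at h4
      exact ⟨_, h4⟩
    · intro j hj hne
      rw [Polynomial.coeff_X_pow, if_neg, mul_zero]
      intro h5
      exact hne (hidx hj hi h5.symm)
    · intro h5
      exact absurd hi h5
  rw [aff]
  refine dvd_add (map_dvd C hd0) (Finset.dvd_sum fun i hi => ?_)
  exact Dvd.dvd.mul_right (map_dvd C (hdi i hi)) _

theorem totalDegree_Th_aff (idx : ℕ → ℕ) (S : Finset ℕ) (a0 : ℤ) (a : ℕ → ℤ) (m : ℕ)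
    (hlt : ∀ j ∈ S, idx j < m) : (Th v idx (aff S a0 a)).totalDegree ≤ m := by
  rw [aff, map_add, algHom_C, algebraMap_eq]
  refine (totalDegree_add _ _).trans (max_le ?_ ?_)
  · rw [totalDegree_C]
    exact Nat.zero_le _
  · rw [map_sum]
    apply totalDegree_sum_le
    intro j hj
    rw [map_mul, algHom_C, algebraMap_eq]
    refine (totalDegree_C_mul_le _ _).trans ?_
    rw [Th, aeval_X]
    apply totalDegree_sum_le
    intro t _
    refine (totalDegree_mul _ _).trans ?_
    have h1 : (X (Fin.natAdd v t) ^ idx j : MvPolynomial (Fin (v + v)) ℤ).totalDegree ≤ idx j := by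
      refine (totalDegree_pow _ _).trans ?_
      rw [totalDegree_X, mul_one]
    have h2 := hlt j hj
    rw [totalDegree_X]
    omega

theorem nrm_Th_aff (idx : ℕ → ℕ) (S : Finset ℕ) (a0 : ℤ) (a : ℕ → ℤ) (B : ℕ)
    (h0 : a0.natAbs ≤ B) (ha : ∀ i, (a i).natAbs ≤ B) :
    nrm (Th v idx (aff S a0 a)) ≤ B + S.card * (B * v) := by
  rw [aff, map_add, algHom_C, algebraMap_eq]
  refine (nrm_add _ _).trans (Nat.add_le_add ((nrm_C _).trans h0) ?_)
  exact nrm_Th_lf (v := v) idx S (fun (_ : Fin v) => a) B (fun _ j => ha j) |> fun h => by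
    by_cases hv : v = 0
    · subst hv
      rw [map_sum]
      refine (nrm_sum _ _).trans ?_
      refine (Finset.sum_le_card_nsmul S _ 0 fun j _ => ?_).trans (by simp)
      rw [map_mul]
      refine (nrm_mul _ _).trans ?_
      have : nrm (Th 0 idx (X j)) = 0 := by
        rw [Th, aeval_X]; simp
      rw [this, mul_zero]
    · exact h ⟨0, Nat.pos_of_ne_zero hv⟩

end Pool.Agent.H626R2
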