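import Mathlib
import Pool.Agent.H626R2.PForms

/-!
# Reduction to integer polynomials and injectivity of the substitution
-/

set_option autoImplicit false

namespace Pool.Agent.H626R2

open MvPolynomial Pool.Agent.H531R2

variable {k n v : ℕ}

theorem algInd_scale {r : ℕ} {B : Type} [CommRing B] [Algebra ℚ B] (T : Fin r → B)
    (q : Fin r → ℚ) (hq : ∀ b, q b ≠ 0) (h : AlgebraicIndependent ℚ T) :
    AlgebraicIndependent ℚ (fun b => algebraMap ℚ B (q b) * T b) := by
  classical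
  rw [algebraicIndependent_iff] at h ⊢
  intro P hP
  have h1 : aeval T (aeval (fun b => C (q b) * X b : Fin r → MvPolynomial (Fin r) ℚ) P) = 0 := by
    rw [← hP, ← AlgHom.comp_apply]
    congr 1
    apply algHom_ext
    intro b
    rw [AlgHom.comp_apply, aeval_X, aeval_X, map_mul, aeval_X, algHom_C]
  have h2 : AlgebraicIndependent ℚ (fun b => C (q b) * X b : Fin r → MvPolynomial (Fin r) ℚ) := by
    apply algInd_of_det (fun b => pderiv b)
    have h3 : (Matrix.of fun a b => pderiv b (C (q a) * X a : MvPolynomial (Fin r) ℚ))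
        = Matrix.diagonal (fun a => C (q a)) := by
      ext1 a b
      rw [Matrix.of_apply, pderiv_C_mul]
      by_cases hab : a = b
      · subst hab
        rw [pderiv_X_self, mul_one, Matrix.diagonal_apply_eq]
      · rw [pderiv_X_of_ne hab, mul_zero, Matrix.diagonal_apply_ne _ hab]
    rw [h3, Matrix.det_diagonal, Finset.prod_ne_zero_iff]
    intro a _
    rw [Ne, C_eq_zero]
    exact hq a
  exact (algebraicIndependent_iff.1 h2) P (h _ h1)

theorem iQ_aff (S : Finset ℕ) (a0 : ℤ) (a : ℕ → ℤ) :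
    iQ (aff S a0 a) = aff S (a0 : ℚ) (fun i => (a i : ℚ)) := by
  rw [aff, aff, map_add, iQ_C, map_sum]
  congr 1
  refine Finset.sum_congr rfl fun i _ => ?_
  rw [map_mul, iQ_C, iQ, map_X]

/-- Integer form of a nonzero polynomial with `FewTr`. -/
theorem FewTr.reduce {F : MvPolynomial ℕ ℚ} (hF0 : F ≠ 0) (hF : FewTr k n F) :
    ∃ (S : Finset ℕ) (a0 : Fin n → ℤ) (a : Fin n → ℕ → ℤ) (e : Fin n → Fin n → ℕ)
      (c : Fin n → ℤ) (K κ : ℤ) (F' : MvPolynomial ℕ ℤ),
      S.card ≤ n ∧ (∀ j, (a0 j).natAbs ≤ 2 ^ n) ∧ (∀ j i, (a j i).natAbs ≤ 2 ^ n) ∧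
      (∀ j, Prim (aff S (a0 j) (a j))) ∧ (∀ i j, e i j ≤ 2 ^ n) ∧
      (∀ u : Fin (k + 1) → Fin n, ¬ AlgebraicIndependent ℚ
        (fun b => iQ (∏ j, aff S (a0 j) (a j) ^ e (u b) j))) ∧
      K ≠ 0 ∧ κ ≠ 0 ∧ Prim F' ∧ C κ * F' = ∑ i, C (c i) * ∏ j, aff S (a0 j) (a j) ^ e i j ∧
      C (K : ℚ) * F = iQ (C κ * F') := by
  classical
  obtain ⟨S, b0, b, e, c, hS, hb0, hb, he, htr, rfl⟩ := hF
  have hpp := fun j => aff_prim_part S (b0 j) (b j) (B := 2 ^ n) Nat.one_le_two_pow (hb0 j) (hb j)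
  choose κ a0 a hκ hprim ha0 ha using hpp
  have hex : ∀ i, ∃ z : ℤ, (z : ℚ) = ((∏ i, (c i).den : ℕ) : ℚ) * c i := by
    intro i
    refine ⟨((∏ i' ∈ Finset.univ.erase i, (c i').den : ℕ) : ℤ) * (c i).num, ?_⟩
    rw [← Finset.mul_prod_erase Finset.univ (fun i => (c i).den) (Finset.mem_univ i)]
    push_cast
    have h1 : ((c i).den : ℚ) * c i = (c i).num := by
      rw [mul_comm]; exact Rat.mul_den_eq_num (c i)
    rw [← h1]
    ring
  choose z hz using hex
  set K : ℕ := ∏ i, (c i).den with hK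
  have hK0 : (K : ℤ) ≠ 0 := by
    have : K ≠ 0 := Finset.prod_ne_zero_iff.2 fun i _ => (c i).den_nz
    exact_mod_cast this
  let Kc : Fin n → ℤ := fun i => ∏ j, κ j ^ e i j
  let e' : Fin n → Fin n → ℕ := fun i j => if Kc i = 0 then 0 else e i j
  have hprod : ∀ i, ∏ j, aff S (b0 j) (b j) ^ e i j
      = C (Kc i) * ∏ j, aff S (a0 j) (a j) ^ e i j := by
    intro i
    simp only [Kc]
    rw [map_prod, ← Finset.prod_mul_distrib]
    refine Finset.prod_congr rfl fun j _ => ?_
    rw [hκ j, mul_pow, map_pow]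
  have hterm : ∀ i, (∏ j, aff S (b0 j : ℚ) (fun l => (b j l : ℚ)) ^ e i j : MvPolynomial ℕ ℚ)
      = iQ (∏ j, aff S (b0 j) (b j) ^ e i j) := by
    intro i
    rw [map_prod]
    refine Finset.prod_congr rfl fun j _ => ?_
    rw [map_pow, iQ_aff]
  set F0 : MvPolynomial ℕ ℤ := ∑ i, C (z i * Kc i) * ∏ j, aff S (a0 j) (a j) ^ e' i j with hF0def
  have hrel : C ((K : ℤ) : ℚ) * (∑ i, C (c i) * ∏ j,
      aff S (b0 j : ℚ) (fun l => (b j l : ℚ)) ^ e i j) = iQ F0 := by
    rw [hF0def, map_sum, Finset.mul_sum]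
    refine Finset.sum_congr rfl fun i _ => ?_
    rw [hterm, hprod, ← mul_assoc, ← C_mul]
    have h1 : (((K : ℤ) : ℚ)) * c i = (z i : ℚ) := by rw [hz i]; push_cast; rfl
    rw [h1, map_mul, ← mul_assoc, iQ_C, ← C_mul]
    by_cases h0 : Kc i = 0
    · rw [h0]
      simp
    · rw [map_mul iQ (C (z i * Kc i)), iQ_C]
      have h2 : ∏ j, aff S (a0 j) (a j) ^ e' i j = ∏ j, aff S (a0 j) (a j) ^ e i j := by
        refine Finset.prod_congr rfl fun j _ => ?_
        simp only [e', if_neg h0]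
      rw [h2]
      push_cast
      rw [C_mul]
  have hF00 : F0 ≠ 0 := by
    intro h0
    rw [h0, map_zero] at hrel
    rcases mul_eq_zero.1 hrel with h | h
    · rw [C_eq_zero] at h
      exact hK0 (by exact_mod_cast h)
    · exact hF0 h
  obtain ⟨κ', F', hκ', hkF, hF'⟩ := exists_prim_part hF00
  refine ⟨S, a0, a, e', fun i => z i * Kc i, K, κ', F', hS, ha0, ha, hprim, ?_, ?_, hK0, hκ', hF',
    ?_, ?_⟩
  · intro i j
    simp only [e']
    split_ifs
    · exact Nat.zero_le _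
    · exact he i j
  · intro u hu
    apply htr u
    have hne : ∀ b, Kc (u b) ≠ 0 := by
      intro b h0
      have h1 : iQ (∏ j, aff S (a0 j) (a j) ^ e' (u b) j) = 1 := by
        rw [Finset.prod_eq_one, map_one]
        intro j _
        simp only [e', if_pos h0, pow_zero]
      have h2 := (algebraicIndependent_iff.1 hu) (X b - 1) (by
        rw [map_sub, aeval_X, map_one, h1, sub_self])
      have h3 := congrArg (eval (fun _ => (0 : ℚ))) h2
      simp at h3
    have h4 := algInd_scale _ (fun b => (Kc (u b) : ℚ)) (fun b => by exact_mod_cast hne b) hu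
    convert! h4 using 1
    funext b
    rw [hterm, hprod, map_mul, iQ_C]
    have h2 : ∏ j, aff S (a0 j) (a j) ^ e' (u b) j = ∏ j, aff S (a0 j) (a j) ^ e (u b) j := by
      refine Finset.prod_congr rfl fun j _ => ?_
      simp only [e', if_neg (hne b)]
    rw [h2]
    rfl
  · rw [← hkF]
  · rw [hrel, hkF]

theorem rename_af (S : Finset ℕ) (a0 : ℚ) (a : ℕ → ℚ) :
    rename Subtype.val (af a0 (fun i : S => a i)) = aff S a0 a := by
  rw [af, aff, map_add, rename_C, map_sum]
  congr 1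
  rw [← Finset.sum_coe_sort S (fun i => (C (a i) * X i : MvPolynomial ℕ ℚ))]
  refine Finset.sum_congr rfl fun i _ => ?_
  rw [map_mul, rename_C, rename_X]

theorem Thq_eq_map (S : Finset ℕ) (idx : ℕ → ℕ) (a0 : ℤ) (a : ℕ → ℤ) :
    Thq v (fun i : S => idx i) (af (a0 : ℚ) (fun i : S => (a i : ℚ)))
      = map (Int.castRingHom ℚ) (Th v idx (aff S a0 a)) := by
  rw [Thq_af, Th_aff, map_add, map_C, map_sum]
  congr 1
  refine Finset.sum_congr rfl fun t _ => ?_
  rw [map_mul, map_X, ev, map_sum,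
    ← Finset.sum_coe_sort S (fun i => map (Int.castRingHom ℚ)
      (C (a i) * X (Fin.natAdd v t) ^ idx i : MvPolynomial (Fin (v + v)) ℤ))]
  congr 1
  refine Finset.sum_congr rfl fun i _ => ?_
  rw [map_mul, map_C, map_pow, map_X]
  rfl

/-- The substitution is injective on the span of the power products. -/
theorem Th_inj (S : Finset ℕ) (a0 : Fin n → ℤ) (a : Fin n → ℕ → ℤ) (e : Fin n → Fin n → ℕ)
    (hne : ∀ j, aff S (a0 j) (a j) ≠ 0)
    (htr : ∀ u : Fin (k + 1) → Fin n, ¬ AlgebraicIndependent ℚ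
      (fun b => iQ (∏ j, aff S (a0 j) (a j) ^ e (u b) j)))
    (idx : ℕ → ℕ) (hidx : Set.InjOn idx S) (δ : Fin n → ℤ)
    (h : Th (k + 1) idx (∑ i, C (δ i) * ∏ j, aff S (a0 j) (a j) ^ e i j) = 0) :
    ∑ i, C (δ i) * ∏ j, aff S (a0 j) (a j) ^ e i j = 0 := by
  classical
  let T : Fin n → MvPolynomial S ℚ := fun i =>
    ∏ j, af (a0 j : ℚ) (fun l : S => (a j l : ℚ)) ^ e i j
  have hTr : ∀ i, rename Subtype.val (T i) = iQ (∏ j, aff S (a0 j) (a j) ^ e i j) := by
    intro i
    simp only [T]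
    rw [map_prod, map_prod]
    refine Finset.prod_congr rfl fun j _ => ?_
    rw [map_pow, map_pow, rename_af S (a0 j : ℚ) (fun l => (a j l : ℚ)), iQ_aff]
  have hTm : ∀ i, Thq (k + 1) (fun l : S => idx l) (T i)
      = map (Int.castRingHom ℚ) (Th (k + 1) idx (∏ j, aff S (a0 j) (a j) ^ e i j)) := by
    intro i
    simp only [T]
    rw [map_prod, map_prod, map_prod]
    refine Finset.prod_congr rfl fun j _ => ?_
    rw [map_pow, map_pow, map_pow, Thq_eq_map]
  have hidx' : Function.Injective (fun l : S => idx l) := fun x y hxy =>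
    Subtype.ext (hidx x.2 y.2 hxy)
  have hne' : ∀ j, (af (a0 j : ℚ) (fun l : S => (a j l : ℚ)) : MvPolynomial S ℚ) ≠ 0 := by
    intro j h0
    apply hne j
    have h1 := rename_af S (a0 j : ℚ) (fun l => (a j l : ℚ))
    rw [h0, map_zero, ← iQ_aff] at h1
    exact iQ_inj (by rw [← h1, map_zero])
  have hrinj : Function.Injective (rename (Subtype.val : S → ℕ) :
      MvPolynomial S ℚ →ₐ[ℚ] MvPolynomial ℕ ℚ) := rename_injective _ Subtype.val_injective
  have hk : ∀ u : Fin (k + 1) → Fin n, ¬ AlgebraicIndependent ℚ (fun b => T (u b)) := by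
    intro u hu
    apply htr u
    have h1 := hu.map' hrinj
    convert! h1 using 1
    funext b
    exact (hTr (u b)).symm
  have h0 : (∑ i, C (δ i : ℚ) * T i : MvPolynomial S ℚ) = 0 := by
    apply faithful T (Thq (k + 1) (fun l : S => idx l)) hk
    · intro r hr u hu
      exact transfer hidx' (by omega) (fun b => e (u b)) (fun j => (a0 j : ℚ))
        (fun j (l : S) => (a j l : ℚ)) hne' hu
    · refine Subalgebra.sum_mem _ fun i _ => Subalgebra.mul_mem _ ?_
        (Algebra.subset_adjoin ⟨i, rfl⟩)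
      rw [← algebraMap_eq]
      exact Subalgebra.algebraMap_mem _ _
    · rw [map_sum]
      have h2 : ∀ i, Thq (k + 1) (fun l : S => idx l) (C (δ i : ℚ) * T i)
          = map (Int.castRingHom ℚ) (Th (k + 1) idx (C (δ i) *
            ∏ j, aff S (a0 j) (a j) ^ e i j)) := by
        intro i
        rw [map_mul, hTm, algHom_C, algebraMap_eq, map_mul (Th (k + 1) idx), algHom_C,
          algebraMap_eq, map_mul, map_C]
        rfl
      rw [Finset.sum_congr rfl fun i _ => h2 i, ← map_sum, ← map_sum, h, map_zero]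
  apply iQ_inj
  rw [map_zero, map_sum]
  have h3 := congrArg (rename (Subtype.val : S → ℕ)) h0
  rw [map_zero, map_sum] at h3
  rw [← h3]
  refine Finset.sum_congr rfl fun i _ => ?_
  rw [map_mul, map_mul, hTr, rename_C, iQ_C]

end Pool.Agent.H626R2
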