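import Mathlib
import Pool.Agent.H531R2.Main

/-!
# The p-adic estimate for one rational combination of power products, saturated form

This is a variant of `Pool.Agent.H531R2.core` (by helper531).
-/

set_option autoImplicit false

namespace Pool.Agent.H626R2

open MvPolynomial Pool.Agent.H531R2

variable {v n h : ℕ}

/-- The main estimate of `Pool.Agent.H531R2.core`, for polynomials `F` which may be divisible by
`p`, provided that relations `l * F = ∑ γ_i M_i` are saturated at `p`. -/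
theorem core2 {p : ℕ} (hp : p.Prime) (hnh : n ≤ h) (s : Fin v → ℤ)
    (g : Fin n → MvPolynomial (Fin v) ℤ) (e : Fin n → Fin n → ℕ) (c : Fin n → ℤ)
    (hg : ∀ j, Prim (g j) ∧ (g j).totalDegree ≤ h ∧ nrm (g j) ≤ 2 ^ h)
    (he : ∀ i j, e i j ≤ 2 ^ h) (F : MvPolynomial (Fin v) ℤ) (hF0 : F ≠ 0)
    (hsat : ∀ (l : ℤ) (γ : Fin n → ℤ) (β : ℕ), C l * F = ∑ i, C (γ i) * ∏ j, g j ^ e i j →
      (∀ i, (p : ℤ) ^ β ∣ γ i) → (p : ℤ) ^ β ∣ l)
    (κ : ℤ) (hκ : κ ≠ 0) (hF : C κ * F = ∑ i, C (c i) * ∏ j, g j ^ e i j)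
    (hs : ∀ j, ¬ ((p : ℤ) ∣ eval s (g j))) :
    ¬ ((C (p : ℤ)) ^ (E1 v h + 1) ∣ Sig p s F) := by
  classical
  intro hdvd
  set M : Fin n → MvPolynomial (Fin v) ℤ := fun i => ∏ j, g j ^ e i j with hMdef
  set G := ∏ j, g j with hGdef
  set N := 2 ^ (3 * h + 1) with hN
  have hN1 : 1 ≤ N := Nat.one_le_two_pow
  set w := gw v N with hw
  set L : Fin n → MvPolynomial (Fin v) ℤ := fun i => Ld w g (e i) with hLdef
  have hML : ∀ i, Dl w G (M i) = L i * M i := fun i => Dl_powerProd w g (e i)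
  have hM : ∀ i, Prim (M i) := fun i => Prim.prod _ _ fun j _ => (hg j).1.pow _
  have hh : h < 2 ^ h := Nat.lt_two_pow_self
  have hMd : ∀ i, (M i).totalDegree < N := by
    intro i
    have h1 := totalDegree_prod_le Finset.univ (fun j => g j ^ e i j) (2 ^ h * h) (fun j _ => by
      refine (totalDegree_pow _ _).trans ?_
      exact Nat.mul_le_mul (he i j) (hg j).2.1)
    rw [Finset.card_univ, Fintype.card_fin] at h1
    refine lt_of_le_of_lt h1 ?_
    rw [hN]
    calc n * (2 ^ h * h) ≤ 2 ^ h * (2 ^ h * 2 ^ h) := by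
          have := hnh.trans hh.le
          gcongr
      _ = 2 ^ (3 * h) := by rw [← pow_add, ← pow_add]; congr 1; ring
      _ < 2 ^ (3 * h + 1) := Nat.pow_lt_pow_right (by norm_num) (by omega)
  have hG : Prim G := Prim.prod _ _ fun j _ => (hg j).1
  have hGd : G.totalDegree ≤ h ^ 2 := by
    have h1 := totalDegree_prod_le Finset.univ g h (fun j _ => (hg j).2.1)
    rw [Finset.card_univ, Fintype.card_fin] at h1
    rw [sq]; exact h1.trans (Nat.mul_le_mul_right _ hnh)
  have hGN : G.totalDegree < N := by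
    refine lt_of_le_of_lt hGd ?_
    rw [hN]
    calc h ^ 2 = h * h := sq h
      _ ≤ 2 ^ h * 2 ^ h := by gcongr
      _ = 2 ^ (2 * h) := by rw [← pow_add]; congr 1; ring
      _ < 2 ^ (3 * h + 1) := Nat.pow_lt_pow_right (by norm_num) (by omega)
  have hLd : ∀ i, (L i).totalDegree ≤ h ^ 2 := by
    intro i
    have h1 := totalDegree_Ld w g (e i) h (fun j => (hg j).2.1)
    rw [sq]; exact h1.trans (Nat.mul_le_mul_right _ hnh)
  obtain ⟨r, u, hr, hind, hspan⟩ := exists_basis M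
  have hrh : r ≤ h := hr.trans hnh
  -- the relation for F
  have hFs : Spn (fun b => M (u b)) (∑ i, C (c i) * M i) :=
    Spn.sum _ _ fun i _ => (hspan i).C_mul _
  obtain ⟨La, γ, hLa, hγ⟩ := hFs
  set l0 := La * κ with hl0
  have hl00 : l0 ≠ 0 := mul_ne_zero hLa hκ
  have hrel : C l0 * F = ∑ b, C (γ b) * M (u b) := by
    rw [← hγ, hl0, C_mul, mul_assoc, hF]
  have hCl0 : (C l0 : MvPolynomial (Fin v) ℤ) ≠ 0 := by rw [Ne, C_eq_zero]; exact hl00
  have hb1 : ∃ b, γ b ≠ 0 := by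
    by_contra hcon
    push Not at hcon
    have : C l0 * F = 0 := by
      rw [hrel]
      exact Finset.sum_eq_zero fun b _ => by rw [hcon b, C_0, zero_mul]
    rcases mul_eq_zero.1 this with h | h
    · exact hCl0 h
    · exact hF0 h
  obtain ⟨b1, hb1⟩ := hb1
  have hpC : Prime (C (p : ℤ) : MvPolynomial (Fin v) ℤ) := prime_C hp
  -- the minimal order of the γ's
  let Q : ℕ → Prop := fun k => ∀ b, (p : ℤ) ^ k ∣ γ b
  have hQ0 : Q 0 := fun b => by simp
  have hspec : Q (Nat.findGreatest Q (γ b1).natAbs) := Nat.findGreatest_spec (Nat.zero_le _) hQ0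
  set β := Nat.findGreatest Q (γ b1).natAbs with hβ
  have hnQ : ¬ Q (β + 1) := by
    intro h2
    by_cases hk1 : β + 1 ≤ (γ b1).natAbs
    · exact Nat.findGreatest_is_greatest (P := Q) (n := (γ b1).natAbs) (k := β + 1) (by omega)
        hk1 h2
    · have h3 := Int.natAbs_dvd_natAbs.2 (h2 b1)
      have h4 := Nat.le_of_dvd (Int.natAbs_pos.2 hb1) h3
      rw [Int.natAbs_pow, Int.natAbs_natCast] at h4
      have h5 : β + 1 < p ^ (β + 1) := Nat.lt_pow_self hp.one_lt
      omega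
  simp only [Q] at hnQ
  push Not at hnQ
  obtain ⟨b, hb⟩ := hnQ
  obtain ⟨l', hl'⟩ := hspec b
  have hl'p : ¬ ((p : ℤ) ∣ l') := by
    rintro ⟨z, rfl⟩
    exact hb ⟨z, by rw [hl']; ring⟩
  obtain ⟨μ, l0', hl0', hl0p⟩ := exists_eq_pow_mul hp hl00
  have hβμ : β ≤ μ := by
    have h1 : (p : ℤ) ^ β ∣ l0 := by
      refine hsat l0 (fun i => ∑ b', if u b' = i then γ b' else 0) β ?_ ?_
      · rw [hrel]
        simp only [map_sum, Finset.sum_mul]
        rw [Finset.sum_comm]
        refine Finset.sum_congr rfl fun b' _ => ?_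
        rw [Finset.sum_eq_single (u b')]
        · rw [if_pos rfl]
        · intro i _ hi
          rw [if_neg (Ne.symm hi), C_0, zero_mul]
        · intro h
          exact absurd (Finset.mem_univ _) h
      · intro i
        refine Finset.dvd_sum fun b' _ => ?_
        split_ifs
        · exact hspec b'
        · exact dvd_zero _
    by_contra hcon
    push Not at hcon
    have h2 : (p : ℤ) ^ (μ + 1) ∣ (p : ℤ) ^ μ * l0' := by
      rw [← hl0']
      exact (pow_dvd_pow _ hcon).trans h1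
    rw [pow_succ] at h2
    have hp0 : (p : ℤ) ^ μ ≠ 0 := pow_ne_zero _ (by exact_mod_cast hp.ne_zero)
    exact hl0p ((mul_dvd_mul_iff_left hp0).1 h2)
  have hdet := det_ne_zero hG.ne_zero hGN (fun b => M (u b)) (fun b => hMd _) hind
  -- bounds
  have hWle : ∀ a, w a ≤ (2 ^ (3 * h + 1)) ^ v := fun a => gw_le v N hN1 a
  have h2h : 1 ≤ 2 ^ h := Nat.one_le_two_pow
  have hGn : nrm G ≤ (2 ^ h) ^ h := by
    have h1 := nrm_prod_le Finset.univ g (2 ^ h) (fun j _ => (hg j).2.2)
    rw [Finset.card_univ, Fintype.card_fin] at h1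
    exact h1.trans (Nat.pow_le_pow_right h2h hnh)
  have hLn : ∀ i, nrm (L i) ≤ h * (2 ^ h * ((2 ^ h) ^ h * ((2 ^ (3 * h + 1)) ^ v * h * 2 ^ h))) := by
    intro i
    refine (nrm_Ld w _ hWle g (e i) h (2 ^ h) (2 ^ h) (fun j => (hg j).2.1)
      (fun j => (hg j).2.2) h2h (he i)).trans ?_
    have h1 : (2 ^ h) ^ n ≤ (2 ^ h) ^ h := Nat.pow_le_pow_right h2h hnh
    gcongr
  have hRn : ∀ i (l : ℕ), l ≤ h → nrm (Rs w G (L i) l) ≤ (2 ^ Aex v h) ^ h := by
    intro i l hl
    refine (nrm_Rs w _ hWle hGd (hLd i) hGn (hLn i) (T_bound v h) l hl).trans ?_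
    exact Nat.pow_le_pow_right Nat.one_le_two_pow hl
  have hRd : ∀ i (l : ℕ), l ≤ h → (Rs w G (L i) l).totalDegree ≤ h ^ 3 := by
    intro i l hl
    refine (totalDegree_Rs w hGd (hLd i) l).trans ?_
    calc l * h ^ 2 ≤ h * h ^ 2 := Nat.mul_le_mul_right _ hl
      _ = h ^ 3 := by ring
  set Du := Sml w G (fun b' => L (u b')) b (L (u b)) with hDu
  have hSn : nrm Du ≤ 2 ^ BGam v h := by
    refine (nrm_det_le _ ((2 ^ Aex v h) ^ h) ?_).trans ?_
    · intro i' j'
      by_cases hi : i' = b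
      · subst hi
        rw [Matrix.updateRow_self]
        exact hRn _ _ (by have := j'.2; omega)
      · rw [Matrix.updateRow_ne hi, Matrix.of_apply]
        exact hRn _ _ (by have := j'.2; omega)
    · have h1 : r.factorial ≤ 2 ^ (h ^ 2) := by
        calc r.factorial ≤ h.factorial := Nat.factorial_le hrh
          _ ≤ h ^ h := Nat.factorial_le_pow h
          _ ≤ (2 ^ h) ^ h := Nat.pow_le_pow_left hh.le h
          _ = 2 ^ (h ^ 2) := by rw [← pow_mul, sq]
      have h2 : ((2 ^ Aex v h) ^ h) ^ r ≤ 2 ^ (Aex v h * h ^ 2) := by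
        rw [← pow_mul, ← pow_mul]
        apply Nat.pow_le_pow_right (by norm_num)
        calc Aex v h * (h * r) ≤ Aex v h * (h * h) :=
              Nat.mul_le_mul_left _ (Nat.mul_le_mul_left _ hrh)
          _ = Aex v h * h ^ 2 := by ring
      rw [BGam, pow_add]
      exact Nat.mul_le_mul h1 h2
  have hSd : Du.totalDegree ≤ h ^ 4 := by
    refine (totalDegree_det_le _ (h ^ 3) ?_).trans ?_
    · intro i' j'
      by_cases hi : i' = b
      · subst hi
        rw [Matrix.updateRow_self]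
        exact hRd _ _ (by have := j'.2; omega)
      · rw [Matrix.updateRow_ne hi, Matrix.of_apply]
        exact hRd _ _ (by have := j'.2; omega)
    · calc r * h ^ 3 ≤ h * h ^ 3 := Nat.mul_le_mul_right _ hrh
        _ = h ^ 4 := by ring
  -- the determinant
  have hPu : Phi w G (fun b' => M (u b')) b (M (u b))
      = M (u b) * (∏ b' ∈ Finset.univ.erase b, M (u b')) * Du :=
    Phi_eq w G (fun b' => M (u b')) (fun b' => L (u b')) (fun b' => hML _) b (hML _)
  have hPu0 : Phi w G (fun b' => M (u b')) b (M (u b)) ≠ 0 := by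
    have := Phi_self w G (fun b' => M (u b')) b
    rw [this]; exact hdet
  have hDu0 : Du ≠ 0 := by
    intro h0
    rw [hPu, h0, mul_zero] at hPu0
    exact hPu0 rfl
  obtain ⟨k, D', hk, hkD, hD'⟩ := exists_prim_part hDu0
  have hkle : k.natAbs ≤ 2 ^ BGam v h :=
    (natAbs_le_nrm hDu0 ⟨D', hkD⟩).trans hSn
  have hD'd : D'.totalDegree ≤ h ^ 4 := by
    refine (natDegree_C_mul hk D').trans ?_
    rw [← hkD]; exact hSd
  have hPhi : C l0 * Phi w G (fun b' => M (u b')) b F
      = C (γ b) * ((∏ b', M (u b')) * (C k * D')) := by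
    have h1 := Phi_rel w G (fun b' => M (u b')) b hrel
    rw [h1]
    change C (γ b) * Phi w G (fun b' => M (u b')) b (M (u b)) = _
    rw [hPu, hkD, ← Finset.mul_prod_erase Finset.univ (fun b' => M (u b'))
      (Finset.mem_univ b)]
  -- the order of the determinant
  have hdvd2 : (C (p : ℤ)) ^ (BGam v h + (0 + h ^ 4) + 1) ∣
      Sig p s (Phi w G (fun b => M (u b)) b F) := by
    apply pow_dvd_Sig_Phi hp
    refine (pow_dvd_pow _ ?_).trans hdvd
    rw [E1]
    omega
  have hSC : ∀ z : ℤ, Sig (p : ℤ) s (C z) = C z := by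
    intro z
    rw [Sig, algHom_C, algebraMap_eq]
  have h1 : (C (p : ℤ)) ^ (β + (BGam v h + (0 + h ^ 4) + 1)) ∣
      (C (p : ℤ)) ^ β * (C (l' * k) * (Sig p s (∏ b', M (u b')) * Sig p s D')) := by
    have h2 : Sig p s (C l0 * Phi w G (fun b' => M (u b')) b F)
        = (C (p : ℤ)) ^ β * (C (l' * k) * (Sig p s (∏ b', M (u b')) * Sig p s D')) := by
      have h3 : Sig (p : ℤ) s (C k * D') = C k * Sig p s D' := by rw [map_mul, hSC]
      rw [hPhi, map_mul, hSC, map_mul, h3, hl', C_mul, C_mul, C_pow]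
      ring
    rw [← h2, map_mul, hSC, hl0', C_mul, C_pow, pow_add]
    refine mul_dvd_mul ?_ hdvd2
    exact (pow_dvd_pow _ hβμ).mul_right _
  rw [pow_add] at h1
  have h2 := (mul_dvd_mul_iff_left (pow_ne_zero β hpC.ne_zero)).1 h1
  refine not_pow_dvd_mul hp (a := BGam v h) (b := 0 + h ^ 4) ?_ ?_ h2
  · intro h3
    rw [← C_pow] at h3
    have h4 := C_dvd_C h3
    have hcop : IsCoprime ((p : ℤ) ^ (BGam v h + 1)) l' := by
      apply IsCoprime.pow_left
      exact ((Nat.prime_iff_prime_int.1 hp).coprime_iff_not_dvd).2 hl'p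
    have h5 : (p : ℤ) ^ (BGam v h + 1) ∣ k := hcop.dvd_of_dvd_mul_left h4
    have h6 := Int.natAbs_dvd_natAbs.2 h5
    have h7 := Nat.le_of_dvd (Int.natAbs_pos.2 hk) h6
    rw [Int.natAbs_pow, Int.natAbs_natCast] at h7
    have h8 : 2 ^ (BGam v h + 1) ≤ p ^ (BGam v h + 1) := Nat.pow_le_pow_left hp.two_le _
    have h9 : 2 ^ BGam v h < 2 ^ (BGam v h + 1) := Nat.pow_lt_pow_right (by norm_num) (by omega)
    omega
  · apply not_pow_dvd_mul hp
    · rw [zero_add, pow_one]
      apply not_dvd_Sig_of_eval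
      have hpi : Prime (p : ℤ) := Nat.prime_iff_prime_int.1 hp
      rw [map_prod]
      intro h
      obtain ⟨b', _, hb'⟩ := (hpi.dvd_finsetProd_iff _).1 h
      rw [hMdef, map_prod] at hb'
      obtain ⟨j, _, hj⟩ := (hpi.dvd_finsetProd_iff _).1 hb'
      rw [map_pow] at hj
      exact hs j (hpi.dvd_of_dvd_pow hj)
    · exact not_pow_dvd_Sig hp s (hD' p hp) hD'd


end Pool.Agent.H626R2
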