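import Mathlib
import Pool.Agent.Helper67.BN.Use
import Pool.Agent.Helper67.BN.Force

/-!
# A low 1-generic sequence

`A : ℕ → ℕ` is the union of a sequence `Sg k` of finite strings, where `Sg (k+1)` is an extension
of `Sg k` in the `k`-th c.e. set of strings, if there is one. The sequence `Sg k` is limit
computable, and so is the set of the numbers `k` for which there was such an extension.
-/

set_option autoImplicit false

namespace Pool.Agent.H626R2.Low

open Pool.Agent.Helper67.BN (seg seg_prefix use_principle ci_comp ci_pair ci_comp₂ ci_compC ci_fst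
  ci_snd ci_nat_rec computable_of_ci ball ball_iff nsum nsum_eq ball_comp nsum_comp cand cor cnot
  ceqN clt cle cadd csub cmul cdiv cmod cconst ccond cpw cpair cunl cunr ind cind ind_true ind_false
  nsum_ind bex bex_iff bex_comp ceq clen cgetD cappend1 ctake)
open Nat.Partrec (Code)
open Nat.Partrec.Code (evaln eval)

/-- the list coded by a number -/
def dl (e : ℕ) : List ℕ := (Encodable.decode (α := List ℕ) e).getD []

theorem dl_encode (τ : List ℕ) : dl (Encodable.encode τ) = τ := by
  unfold dl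
  rw [Encodable.encodek]
  rfl

theorem cdl {α : Type} [Primcodable α] {O : Set (ℕ →. ℕ)} {f : α → ℕ} (hf : ComputableIn O f) :
    ComputableIn O fun a => dl (f a) := by
  have h : Computable dl := by
    have h1 : Primrec dl := Primrec.option_getD.comp (Primrec.decode (α := List ℕ))
      (Primrec.const [])
    exact h1.to_comp
  exact ci_compC h hf

/-- `e` is the code of an extension of `σ` on which the `k`-th code halts within `s` steps -/
def hit (s k : ℕ) (σ : List ℕ) (e : ℕ) : Bool :=
  (evaln s (Denumerable.ofNat Code k) e).isSome &&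
    (decide ((dl e).take σ.length = σ) && decide (Encodable.encode (dl e) = e))

def Hit (k : ℕ) (σ : List ℕ) (e : ℕ) : Prop :=
  (eval (Denumerable.ofNat Code k) e).Dom ∧ σ <+: dl e ∧ Encodable.encode (dl e) = e

theorem hit_iff (s k : ℕ) (σ : List ℕ) (e : ℕ) : hit s k σ e = true ↔
    (evaln s (Denumerable.ofNat Code k) e).isSome = true ∧ σ <+: dl e ∧
      Encodable.encode (dl e) = e := by
  unfold hit
  rw [Bool.and_eq_true, Bool.and_eq_true, decide_eq_true_eq, decide_eq_true_eq,
    List.prefix_iff_eq_take, eq_comm (a := σ)]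

theorem Hit.of_hit {s k : ℕ} {σ : List ℕ} {e : ℕ} (h : hit s k σ e = true) : Hit k σ e := by
  rw [hit_iff] at h
  refine ⟨?_, h.2⟩
  obtain ⟨v, hv⟩ := Option.isSome_iff_exists.1 h.1
  exact Part.dom_iff_mem.2 ⟨v, Nat.Partrec.Code.evaln_sound (Option.mem_def.2 hv)⟩

theorem Hit.eventually {k : ℕ} {σ : List ℕ} {e : ℕ} (h : Hit k σ e) :
    ∃ s₀, ∀ s, s₀ ≤ s → hit s k σ e = true := by
  obtain ⟨v, hv⟩ := Part.dom_iff_mem.1 h.1
  obtain ⟨s₀, hs⟩ := Nat.Partrec.Code.evaln_complete.1 hv
  refine ⟨s₀, fun s hs' => ?_⟩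
  rw [hit_iff]
  refine ⟨?_, h.2⟩
  have h1 := Nat.Partrec.Code.evaln_mono hs' hs
  rw [Option.mem_def.1 h1]
  rfl

/-- some extension has been found below `s` -/
def found (s k : ℕ) (σ : List ℕ) : Bool := bex s fun e => hit s k σ e

/-- the least code of an extension -/
def least (s k : ℕ) (σ : List ℕ) : ℕ :=
  nsum s fun e => ind (ball (e + 1) fun e' => !(hit s k σ e'))

/-- the next string -/
def ext (s k : ℕ) (σ : List ℕ) : List ℕ :=
  (bif found s k σ then dl (least s k σ) else σ) ++ [0]

open Classical in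
/-- the true next string -/
noncomputable def Ext (k : ℕ) (σ : List ℕ) : List ℕ :=
  (if h : ∃ e, Hit k σ e then dl (Nat.find h) else σ) ++ [0]

theorem ext_conv (k : ℕ) (σ : List ℕ) : ∃ s₀, ∀ s, s₀ ≤ s →
    ext s k σ = Ext k σ ∧ (found s k σ = true ↔ ∃ e, Hit k σ e) := by
  classical
  by_cases h : ∃ e, Hit k σ e
  · obtain ⟨e, he⟩ : ∃ e, e = Nat.find h := ⟨_, rfl⟩
    have h1 : Hit k σ e := by rw [he]; exact Nat.find_spec h
    have h2 : ∀ e' < e, ¬ Hit k σ e' := by
      intro e' he'
      rw [he] at he'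
      exact Nat.find_min h he'
    obtain ⟨s₀, hs₀⟩ := h1.eventually
    refine ⟨max s₀ (e + 1), fun s hs => ?_⟩
    have h3 := hs₀ s (le_trans (le_max_left _ _) hs)
    have h4 : e < s := lt_of_lt_of_le (Nat.lt_succ_self e) (le_trans (le_max_right _ _) hs)
    have h5 : found s k σ = true := by
      unfold found
      rw [bex_iff]
      exact ⟨e, h4, h3⟩
    have h6 : least s k σ = e := by
      unfold least
      rw [nsum_ind]
      have h7 : (Finset.range s).filter
          (fun l => (ball (l + 1) fun e' => !(hit s k σ e')) = true) = Finset.range e := by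
        ext l
        rw [Finset.mem_filter, Finset.mem_range, Finset.mem_range, ball_iff]
        constructor
        · rintro ⟨-, h8⟩
          by_contra hc
          have := h8 e (by omega)
          rw [h3] at this
          exact absurd this (by decide)
        · intro h8
          refine ⟨by omega, fun e' he' => ?_⟩
          have h9 : ¬ hit s k σ e' = true := fun h => h2 e' (by omega) (Hit.of_hit h)
          simpa using h9
      rw [h7, Finset.card_range]
    refine ⟨?_, ⟨fun _ => h, fun _ => h5⟩⟩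
    unfold ext Ext
    rw [dif_pos h, h5, h6, he]
    rfl
  · refine ⟨0, fun s _ => ?_⟩
    have h5 : found s k σ = false := by
      rw [← Bool.not_eq_true]
      unfold found
      rw [bex_iff]
      rintro ⟨e, -, he⟩
      exact h ⟨e, Hit.of_hit he⟩
    refine ⟨?_, ?_⟩
    · unfold ext Ext
      rw [dif_neg h, h5]
      rfl
    · rw [h5]
      simp only [Bool.false_eq_true, false_iff]
      exact h

/-- approximations of the strings -/
def st (s k : ℕ) : List ℕ := Nat.rec (motive := fun _ => List ℕ) [] (fun k σ => ext s k σ) k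

/-- the strings -/
noncomputable def Sg (k : ℕ) : List ℕ :=
  Nat.rec (motive := fun _ => List ℕ) [] (fun k σ => Ext k σ) k

theorem Sg_zero : Sg 0 = [] := rfl
theorem Sg_succ (k : ℕ) : Sg (k + 1) = Ext k (Sg k) := rfl
theorem st_succ (s k : ℕ) : st s (k + 1) = ext s k (st s k) := rfl

theorem st_conv (k : ℕ) : ∃ s₀, ∀ s, s₀ ≤ s → st s k = Sg k := by
  induction k with
  | zero => exact ⟨0, fun _ _ => rfl⟩
  | succ k ih =>
    obtain ⟨s₀, h0⟩ := ih
    obtain ⟨s₁, h1⟩ := ext_conv k (Sg k)
    refine ⟨max s₀ s₁, fun s hs => ?_⟩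
    rw [st_succ, Sg_succ, h0 s (le_trans (le_max_left _ _) hs)]
    exact (h1 s (le_trans (le_max_right _ _) hs)).1

section comp

variable {α : Type} [Primcodable α] {O : Set (ℕ →. ℕ)}

theorem chit {f g : α → ℕ} {σ : α → List ℕ} {e : α → ℕ} (hf : ComputableIn O f)
    (hg : ComputableIn O g) (hσ : ComputableIn O σ) (he : ComputableIn O e) :
    ComputableIn O fun a => hit (f a) (g a) (σ a) (e a) := by
  have h1 : Primrec fun p : ℕ × ℕ × ℕ =>
      (evaln p.1 (Denumerable.ofNat Code p.2.1) p.2.2).isSome :=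
    Primrec.option_isSome.comp (Nat.Partrec.Code.primrec_evaln.comp
      ((Primrec.fst.pair ((Primrec.ofNat Code).comp (Primrec.fst.comp Primrec.snd))).pair
        (Primrec.snd.comp Primrec.snd)))
  have h2 : ComputableIn O fun a => (evaln (f a) (Denumerable.ofNat Code (g a)) (e a)).isSome :=
    ci_compC (f := fun p : ℕ × ℕ × ℕ =>
      (evaln p.1 (Denumerable.ofNat Code p.2.1) p.2.2).isSome) h1.to_comp
      (ci_pair hf (ci_pair hg he))
  have h3 : ComputableIn O fun a => Encodable.encode (dl (e a)) :=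
    ci_compC (f := fun l : List ℕ => Encodable.encode l) Computable.encode (cdl he)
  exact cand h2 (cand (ceq (ctake (clen hσ) (cdl he)) hσ) (ceqN h3 he))

theorem cfound {f g : α → ℕ} {σ : α → List ℕ} (hf : ComputableIn O f)
    (hg : ComputableIn O g) (hσ : ComputableIn O σ) :
    ComputableIn O fun a => found (f a) (g a) (σ a) :=
  bex_comp (g := f) (q := fun a e => hit (f a) (g a) (σ a) e) hf
    (chit (ci_comp (f := f) hf ci_fst) (ci_comp (f := g) hg ci_fst) (ci_comp (f := σ) hσ ci_fst)
      ci_snd)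

theorem cleast {f g : α → ℕ} {σ : α → List ℕ} (hf : ComputableIn O f)
    (hg : ComputableIn O g) (hσ : ComputableIn O σ) :
    ComputableIn O fun a => least (f a) (g a) (σ a) := by
  have h1 : ComputableIn O fun p : (α × ℕ) × ℕ => !(hit (f p.1.1) (g p.1.1) (σ p.1.1) p.2) :=
    cnot (chit (ci_comp (f := f) hf (ci_comp ci_fst ci_fst))
      (ci_comp (f := g) hg (ci_comp ci_fst ci_fst)) (ci_comp (f := σ) hσ (ci_comp ci_fst ci_fst))
      ci_snd)
  have h2 : ComputableIn O fun p : α × ℕ =>
      ball (p.2 + 1) fun e' => !(hit (f p.1) (g p.1) (σ p.1) e') :=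
    ball_comp (g := fun p : α × ℕ => p.2 + 1)
      (q := fun (p : α × ℕ) (e' : ℕ) => !(hit (f p.1) (g p.1) (σ p.1) e'))
      (cadd ci_snd (cconst 1)) h1
  exact nsum_comp (g := f)
    (q := fun a e => ind (ball (e + 1) fun e' => !(hit (f a) (g a) (σ a) e'))) hf (cind h2)

theorem cext {f g : α → ℕ} {σ : α → List ℕ} (hf : ComputableIn O f)
    (hg : ComputableIn O g) (hσ : ComputableIn O σ) :
    ComputableIn O fun a => ext (f a) (g a) (σ a) :=
  cappend1 (ccond (cfound hf hg hσ) (cdl (cleast hf hg hσ)) hσ) (cconst 0)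

theorem cst {f g : α → ℕ} (hf : ComputableIn O f) (hg : ComputableIn O g) :
    ComputableIn O fun a => st (f a) (g a) := by
  refine ci_nat_rec (f := g) (g := fun _ => []) (h := fun a p => ext (f a) p.1 p.2) hg
    (cconst []) ?_
  exact cext (ci_comp (f := f) hf ci_fst) (ci_comp ci_fst ci_snd) (ci_comp ci_snd ci_snd)

end comp

/-! ### The generic sequence -/

theorem Sg_prefix_succ (k : ℕ) : Sg k <+: Sg (k + 1) := by
  classical
  rw [Sg_succ]
  unfold Ext
  by_cases h : ∃ e, Hit k (Sg k) e
  · rw [dif_pos h]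
    exact (Nat.find_spec h).2.1.trans (List.prefix_append _ _)
  · rw [dif_neg h]
    exact List.prefix_append _ _

theorem Sg_prefix {j k : ℕ} (h : j ≤ k) : Sg j <+: Sg k := by
  induction k, h using Nat.le_induction with
  | base => exact List.prefix_refl _
  | succ k _ ih => exact ih.trans (Sg_prefix_succ k)

theorem Sg_length (k : ℕ) : k ≤ (Sg k).length := by
  induction k with
  | zero => exact Nat.zero_le _
  | succ k ih =>
    classical
    rw [Sg_succ]
    unfold Ext
    by_cases h : ∃ e, Hit k (Sg k) e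
    · rw [dif_pos h, List.length_append]
      have := (Nat.find_spec h).2.1.length_le
      simp only [List.length_singleton]
      omega
    · rw [dif_neg h, List.length_append]
      simp only [List.length_singleton]
      omega

/-- the low generic sequence -/
noncomputable def A (n : ℕ) : ℕ := (Sg (n + 1)).getD n 0

theorem A_eq {n k : ℕ} (h : n < (Sg k).length) : (Sg k).getD n 0 = A n := by
  unfold A
  have h1 : n < (Sg (n + 1)).length := lt_of_lt_of_le (Nat.lt_succ_self n) (Sg_length _)
  rcases Nat.le_total k (n + 1) with h2 | h2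
  · have h3 := Sg_prefix h2
    rw [List.getD_eq_getElem _ _ h, List.getD_eq_getElem _ _ h1]
    exact h3.getElem h
  · have h3 := Sg_prefix h2
    rw [List.getD_eq_getElem _ _ h, List.getD_eq_getElem _ _ h1]
    exact (h3.getElem h1).symm

theorem length_seg (B : ℕ → ℕ) (n : ℕ) : (seg B n).length = n := by simp [seg]

theorem seg_getD (B : ℕ → ℕ) {n i : ℕ} (h : i < n) : (seg B n).getD i 0 = B i := by
  rw [List.getD_eq_getElem _ _ (by rw [length_seg]; exact h)]
  simp [seg]

theorem seg_Sg (k : ℕ) : seg A (Sg k).length = Sg k := by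
  apply List.ext_getElem
  · rw [length_seg]
  · intro i h1 h2
    have h3 := A_eq h2
    rw [List.getD_eq_getElem _ _ h2] at h3
    rw [h3]
    simp [seg]

/-- the `k`-th requirement -/
theorem meet_iff {W : List ℕ → Prop} {k : ℕ} (hW : ∀ σ τ, σ <+: τ → W σ → W τ)
    (hk : ∀ τ, W τ ↔ (eval (Denumerable.ofNat Code k) (Encodable.encode τ)).Dom) :
    (∃ n, W (seg A n)) ↔ ∃ e, Hit k (Sg k) e := by
  classical
  constructor
  · rintro ⟨n, hn⟩
    have h1 : W (seg A (max n (Sg k).length)) := hW _ _ (seg_prefix A (le_max_left _ _)) hn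
    refine ⟨Encodable.encode (seg A (max n (Sg k).length)), ?_, ?_, ?_⟩
    · exact (hk _).1 h1
    · rw [dl_encode]
      have h2 := seg_prefix A (le_max_right n (Sg k).length)
      rwa [seg_Sg] at h2
    · rw [dl_encode]
  · intro h
    have h1 := Nat.find_spec h
    obtain ⟨e, he⟩ : ∃ e, e = Nat.find h := ⟨_, rfl⟩
    rw [← he] at h1
    have h2 : Sg (k + 1) = dl e ++ [0] := by
      rw [Sg_succ]
      unfold Ext
      rw [dif_pos h, he]
    refine ⟨(Sg (k + 1)).length, ?_⟩
    rw [seg_Sg, h2]
    refine hW (dl e) _ (List.prefix_append _ _) ?_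
    rw [hk, h1.2.2]
    exact h1.1

/-- `A` is low: every function computable from (a function with approximations determined by) `A`
has a limit computable domain. -/
theorem low (D : List ℕ → ℕ → Option ℕ) (hD : Computable₂ D)
    (hmono : ∀ σ τ k v, σ <+: τ → D σ k = Option.some v → D τ k = Option.some v)
    (O : ℕ → ℕ) (hA : ∀ k, ∃ n, D (seg A n) k = Option.some (O k))
    (f : ℕ →. ℕ) (hf : Nat.RecursiveIn {fun k => Part.some (O k)} f) :
    ∃ g : ℕ → ℕ → Bool, Computable₂ g ∧
      ∀ n : ℕ, ∀ᶠ s in Filter.atTop, (g n s = true ↔ (f n).Dom) := by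
  obtain ⟨F, hF, hF1, hF2⟩ := use_principle D hD hmono A O hA f hf
  -- a code
  have h1 : Partrec fun x : ℕ => F (dl (Nat.unpair x).2) (Nat.unpair x).1 := by
    have h2 : Computable fun x : ℕ => (dl (Nat.unpair x).2, (Nat.unpair x).1) :=
      computable_of_ci (ci_pair (cdl (cunr (f := fun x : ℕ => x) ComputableIn.id))
        (cunl (f := fun x : ℕ => x) ComputableIn.id))
    exact hF.comp (Computable.fst.comp h2) (Computable.snd.comp h2)
  obtain ⟨c, hc⟩ := Nat.Partrec.Code.exists_code.1 (Partrec.nat_iff.1 h1)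
  obtain ⟨k, hk⟩ : ∃ k : ℕ → ℕ, k = fun n => Encodable.encode (Nat.Partrec.Code.curry c n) :=
    ⟨_, rfl⟩
  have hkc : Computable k := by
    rw [hk]
    exact (Primrec.encode.comp (Nat.Partrec.Code.primrec₂_curry.comp (Primrec.const c)
      Primrec.id)).to_comp
  have hW : ∀ n τ, (F τ n).Dom ↔
      (eval (Denumerable.ofNat Code (k n)) (Encodable.encode τ)).Dom := by
    intro n τ
    rw [hk]
    simp only [Denumerable.ofNat_encode]
    rw [Nat.Partrec.Code.eval_curry, hc]
    simp only [Nat.unpair_pair, dl_encode]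
  have hup : ∀ n σ τ, σ <+: τ → (F σ n).Dom → (F τ n).Dom := by
    intro n σ τ hst h
    obtain ⟨y, hy⟩ := Part.dom_iff_mem.1 h
    exact Part.dom_iff_mem.2 ⟨y, hF1 _ _ _ _ hst hy⟩
  refine ⟨fun n s => found s (k n) (st s (k n)), ?_, ?_⟩
  · have h2 : ComputableIn ∅ fun p : ℕ × ℕ => k p.1 := ci_compC hkc ci_fst
    exact computable_of_ci (cfound ci_snd h2 (cst ci_snd h2))
  · intro n
    obtain ⟨s₀, h0⟩ := st_conv (k n)
    obtain ⟨s₁, h1⟩ := ext_conv (k n) (Sg (k n))
    rw [Filter.eventually_atTop]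
    refine ⟨max s₀ s₁, fun s hs => ?_⟩
    show found s (k n) (st s (k n)) = true ↔ _
    rw [h0 s (le_trans (le_max_left _ _) hs), (h1 s (le_trans (le_max_right _ _) hs)).2,
      ← meet_iff (W := fun τ => (F τ n).Dom) (hup n) (hW n)]
    constructor
    · rintro ⟨m, hm⟩
      obtain ⟨y, hy⟩ := Part.dom_iff_mem.1 hm
      exact Part.dom_iff_mem.2 ⟨y, (hF2 n y).2 ⟨m, hy⟩⟩
    · intro h
      obtain ⟨y, hy⟩ := Part.dom_iff_mem.1 h
      obtain ⟨m, hm⟩ := (hF2 n y).1 hy
      exact ⟨m, Part.dom_iff_mem.2 ⟨y, hm⟩⟩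

/-- `A` meets every computable upward closed set of strings which is dense. -/
theorem meets {w : List ℕ → Bool} (hw : Computable w)
    (hup : ∀ σ τ, σ <+: τ → w σ = true → w τ = true)
    (hd : ∀ σ, ∃ τ, σ <+: τ ∧ w τ = true) : ∃ n, w (seg A n) = true := by
  have h1 : Partrec fun x : ℕ => bif w (dl x) then (Part.some 0 : Part ℕ) else Part.none := by
    have h2 : Computable fun x : ℕ => w (dl x) := hw.comp (computable_of_ci (cdl
      (f := fun x : ℕ => x) ComputableIn.id))
    exact Partrec.cond h2 (Computable.const 0).partrec Partrec.none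
  obtain ⟨c, hc⟩ := Nat.Partrec.Code.exists_code.1 (Partrec.nat_iff.1 h1)
  have hk : ∀ τ, w τ = true ↔
      (eval (Denumerable.ofNat Code (Encodable.encode c)) (Encodable.encode τ)).Dom := by
    intro τ
    rw [Denumerable.ofNat_encode, hc]
    simp only [dl_encode]
    cases w τ <;> simp
  refine (meet_iff (W := fun τ => w τ = true) hup hk).2 ?_
  obtain ⟨τ, h3, h4⟩ := hd (Sg (Encodable.encode c))
  refine ⟨Encodable.encode τ, (hk τ).1 h4, ?_, ?_⟩
  · rw [dl_encode]; exact h3
  · rw [dl_encode]

/-- the parities of `A` are not computable -/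
theorem not_computable {Z : ℕ → ℕ} (hZ : Computable Z) : ∃ n, A n % 2 ≠ Z n := by
  by_contra hc
  push Not at hc
  have h1 : Computable fun τ : List ℕ =>
      bex τ.length fun i => !(decide (τ.getD i 0 % 2 = Z i)) := by
    apply computable_of_ci
    exact bex_comp (g := fun τ : List ℕ => τ.length)
      (q := fun τ i => !(decide (τ.getD i 0 % 2 = Z i))) (clen (f := fun τ : List ℕ => τ)
        ComputableIn.id)
      (cnot (ceqN (cmod (cgetD 0 ci_fst ci_snd) (cconst 2)) (ci_compC hZ ci_snd)))
  obtain ⟨n, hn⟩ := meets h1 (by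
    intro σ τ hst h
    rw [bex_iff] at h ⊢
    obtain ⟨i, hi, h2⟩ := h
    refine ⟨i, lt_of_lt_of_le hi hst.length_le, ?_⟩
    rw [List.getD_eq_getElem _ _ hi] at h2
    rw [List.getD_eq_getElem _ _ (lt_of_lt_of_le hi hst.length_le), ← hst.getElem hi]
    exact h2) (by
    intro σ
    refine ⟨σ ++ [Z σ.length + 1], List.prefix_append _ _, ?_⟩
    rw [bex_iff]
    refine ⟨σ.length, by simp, ?_⟩
    have h2 : (σ ++ [Z σ.length + 1]).getD σ.length 0 = Z σ.length + 1 := by
      simp [List.getD]
    rw [h2]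
    simp only [Bool.not_eq_true', decide_eq_false_iff_not]
    have h3 := Nat.mod_lt (Z σ.length + 1) (show 0 < 2 by norm_num)
    intro h4
    omega)
  rw [bex_iff] at hn
  obtain ⟨i, hi, h2⟩ := hn
  rw [length_seg] at hi
  rw [seg_getD A hi] at h2
  simp only [Bool.not_eq_true', decide_eq_false_iff_not] at h2
  exact h2 (hc i)

end Pool.Agent.H626R2.Low
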