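import Mathlib
import Pool.Agent.H626R2.Low
import Pool.Agent.H626R2.IntPrim

/-!
# A low noncomputable real number

`α = ∑ (A i % 2) / 2^(i+1)` for the low generic sequence `A`.
-/

set_option autoImplicit false

namespace Pool.Agent.H626R2.LowReal

open Pool.Agent.H626R2.Low Pool.Agent.H626R2.IntPrim
open Pool.Agent.Helper67.BN (seg seg_prefix use_principle ci_comp ci_pair ci_comp₂ ci_compC ci_fst
  ci_snd ci_nat_rec computable_of_ci ball ball_iff nsum nsum_eq ball_comp nsum_comp cand cor cnot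
  ceqN clt cle cadd csub cmul cdiv cmod cconst ccond cpw cpair cunl cunr ind cind ind_true ind_false
  nsum_ind bex bex_iff bex_comp ceq clen cgetD cappend1 ctake)

/-- the number whose binary digits are the parities of `σ` -/
def aa (σ : List ℕ) : ℕ := nsum σ.length fun i => (σ.getD i 0 % 2) * 2 ^ (σ.length - 1 - i)

/-- the number with the digits `A 0, ..., A (k-1)` -/
noncomputable def ak (k : ℕ) : ℕ :=
  Nat.rec (motive := fun _ => ℕ) 0 (fun i r => 2 * r + A i % 2) k

theorem ak_zero : ak 0 = 0 := rfl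
theorem ak_succ (k : ℕ) : ak (k + 1) = 2 * ak k + A k % 2 := rfl

theorem aa_append (σ : List ℕ) (v : ℕ) : aa (σ ++ [v]) = 2 * aa σ + v % 2 := by
  unfold aa
  rw [nsum_eq, nsum_eq, List.length_append, List.length_singleton, Finset.sum_range_succ,
    Finset.mul_sum]
  congr 1
  · refine Finset.sum_congr rfl fun i hi => ?_
    rw [Finset.mem_range] at hi
    have h1 : (σ ++ [v]).getD i 0 = σ.getD i 0 := by
      rw [List.getD_eq_getElem _ _ (by simp; omega), List.getD_eq_getElem _ _ hi,
        List.getElem_append_left hi]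
    have h2 : σ.length + 1 - 1 - i = (σ.length - 1 - i) + 1 := by omega
    rw [h1, h2, pow_succ]
    ring
  · have h1 : (σ ++ [v]).getD σ.length 0 = v := by simp [List.getD]
    have h2 : σ.length + 1 - 1 - σ.length = 0 := by omega
    rw [h1, h2]
    ring

theorem seg_succ (B : ℕ → ℕ) (n : ℕ) : seg B (n + 1) = seg B n ++ [B n] := by
  unfold seg
  rw [List.range_succ, List.map_append]
  rfl

theorem aa_seg (k : ℕ) : aa (seg A k) = ak k := by
  induction k with
  | zero => rfl
  | succ k ih => rw [seg_succ, aa_append, ih, ak_succ]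

theorem caa {α : Type} [Primcodable α] {O : Set (ℕ →. ℕ)} {σ : α → List ℕ}
    (hσ : ComputableIn O σ) : ComputableIn O fun a => aa (σ a) := by
  have h1 : ComputableIn O fun p : α × ℕ => σ p.1 := ci_comp (f := σ) hσ ci_fst
  exact nsum_comp (g := fun a => (σ a).length)
    (q := fun a i => ((σ a).getD i 0 % 2) * 2 ^ ((σ a).length - 1 - i)) (clen hσ)
    (cmul (cmod (cgetD 0 h1 ci_snd) (cconst 2))
      (cpw 2 (f := fun p : α × ℕ => (σ p.1).length - 1 - p.2)
        (csub (csub (clen h1) (cconst 1)) ci_snd)))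

/-! ### The real number -/

/-- lower approximations -/
noncomputable def lo (k : ℕ) : ℝ := (ak k : ℝ) / 2 ^ k

/-- upper approximations -/
noncomputable def hi (k : ℕ) : ℝ := ((ak k : ℝ) + 1) / 2 ^ k

theorem lo_le_succ (k : ℕ) : lo k ≤ lo (k + 1) := by
  unfold lo
  rw [div_le_div_iff₀ (by positivity) (by positivity), ak_succ, pow_succ]
  push_cast
  have : (0 : ℝ) ≤ ((A k % 2 : ℕ) : ℝ) := Nat.cast_nonneg _
  have h2 : (0 : ℝ) < 2 ^ k := by positivity
  nlinarith

theorem hi_succ_le (k : ℕ) : hi (k + 1) ≤ hi k := by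
  unfold hi
  rw [div_le_div_iff₀ (by positivity) (by positivity), ak_succ, pow_succ]
  push_cast
  have h1 : A k % 2 ≤ 1 := by omega
  have : ((A k % 2 : ℕ) : ℝ) ≤ 1 := by exact_mod_cast h1
  have h2 : (0 : ℝ) < 2 ^ k := by positivity
  nlinarith

theorem lo_mono : Monotone lo := monotone_nat_of_le_succ lo_le_succ

theorem hi_anti : Antitone hi := antitone_nat_of_succ_le hi_succ_le

theorem lo_le_hi (j k : ℕ) : lo j ≤ hi k := by
  have h1 : ∀ n, lo n ≤ hi n := by
    intro n
    unfold lo hi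
    apply div_le_div_of_nonneg_right (by linarith) (by positivity)
  exact (lo_mono (le_max_left j k)).trans ((h1 _).trans (hi_anti (le_max_right j k)))

/-- the low real number -/
noncomputable def al : ℝ := ⨆ k, lo k

theorem lo_le (k : ℕ) : lo k ≤ al :=
  le_ciSup (f := lo) ⟨hi 0, by rintro _ ⟨j, rfl⟩; exact lo_le_hi j 0⟩ k

theorem le_hi (k : ℕ) : al ≤ hi k := ciSup_le fun j => lo_le_hi j k

theorem ak_le (k : ℕ) : (ak k : ℝ) ≤ 2 ^ k * al := by
  have h := lo_le k
  unfold lo at h
  rw [div_le_iff₀ (by positivity)] at h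
  linarith

theorem le_ak (k : ℕ) : 2 ^ k * al ≤ (ak k : ℝ) + 1 := by
  have h := le_hi k
  unfold hi at h
  rw [le_div_iff₀ (by positivity)] at h
  linarith

theorem al_nonneg : 0 ≤ al := by
  have := ak_le 0
  simpa [ak_zero] using this

/-! ### Comparison with rational numbers -/

/-- the two end points have the same strict sign -/
def res (m n : ℤ) (σ : List ℕ) : Bool :=
  (decide (0 < m * 2 ^ σ.length + n * aa σ) && decide (0 < m * 2 ^ σ.length + n * (aa σ + 1))) ||
  (decide (m * 2 ^ σ.length + n * aa σ < 0) && decide (m * 2 ^ σ.length + n * (aa σ + 1) < 0))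

theorem step_aux (m n : ℤ) (σ : List ℕ) (v : ℕ) :
    (m * 2 ^ (σ ++ [v]).length + n * aa (σ ++ [v]) = 2 * (m * 2 ^ σ.length + n * aa σ) ∨
      m * 2 ^ (σ ++ [v]).length + n * aa (σ ++ [v]) =
        (m * 2 ^ σ.length + n * aa σ) + (m * 2 ^ σ.length + n * (aa σ + 1))) ∧
    (m * 2 ^ (σ ++ [v]).length + n * (aa (σ ++ [v]) + 1) =
        2 * (m * 2 ^ σ.length + n * (aa σ + 1)) ∨
      m * 2 ^ (σ ++ [v]).length + n * (aa (σ ++ [v]) + 1) =
        (m * 2 ^ σ.length + n * aa σ) + (m * 2 ^ σ.length + n * (aa σ + 1))) := by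
  rw [aa_append, List.length_append, List.length_singleton, pow_succ]
  rcases Nat.mod_two_eq_zero_or_one v with h | h
  · rw [h]
    push_cast
    exact ⟨Or.inl (by ring), Or.inr (by ring)⟩
  · rw [h]
    push_cast
    exact ⟨Or.inr (by ring), Or.inl (by ring)⟩

theorem prefix_induction {P : List ℕ → Prop} {σ τ : List ℕ} (h : σ <+: τ) (hσ : P σ)
    (hs : ∀ ρ v, P ρ → P (ρ ++ [v])) : P τ := by
  obtain ⟨t, rfl⟩ := h
  induction t using List.reverseRecOn with
  | nil => simpa using hσ
  | append_singleton t v ih =>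
    rw [← List.append_assoc]
    exact hs _ _ ih

theorem pos_mono {m n : ℤ} {σ τ : List ℕ} (h : σ <+: τ)
    (h1 : 0 ≤ m * 2 ^ σ.length + n * aa σ ∧ 0 ≤ m * 2 ^ σ.length + n * (aa σ + 1)) :
    0 ≤ m * 2 ^ τ.length + n * aa τ ∧ 0 ≤ m * 2 ^ τ.length + n * (aa τ + 1) := by
  refine prefix_induction (P := fun τ => 0 ≤ m * 2 ^ τ.length + n * aa τ ∧
    0 ≤ m * 2 ^ τ.length + n * (aa τ + 1)) h h1 ?_
  intro ρ v hρ
  obtain ⟨e1, e2⟩ := step_aux m n ρ v
  constructor
  · rcases e1 with e | e <;> rw [e] <;> linarith [hρ.1, hρ.2]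
  · rcases e2 with e | e <;> rw [e] <;> linarith [hρ.1, hρ.2]

theorem spos_mono {m n : ℤ} {σ τ : List ℕ} (h : σ <+: τ)
    (h1 : 0 < m * 2 ^ σ.length + n * aa σ ∧ 0 < m * 2 ^ σ.length + n * (aa σ + 1)) :
    0 < m * 2 ^ τ.length + n * aa τ ∧ 0 < m * 2 ^ τ.length + n * (aa τ + 1) := by
  refine prefix_induction (P := fun τ => 0 < m * 2 ^ τ.length + n * aa τ ∧
    0 < m * 2 ^ τ.length + n * (aa τ + 1)) h h1 ?_
  intro ρ v hρ
  obtain ⟨e1, e2⟩ := step_aux m n ρ v
  constructor
  · rcases e1 with e | e <;> rw [e] <;> linarith [hρ.1, hρ.2]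
  · rcases e2 with e | e <;> rw [e] <;> linarith [hρ.1, hρ.2]

theorem sneg_mono {m n : ℤ} {σ τ : List ℕ} (h : σ <+: τ)
    (h1 : m * 2 ^ σ.length + n * aa σ < 0 ∧ m * 2 ^ σ.length + n * (aa σ + 1) < 0) :
    m * 2 ^ τ.length + n * aa τ < 0 ∧ m * 2 ^ τ.length + n * (aa τ + 1) < 0 := by
  refine prefix_induction (P := fun τ => m * 2 ^ τ.length + n * aa τ < 0 ∧
    m * 2 ^ τ.length + n * (aa τ + 1) < 0) h h1 ?_
  intro ρ v hρ
  obtain ⟨e1, e2⟩ := step_aux m n ρ v
  constructor
  · rcases e1 with e | e <;> rw [e] <;> linarith [hρ.1, hρ.2]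
  · rcases e2 with e | e <;> rw [e] <;> linarith [hρ.1, hρ.2]

theorem res_iff (m n : ℤ) (σ : List ℕ) : res m n σ = true ↔
    (0 < m * 2 ^ σ.length + n * aa σ ∧ 0 < m * 2 ^ σ.length + n * (aa σ + 1)) ∨
    (m * 2 ^ σ.length + n * aa σ < 0 ∧ m * 2 ^ σ.length + n * (aa σ + 1) < 0) := by
  unfold res
  simp only [Bool.or_eq_true, Bool.and_eq_true, decide_eq_true_eq]

/-- constant extensions -/
theorem ext_const (m n : ℤ) (σ : List ℕ) (hn : n ≠ 0) (b : ℕ) (hb : b = 0 ∨ b = 1)
    (hx : m * 2 ^ σ.length + n * (aa σ + b) ≠ 0) : ∃ τ, σ <+: τ ∧ res m n τ = true := by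
  -- x = m 2^|σ| + n (aa σ + b); after t steps the end points are 2^t x and 2^t x ± n
  obtain ⟨x, hx'⟩ : ∃ x, x = m * 2 ^ σ.length + n * (aa σ + b) := ⟨_, rfl⟩
  rw [← hx'] at hx
  have key : ∀ t : ℕ, (m * 2 ^ (σ ++ List.replicate t b).length +
      n * (aa (σ ++ List.replicate t b) + b) = 2 ^ t * x) := by
    intro t
    induction t with
    | zero => simp [hx']
    | succ t ih =>
      rw [List.replicate_succ', ← List.append_assoc, aa_append, List.length_append,
        List.length_singleton, pow_succ, pow_succ]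
      have e : ((2 * aa (σ ++ List.replicate t b) + b % 2 : ℕ) : ℤ) + b
          = 2 * (aa (σ ++ List.replicate t b) + b) := by
        rcases hb with rfl | rfl
        · push_cast
          ring
        · push_cast
          ring
      rw [e]
      calc m * (2 ^ (σ ++ List.replicate t b).length * 2) +
            n * (2 * (aa (σ ++ List.replicate t b) + b))
          = 2 * (m * 2 ^ (σ ++ List.replicate t b).length +
            n * (aa (σ ++ List.replicate t b) + b)) := by ring
        _ = 2 ^ t * 2 * x := by rw [ih]; ring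
  obtain ⟨t, ht⟩ : ∃ t : ℕ, |n| < 2 ^ t := by
    refine ⟨n.natAbs, ?_⟩
    have h1 : n.natAbs < 2 ^ n.natAbs := Nat.lt_two_pow_self
    have h2 : |n| = (n.natAbs : ℤ) := Int.abs_eq_natAbs n
    rw [h2]
    exact_mod_cast h1
  refine ⟨σ ++ List.replicate t b, List.prefix_append _ _, ?_⟩
  have h1 := key t
  obtain ⟨L, hL⟩ : ∃ L : ℤ, L = m * 2 ^ (σ ++ List.replicate t b).length +
      n * aa (σ ++ List.replicate t b) := ⟨_, rfl⟩
  have hU : m * 2 ^ (σ ++ List.replicate t b).length +
      n * (aa (σ ++ List.replicate t b) + 1) = L + n := by rw [hL]; ring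
  rw [res_iff, ← hL, hU]
  have h2 : L + n * b = 2 ^ t * x := by rw [hL, ← h1]; ring
  have h3 := abs_lt.1 ht
  have h4 : (0 : ℤ) < 2 ^ t := by positivity
  rcases lt_or_gt_of_ne hx with h5 | h5
  · -- x ≤ -1
    right
    have h6 : 2 ^ t * x ≤ -(2 ^ t) := by nlinarith
    rcases hb with rfl | rfl
    · push_cast at h2
      constructor <;> linarith
    · push_cast at h2
      constructor <;> linarith
  · left
    have h6 : 2 ^ t ≤ 2 ^ t * x := by nlinarith
    rcases hb with rfl | rfl
    · push_cast at h2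
      constructor <;> linarith
    · push_cast at h2
      constructor <;> linarith

theorem cint_add {α : Type} [Primcodable α] {O : Set (ℕ →. ℕ)} {f g : α → ℤ}
    (hf : ComputableIn O f) (hg : ComputableIn O g) : ComputableIn O fun a => f a + g a :=
  ci_comp₂ prim_int_add.to_comp hf hg

theorem cint_sub {α : Type} [Primcodable α] {O : Set (ℕ →. ℕ)} {f g : α → ℤ}
    (hf : ComputableIn O f) (hg : ComputableIn O g) : ComputableIn O fun a => f a - g a :=
  ci_comp₂ prim_int_sub.to_comp hf hg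

theorem cint_mul {α : Type} [Primcodable α] {O : Set (ℕ →. ℕ)} {f g : α → ℤ}
    (hf : ComputableIn O f) (hg : ComputableIn O g) : ComputableIn O fun a => f a * g a :=
  ci_comp₂ prim_int_mul.to_comp hf hg

theorem cint_cast {α : Type} [Primcodable α] {O : Set (ℕ →. ℕ)} {f : α → ℕ}
    (hf : ComputableIn O f) : ComputableIn O fun a => (f a : ℤ) :=
  ci_compC prim_natCast.to_comp hf

theorem cint_le {α : Type} [Primcodable α] {O : Set (ℕ →. ℕ)} {f g : α → ℤ}
    (hf : ComputableIn O f) (hg : ComputableIn O g) :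
    ComputableIn O fun a => decide (f a ≤ g a) := by
  have : Primrec₂ fun m n : ℤ => decide (m ≤ n) := prim_int_le.decide
  exact ci_comp₂ this.to_comp hf hg

theorem cint_lt {α : Type} [Primcodable α] {O : Set (ℕ →. ℕ)} {f g : α → ℤ}
    (hf : ComputableIn O f) (hg : ComputableIn O g) :
    ComputableIn O fun a => decide (f a < g a) := by
  have : Primrec₂ fun m n : ℤ => decide (m < n) := prim_int_lt.decide
  exact ci_comp₂ this.to_comp hf hg

/-- left end point -/
def eL (m n : ℤ) (σ : List ℕ) : ℤ := m * 2 ^ σ.length + n * aa σ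
/-- right end point -/
def eR (m n : ℤ) (σ : List ℕ) : ℤ := m * 2 ^ σ.length + n * (aa σ + 1)

section
variable {α : Type} [Primcodable α] {O : Set (ℕ →. ℕ)} {m n : α → ℤ} {σ : α → List ℕ}

theorem cpwi (hσ : ComputableIn O σ) : ComputableIn O fun a => (2 : ℤ) ^ (σ a).length := by
  have h1 : ComputableIn O fun a => ((2 ^ (σ a).length : ℕ) : ℤ) :=
    cint_cast (cpw 2 (clen hσ))
  have e : (fun a => ((2 ^ (σ a).length : ℕ) : ℤ)) = fun a => (2 : ℤ) ^ (σ a).length := by
    funext a
    push_cast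
    rfl
  rwa [e] at h1

theorem ceL (hm : ComputableIn O m) (hn : ComputableIn O n) (hσ : ComputableIn O σ) :
    ComputableIn O fun a => eL (m a) (n a) (σ a) :=
  cint_add (cint_mul hm (cpwi hσ)) (cint_mul hn (cint_cast (caa hσ)))

theorem ceR (hm : ComputableIn O m) (hn : ComputableIn O n) (hσ : ComputableIn O σ) :
    ComputableIn O fun a => eR (m a) (n a) (σ a) :=
  cint_add (cint_mul hm (cpwi hσ)) (cint_mul hn (cint_add (cint_cast (caa hσ)) (cconst 1)))

end

theorem cres (m n : ℤ) : Computable (res m n) := by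
  apply computable_of_ci
  have h1 : ComputableIn ∅ fun σ : List ℕ => eL m n σ :=
    ceL (cconst m) (cconst n) ComputableIn.id
  have h2 : ComputableIn ∅ fun σ : List ℕ => eR m n σ :=
    ceR (cconst m) (cconst n) ComputableIn.id
  exact cor (cand (cint_lt (cconst 0) h1) (cint_lt (cconst 0) h2))
    (cand (cint_lt h1 (cconst 0)) (cint_lt h2 (cconst 0)))

theorem resolve (m n : ℤ) (hn : n ≠ 0) : ∃ k, res m n (seg A k) = true := by
  refine meets (cres m n) ?_ ?_
  · intro σ τ hst h
    rw [res_iff] at h ⊢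
    rcases h with h | h
    · exact Or.inl (spos_mono hst h)
    · exact Or.inr (sneg_mono hst h)
  · intro σ
    by_cases h : m * 2 ^ σ.length + n * (aa σ + (0 : ℕ)) = 0
    · refine ext_const m n σ hn 1 (Or.inr rfl) ?_
      intro h2
      push_cast at h h2
      apply hn
      linarith
    · exact ext_const m n σ hn 0 (Or.inl rfl) h

theorem eL_real (m n : ℤ) (k : ℕ) :
    ((eL m n (seg A k) : ℤ) : ℝ) = m * 2 ^ k + n * ak k := by
  unfold eL
  rw [aa_seg, length_seg]
  push_cast
  ring

theorem eR_real (m n : ℤ) (k : ℕ) :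
    ((eR m n (seg A k) : ℤ) : ℝ) = m * 2 ^ k + n * (ak k + 1) := by
  unfold eR
  rw [aa_seg, length_seg]
  push_cast
  ring

theorem between (m n : ℤ) (k : ℕ) :
    (eL m n (seg A k) : ℝ) ≤ 2 ^ k * (m + n * al) ∧ 2 ^ k * (m + n * al) ≤ eR m n (seg A k) ∨
    (eR m n (seg A k) : ℝ) ≤ 2 ^ k * (m + n * al) ∧ 2 ^ k * (m + n * al) ≤ eL m n (seg A k) := by
  rw [eL_real, eR_real]
  have h1 := ak_le k
  have h2 := le_ak k
  rcases le_total 0 n with h | h
  · have h3 : (0 : ℝ) ≤ n := by exact_mod_cast h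
    left
    constructor <;> nlinarith
  · have h3 : (n : ℝ) ≤ 0 := by exact_mod_cast h
    right
    constructor <;> nlinarith

theorem nonneg_of {m n : ℤ} {k : ℕ} (h1 : 0 ≤ eL m n (seg A k)) (h2 : 0 ≤ eR m n (seg A k)) :
    0 ≤ (m : ℝ) + n * al := by
  have h1' : (0 : ℝ) ≤ eL m n (seg A k) := by exact_mod_cast h1
  have h2' : (0 : ℝ) ≤ eR m n (seg A k) := by exact_mod_cast h2
  have h3 : (0 : ℝ) ≤ 2 ^ k * (m + n * al) := by
    rcases between m n k with h | h <;> linarith [h.1]
  have h4 : (0 : ℝ) < 2 ^ k := by positivity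
  by_contra hc
  push Not at hc
  nlinarith

theorem pos_of {m n : ℤ} {k : ℕ} (h1 : 0 < eL m n (seg A k)) (h2 : 0 < eR m n (seg A k)) :
    0 < (m : ℝ) + n * al := by
  have h1' : (0 : ℝ) < eL m n (seg A k) := by exact_mod_cast h1
  have h2' : (0 : ℝ) < eR m n (seg A k) := by exact_mod_cast h2
  have h3 : (0 : ℝ) < 2 ^ k * (m + n * al) := by
    rcases between m n k with h | h <;> linarith [h.1]
  have h4 : (0 : ℝ) < 2 ^ k := by positivity
  by_contra hc
  push Not at hc
  nlinarith

theorem neg_of {m n : ℤ} {k : ℕ} (h1 : eL m n (seg A k) < 0) (h2 : eR m n (seg A k) < 0) :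
    (m : ℝ) + n * al < 0 := by
  have h1' : (eL m n (seg A k) : ℝ) < 0 := by exact_mod_cast h1
  have h2' : (eR m n (seg A k) : ℝ) < 0 := by exact_mod_cast h2
  have h3 : 2 ^ k * (m + n * al) < (0 : ℝ) := by
    rcases between m n k with h | h <;> linarith [h.2]
  have h4 : (0 : ℝ) < 2 ^ k := by positivity
  by_contra hc
  push Not at hc
  nlinarith

theorem irr {m n : ℤ} (h : (m : ℝ) + n * al = 0) : m = 0 ∧ n = 0 := by
  by_cases hn : n = 0
  · subst hn
    refine ⟨?_, rfl⟩
    have : (m : ℝ) = 0 := by simpa using h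
    exact_mod_cast this
  · exfalso
    obtain ⟨k, hk⟩ := resolve m n hn
    rw [res_iff] at hk
    rcases hk with hk | hk
    · have := pos_of (m := m) (n := n) (k := k) hk.1 hk.2
      linarith
    · have := neg_of (m := m) (n := n) (k := k) hk.1 hk.2
      linarith

/-- If comparisons of `al` with rational numbers are decidable, we get a contradiction. -/
theorem no_comparison {le : ℕ → ℕ → Bool} (hle : Computable₂ le)
    (h : ∀ p q, le p q = true ↔ (p : ℝ) ≤ q * al) : False := by
  have h1 : ∀ k, nsum (2 ^ k) (fun p => ind (le (p + 1) (2 ^ k))) = ak k := by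
    intro k
    rw [nsum_ind]
    have h2 : ∀ k, ak k < 2 ^ k := by
      intro k
      induction k with
      | zero => simp [ak_zero]
      | succ k ih =>
        rw [ak_succ, pow_succ]
        have := Nat.mod_lt (A k) (show 0 < 2 by norm_num)
        omega
    have h3 : (Finset.range (2 ^ k)).filter (fun p => le (p + 1) (2 ^ k) = true)
        = Finset.range (ak k) := by
      ext p
      rw [Finset.mem_filter, Finset.mem_range, Finset.mem_range, h]
      constructor
      · rintro ⟨-, h4⟩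
        by_contra hc
        have h5 : (ak k : ℝ) + 1 ≤ ((p + 1 : ℕ) : ℝ) := by
          have : ak k + 1 ≤ p + 1 := by omega
          exact_mod_cast this
        have h6 := le_ak k
        push_cast at h4 h5
        have h7 : ((-(ak k + 1 : ℤ) : ℤ) : ℝ) + ((2 ^ k : ℤ) : ℝ) * al = 0 := by
          push_cast
          linarith
        have h8 := irr h7
        have h9 : (2 : ℤ) ^ k ≠ 0 := by positivity
        exact h9 h8.2
      · intro h4
        refine ⟨h4.trans (h2 k), ?_⟩
        have h5 : ((p + 1 : ℕ) : ℝ) ≤ ak k := by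
          have : p + 1 ≤ ak k := h4
          exact_mod_cast this
        have h6 := ak_le k
        push_cast at h5 ⊢
        linarith
    rw [h3, Finset.card_range]
  have h2 : Computable fun k : ℕ =>
      nsum (2 ^ (k + 1)) (fun p => ind (le (p + 1) (2 ^ (k + 1)))) % 2 := by
    apply computable_of_ci
    have h3 : ComputableIn ∅ fun k : ℕ => 2 ^ (k + 1) :=
      cpw 2 (f := fun k : ℕ => k + 1) (cadd ComputableIn.id (cconst 1))
    have h4 : ComputableIn ∅ fun p : ℕ × ℕ => le (p.2 + 1) (2 ^ (p.1 + 1)) :=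
      ci_comp₂ hle (cadd ci_snd (cconst 1)) (ci_comp (f := fun k : ℕ => 2 ^ (k + 1)) h3 ci_fst)
    exact cmod (nsum_comp (g := fun k : ℕ => 2 ^ (k + 1))
      (q := fun k p => ind (le (p + 1) (2 ^ (k + 1)))) h3 (cind h4)) (cconst 2)
  obtain ⟨n, hn⟩ := not_computable h2
  apply hn
  rw [h1, ak_succ]
  omega

/-- approximation of the truth value of `0 ≤ m + n * al` -/
def sgn (m n : ℤ) (σ : List ℕ) : Option ℕ :=
  bif (decide (0 ≤ eL m n σ) && decide (0 ≤ eR m n σ)) then some 1 else
    bif (decide (eL m n σ < 0) && decide (eR m n σ < 0)) then some 0 else none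

theorem csgn {α : Type} [Primcodable α] {O : Set (ℕ →. ℕ)} {m n : α → ℤ} {σ : α → List ℕ}
    (hm : ComputableIn O m) (hn : ComputableIn O n) (hσ : ComputableIn O σ) :
    ComputableIn O fun a => sgn (m a) (n a) (σ a) :=
  ccond (cand (cint_le (cconst 0) (ceL hm hn hσ)) (cint_le (cconst 0) (ceR hm hn hσ)))
    (cconst (some 1))
    (ccond (cand (cint_lt (ceL hm hn hσ) (cconst 0)) (cint_lt (ceR hm hn hσ) (cconst 0)))
      (cconst (some 0)) (cconst none))

theorem sgn_mono (m n : ℤ) {σ τ : List ℕ} (h : σ <+: τ) {v : ℕ} (hv : sgn m n σ = some v) :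
    sgn m n τ = some v := by
  unfold sgn at hv ⊢
  by_cases h1 : 0 ≤ eL m n σ ∧ 0 ≤ eR m n σ
  · have h2 : 0 ≤ eL m n τ ∧ 0 ≤ eR m n τ := pos_mono h h1
    simp only [h1.1, h1.2, decide_true, Bool.and_self, cond_true] at hv
    simp only [h2.1, h2.2, decide_true, Bool.and_self, cond_true]
    exact hv
  · have e1 : (decide (0 ≤ eL m n σ) && decide (0 ≤ eR m n σ)) = false := by
      rw [← Bool.not_eq_true, Bool.and_eq_true, decide_eq_true_eq, decide_eq_true_eq]
      exact h1
    rw [e1, cond_false] at hv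
    by_cases h2 : eL m n σ < 0 ∧ eR m n σ < 0
    · have h3 : eL m n τ < 0 ∧ eR m n τ < 0 := sneg_mono h h2
      have e2 : (decide (0 ≤ eL m n τ) && decide (0 ≤ eR m n τ)) = false := by
        rw [← Bool.not_eq_true, Bool.and_eq_true, decide_eq_true_eq, decide_eq_true_eq]
        rintro ⟨h4, -⟩
        linarith [h3.1]
      rw [e2, cond_false]
      simp only [h2.1, h2.2, decide_true, Bool.and_self, cond_true] at hv
      simp only [h3.1, h3.2, decide_true, Bool.and_self, cond_true]
      exact hv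
    · have e2 : (decide (eL m n σ < 0) && decide (eR m n σ < 0)) = false := by
        rw [← Bool.not_eq_true, Bool.and_eq_true, decide_eq_true_eq, decide_eq_true_eq]
        exact h2
      rw [e2, cond_false] at hv
      exact absurd hv (by simp)

open Classical in
theorem sgn_total (m n : ℤ) :
    ∃ k, sgn m n (seg A k) = some (if 0 ≤ (m : ℝ) + n * al then 1 else 0) := by
  by_cases hn : n = 0
  · subst hn
    refine ⟨0, ?_⟩
    have e1 : eL m 0 (seg A 0) = m := by
      unfold eL
      rw [length_seg]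
      ring
    have e2 : eR m 0 (seg A 0) = m := by
      unfold eR
      rw [length_seg]
      ring
    unfold sgn
    rw [e1, e2]
    by_cases hm : 0 ≤ m
    · have : (0 : ℝ) ≤ (m : ℝ) + ((0 : ℤ) : ℝ) * al := by
        have : (0 : ℝ) ≤ m := by exact_mod_cast hm
        simpa using this
      rw [if_pos this]
      simp [hm]
    · have : ¬ (0 : ℝ) ≤ (m : ℝ) + ((0 : ℤ) : ℝ) * al := by
        have : (m : ℝ) < 0 := by exact_mod_cast (not_le.1 hm)
        simpa using this
      rw [if_neg this]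
      simp [hm, not_le.1 hm]
  · obtain ⟨k, hk⟩ := resolve m n hn
    refine ⟨k, ?_⟩
    rw [res_iff] at hk
    unfold sgn
    rcases hk with hk | hk
    · have h1 : 0 < eL m n (seg A k) := hk.1
      have h2 : 0 < eR m n (seg A k) := hk.2
      rw [if_pos (nonneg_of h1.le h2.le)]
      simp [h1.le, h2.le]
    · have h1 : eL m n (seg A k) < 0 := hk.1
      have h2 : eR m n (seg A k) < 0 := hk.2
      rw [if_neg (not_le.2 (neg_of h1 h2))]
      simp [not_le.2 h1, h1, h2]

end Pool.Agent.H626R2.LowReal
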