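import Mathlib
import Pool.Agent.H626R2.LowReal

/-!
# Signs of integer polynomials at the low real number
-/

set_option autoImplicit false

namespace Pool.Agent.H626R2.PolyReal

open Pool.Agent.H626R2.Low Pool.Agent.H626R2.LowReal Pool.Agent.H626R2.IntPrim
open Pool.Agent.Helper67.BN (seg seg_prefix use_principle ci_comp ci_pair ci_comp₂ ci_compC ci_fst
  ci_snd ci_nat_rec computable_of_ci cand cor cnot
  ceqN clt cle cadd csub cmul cconst ccond clen)

/-- polynomials: lists of monomials (coefficient, exponent) -/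
abbrev MS := List (ℤ × ℕ)

/-- the value of a polynomial -/
noncomputable def nuM (x : ℝ) (l : MS) : ℝ := (l.map fun p => (p.1 : ℝ) * x ^ p.2).sum

theorem nuM_nil (x : ℝ) : nuM x [] = 0 := by simp [nuM]
theorem nuM_cons (x : ℝ) (p : ℤ × ℕ) (l : MS) :
    nuM x (p :: l) = (p.1 : ℝ) * x ^ p.2 + nuM x l := by simp [nuM]

def addM (p q : MS) : MS := p ++ q
def negM (p : MS) : MS := p.map fun m => (-m.1, m.2)
def mulM (p q : MS) : MS := p.flatMap fun m => q.map fun m' => (m.1 * m'.1, m.2 + m'.2)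

theorem nuM_add (x : ℝ) (p q : MS) : nuM x (addM p q) = nuM x p + nuM x q := by
  simp [nuM, addM]

theorem nuM_neg (x : ℝ) (p : MS) : nuM x (negM p) = - nuM x p := by
  induction p with
  | nil => simp [nuM, negM]
  | cons a p ih =>
    have : negM (a :: p) = (-a.1, a.2) :: negM p := rfl
    rw [this, nuM_cons, nuM_cons, ih]
    push_cast
    ring

theorem nuM_map (x : ℝ) (m : ℤ × ℕ) (q : MS) :
    nuM x (q.map fun m' => (m.1 * m'.1, m.2 + m'.2)) = (m.1 : ℝ) * x ^ m.2 * nuM x q := by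
  induction q with
  | nil => simp [nuM]
  | cons a q ih =>
    rw [List.map_cons, nuM_cons, nuM_cons, ih, pow_add]
    push_cast
    ring

theorem nuM_mul (x : ℝ) (p q : MS) : nuM x (mulM p q) = nuM x p * nuM x q := by
  induction p with
  | nil => simp [nuM, mulM]
  | cons a p ih =>
    have : mulM (a :: p) q = addM (q.map fun m' => (a.1 * m'.1, a.2 + m'.2)) (mulM p q) := rfl
    rw [this, nuM_add, ih, nuM_map, nuM_cons]
    ring

theorem nuM_one (x : ℝ) : nuM x [(1, 0)] = 1 := by simp [nuM]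

/-! ### computability -/

theorem prim_pow : Primrec₂ (fun a b : ℕ => a ^ b) := Primrec₂.unpaired'.1 Nat.Primrec.pow

theorem prim_addM : Primrec₂ addM := Primrec.list_append

theorem prim_negM : Primrec negM := by
  unfold negM
  refine Primrec.list_map Primrec.id ?_
  exact Primrec.pair (prim_int_neg.comp (Primrec.fst.comp Primrec.snd))
    (Primrec.snd.comp Primrec.snd)

theorem prim_mulM : Primrec₂ mulM := by
  unfold mulM
  refine Primrec.list_flatMap Primrec.fst ?_
  refine Primrec.list_map (Primrec.snd.comp Primrec.fst) ?_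
  have h1 : Primrec (fun q : ((MS × MS) × (ℤ × ℕ)) × (ℤ × ℕ) => q.1.2.1) :=
    Primrec.fst.comp (Primrec.snd.comp Primrec.fst)
  have h2 : Primrec (fun q : ((MS × MS) × (ℤ × ℕ)) × (ℤ × ℕ) => q.2.1) :=
    Primrec.fst.comp Primrec.snd
  have h3 : Primrec (fun q : ((MS × MS) × (ℤ × ℕ)) × (ℤ × ℕ) => q.1.2.2) :=
    Primrec.snd.comp (Primrec.snd.comp Primrec.fst)
  have h4 : Primrec (fun q : ((MS × MS) × (ℤ × ℕ)) × (ℤ × ℕ) => q.2.2) :=
    Primrec.snd.comp Primrec.snd
  exact Primrec.pair (prim_int_mul.comp h1 h2) (Primrec.nat_add.comp h3 h4)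

/-- coefficient -/
def cf (l : MS) (e : ℕ) : ℤ := l.foldr (fun p r => (if p.2 = e then p.1 else 0) + r) 0

/-- zero test -/
def zt (l : MS) : Bool := l.foldr (fun q b => decide (cf l q.2 = 0) && b) true

theorem prim_cf : Primrec₂ cf := by
  unfold cf
  refine Primrec.list_foldr (f := fun p : MS × ℕ => p.1) (g := fun _ => (0 : ℤ))
    (h := fun p q => (if q.1.2 = p.2 then q.1.1 else 0) + q.2) Primrec.fst (Primrec.const 0) ?_
  have h1 : Primrec fun r : (MS × ℕ) × ((ℤ × ℕ) × ℤ) => r.2.1.2 :=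
    Primrec.snd.comp (Primrec.fst.comp Primrec.snd)
  have h2 : Primrec fun r : (MS × ℕ) × ((ℤ × ℕ) × ℤ) => r.1.2 :=
    Primrec.snd.comp Primrec.fst
  have h3 : Primrec fun r : (MS × ℕ) × ((ℤ × ℕ) × ℤ) => r.2.1.1 :=
    Primrec.fst.comp (Primrec.fst.comp Primrec.snd)
  exact prim_int_add.comp (Primrec.ite (Primrec.eq.comp h1 h2) h3 (Primrec.const 0))
    (Primrec.snd.comp Primrec.snd)

theorem prim_zt : Primrec zt := by
  unfold zt
  refine Primrec.list_foldr (f := fun l : MS => l) (g := fun _ => true)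
    (h := fun l q => decide (cf l q.1.2 = 0) && q.2) Primrec.id (Primrec.const true) ?_
  have h1 : Primrec fun r : MS × ((ℤ × ℕ) × Bool) => cf r.1 r.2.1.2 :=
    prim_cf.comp Primrec.fst (Primrec.snd.comp (Primrec.fst.comp Primrec.snd))
  exact Primrec.and.comp (Primrec.eq.comp h1 (Primrec.const 0)).decide
    (Primrec.snd.comp Primrec.snd)

/-! ### the polynomial -/

open Polynomial in
/-- the real polynomial -/
noncomputable def QQ (l : MS) : Polynomial ℝ := (l.map fun p => C (p.1 : ℝ) * X ^ p.2).sum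

theorem eval_QQ (x : ℝ) (l : MS) : (QQ l).eval x = nuM x l := by
  unfold QQ nuM
  rw [← Polynomial.coe_evalRingHom, map_list_sum, List.map_map]
  congr 1
  apply List.map_congr_left
  intro p _
  simp

theorem coeff_QQ (l : MS) (e : ℕ) : (QQ l).coeff e = (cf l e : ℝ) := by
  induction l with
  | nil => simp [QQ, cf]
  | cons a l ih =>
    have h1 : QQ (a :: l) = Polynomial.C (a.1 : ℝ) * Polynomial.X ^ a.2 + QQ l := by simp [QQ]
    have h2 : cf (a :: l) e = (if a.2 = e then a.1 else 0) + cf l e := rfl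
    rw [h1, h2, Polynomial.coeff_add, ih, Polynomial.coeff_C_mul_X_pow]
    push_cast
    congr 1
    by_cases h : e = a.2
    · rw [if_pos h, if_pos h.symm]
    · rw [if_neg h, if_neg (fun h2 => h h2.symm)]

theorem foldr_and {α : Type} (f : α → Bool) (l : List α) :
    l.foldr (fun q b => f q && b) true = true ↔ ∀ q ∈ l, f q = true := by
  induction l with
  | nil => simp
  | cons a l ih => simp [ih]

theorem cf_of_not_mem (l : MS) (e : ℕ) (h : ∀ q ∈ l, q.2 ≠ e) : cf l e = 0 := by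
  induction l with
  | nil => rfl
  | cons a l ih =>
    have h2 : cf (a :: l) e = (if a.2 = e then a.1 else 0) + cf l e := rfl
    rw [h2, if_neg (h a (by simp)), ih (fun q hq => h q (by simp [hq])), add_zero]

theorem zt_iff (l : MS) : zt l = true ↔ QQ l = 0 := by
  unfold zt
  rw [foldr_and (fun q : ℤ × ℕ => decide (cf l q.2 = 0))]
  simp only [decide_eq_true_eq]
  constructor
  · intro h
    ext e
    rw [coeff_QQ, Polynomial.coeff_zero]
    by_cases h1 : ∃ q ∈ l, q.2 = e
    · obtain ⟨q, hq, rfl⟩ := h1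
      rw [h q hq, Int.cast_zero]
    · push Not at h1
      rw [cf_of_not_mem l e h1, Int.cast_zero]
  · intro h q _
    have h1 := coeff_QQ l q.2
    rw [h, Polynomial.coeff_zero] at h1
    exact_mod_cast h1.symm

/-! ### Lipschitz constant and approximations -/

/-- Lipschitz constant on the unit interval -/
def LL (l : MS) : ℕ := l.foldr (fun p r => (p.1.toNat + (-p.1).toNat) * p.2 + r) 0

/-- degree bound -/
def dg (l : MS) : ℕ := l.foldr (fun p r => p.2 + r) 0

/-- scaled value at `a / 2^n` -/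
def V (d : ℕ) (l : MS) (a n : ℕ) : ℤ :=
  l.foldr (fun p r => p.1 * ((a ^ p.2 * 2 ^ (n * (d - p.2)) : ℕ) : ℤ) + r) 0

theorem prim_LL : Primrec LL := by
  unfold LL
  refine Primrec.list_foldr (f := fun l : MS => l) (g := fun _ => (0 : ℕ))
    (h := fun _ q => (q.1.1.toNat + (-q.1.1).toNat) * q.1.2 + q.2) Primrec.id (Primrec.const 0) ?_
  have h1 : Primrec fun r : MS × ((ℤ × ℕ) × ℕ) => r.2.1.1 :=
    Primrec.fst.comp (Primrec.fst.comp Primrec.snd)
  have h2 : Primrec fun r : MS × ((ℤ × ℕ) × ℕ) => r.2.1.2 :=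
    Primrec.snd.comp (Primrec.fst.comp Primrec.snd)
  exact Primrec.nat_add.comp (Primrec.nat_mul.comp
    (Primrec.nat_add.comp (prim_toNat.comp h1) (prim_toNat_neg.comp h1)) h2)
    (Primrec.snd.comp Primrec.snd)

theorem prim_dg : Primrec dg := by
  unfold dg
  refine Primrec.list_foldr (f := fun l : MS => l) (g := fun _ => (0 : ℕ))
    (h := fun _ q => q.1.2 + q.2) Primrec.id (Primrec.const 0) ?_
  have h2 : Primrec fun r : MS × ((ℤ × ℕ) × ℕ) => r.2.1.2 :=
    Primrec.snd.comp (Primrec.fst.comp Primrec.snd)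
  exact Primrec.nat_add.comp h2 (Primrec.snd.comp Primrec.snd)

theorem prim_V : Primrec fun p : (ℕ × MS) × (ℕ × ℕ) => V p.1.1 p.1.2 p.2.1 p.2.2 := by
  unfold V
  refine Primrec.list_foldr (f := fun p : (ℕ × MS) × (ℕ × ℕ) => p.1.2) (g := fun _ => (0 : ℤ))
    (h := fun p q => q.1.1 * ((p.2.1 ^ q.1.2 * 2 ^ (p.2.2 * (p.1.1 - q.1.2)) : ℕ) : ℤ) + q.2)
    (Primrec.snd.comp Primrec.fst) (Primrec.const 0) ?_
  have h1 : Primrec fun r : ((ℕ × MS) × (ℕ × ℕ)) × ((ℤ × ℕ) × ℤ) => r.2.1.1 :=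
    Primrec.fst.comp (Primrec.fst.comp Primrec.snd)
  have h2 : Primrec fun r : ((ℕ × MS) × (ℕ × ℕ)) × ((ℤ × ℕ) × ℤ) => r.2.1.2 :=
    Primrec.snd.comp (Primrec.fst.comp Primrec.snd)
  have h3 : Primrec fun r : ((ℕ × MS) × (ℕ × ℕ)) × ((ℤ × ℕ) × ℤ) => r.1.2.1 :=
    Primrec.fst.comp (Primrec.snd.comp Primrec.fst)
  have h4 : Primrec fun r : ((ℕ × MS) × (ℕ × ℕ)) × ((ℤ × ℕ) × ℤ) => r.1.2.2 :=
    Primrec.snd.comp (Primrec.snd.comp Primrec.fst)
  have h5 : Primrec fun r : ((ℕ × MS) × (ℕ × ℕ)) × ((ℤ × ℕ) × ℤ) => r.1.1.1 :=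
    Primrec.fst.comp (Primrec.fst.comp Primrec.fst)
  exact prim_int_add.comp (prim_int_mul.comp h1 (prim_natCast.comp (Primrec.nat_mul.comp
    (prim_pow.comp h3 h2) (prim_pow.comp (Primrec.const 2) (Primrec.nat_mul.comp h4
      (Primrec.nat_sub.comp h5 h2)))))) (Primrec.snd.comp Primrec.snd)

theorem V_real (d : ℕ) (l : MS) (a n : ℕ) (hd : ∀ p ∈ l, p.2 ≤ d) :
    (V d l a n : ℝ) = 2 ^ (n * d) * nuM ((a : ℝ) / 2 ^ n) l := by
  induction l with
  | nil => simp [V, nuM]
  | cons q l ih =>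
    have h1 : V d (q :: l) a n = q.1 * ((a ^ q.2 * 2 ^ (n * (d - q.2)) : ℕ) : ℤ) + V d l a n := rfl
    rw [h1, nuM_cons]
    push_cast
    rw [ih (fun p hp => hd p (by simp [hp]))]
    have h2 : q.2 ≤ d := hd q (by simp)
    have h3 : (2 : ℝ) ^ (n * d) = 2 ^ (n * (d - q.2)) * (2 ^ n) ^ q.2 := by
      rw [← pow_mul, ← pow_add, ← mul_add]
      congr 2
      omega
    rw [div_pow, mul_add]
    congr 1
    rw [h3]
    have h4 : ((2 : ℝ) ^ n) ^ q.2 ≠ 0 := by positivity
    field_simp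

theorem le_dg (l : MS) : ∀ p ∈ l, p.2 ≤ dg l := by
  induction l with
  | nil => simp
  | cons q l ih =>
    have h1 : dg (q :: l) = q.2 + dg l := rfl
    intro p hp
    rw [h1]
    rcases List.mem_cons.1 hp with rfl | hp
    · omega
    · have := ih p hp
      omega

theorem pow_lip (x y : ℝ) (hx : 0 ≤ x) (hx1 : x ≤ 1) (hy : 0 ≤ y) (hy1 : y ≤ 1) (e : ℕ) :
    |x ^ e - y ^ e| ≤ e * |x - y| := by
  have h1 := abs_pow_sub_pow_le (a := x) (b := y) (n := e)
  have h2 : max |x| |y| ^ (e - 1) ≤ 1 := by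
    apply pow_le_one₀ (le_trans (abs_nonneg x) (le_max_left _ _))
    rw [abs_of_nonneg hx, abs_of_nonneg hy]
    exact max_le hx1 hy1
  calc |x ^ e - y ^ e| ≤ |x - y| * e * max |x| |y| ^ (e - 1) := h1
    _ ≤ |x - y| * e * 1 := by
        apply mul_le_mul_of_nonneg_left h2
        positivity
    _ = e * |x - y| := by ring

theorem lip (l : MS) (x y : ℝ) (hx : 0 ≤ x) (hx1 : x ≤ 1) (hy : 0 ≤ y) (hy1 : y ≤ 1) :
    |nuM x l - nuM y l| ≤ LL l * |x - y| := by
  induction l with
  | nil => simp [nuM, LL]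
  | cons q l ih =>
    have h1 : LL (q :: l) = (q.1.toNat + (-q.1).toNat) * q.2 + LL l := rfl
    rw [nuM_cons, nuM_cons, h1]
    have h2 : (q.1 : ℝ) * x ^ q.2 + nuM x l - ((q.1 : ℝ) * y ^ q.2 + nuM y l)
        = (q.1 : ℝ) * (x ^ q.2 - y ^ q.2) + (nuM x l - nuM y l) := by ring
    rw [h2]
    have h3 : |(q.1 : ℝ)| = ((q.1.toNat + (-q.1).toNat : ℕ) : ℝ) := by
      have : |q.1| = ((q.1.toNat + (-q.1).toNat : ℕ) : ℤ) := by
        rcases abs_cases q.1 with ⟨h, _⟩ | ⟨h, _⟩ <;> omega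
      rw [← Int.cast_abs, this]
      push_cast
      rfl
    calc |(q.1 : ℝ) * (x ^ q.2 - y ^ q.2) + (nuM x l - nuM y l)|
        ≤ |(q.1 : ℝ) * (x ^ q.2 - y ^ q.2)| + |nuM x l - nuM y l| := abs_add_le _ _
      _ ≤ |(q.1 : ℝ)| * (q.2 * |x - y|) + LL l * |x - y| := by
          rw [abs_mul]
          exact add_le_add (mul_le_mul_of_nonneg_left (pow_lip x y hx hx1 hy hy1 _)
            (abs_nonneg _)) ih
      _ = (((q.1.toNat + (-q.1).toNat) * q.2 + LL l : ℕ) : ℝ) * |x - y| := by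
          rw [h3]
          push_cast
          ring

/-- the left end point -/
noncomputable def xx (σ : List ℕ) : ℝ := (aa σ : ℝ) / 2 ^ σ.length

theorem aa_lt (σ : List ℕ) : aa σ < 2 ^ σ.length := by
  induction σ using List.reverseRecOn with
  | nil => simp [aa, Pool.Agent.Helper67.BN.nsum]
  | append_singleton σ v ih =>
    rw [aa_append, List.length_append, List.length_singleton, pow_succ]
    have := Nat.mod_lt v (show 0 < 2 by norm_num)
    omega

theorem xx_nonneg (σ : List ℕ) : 0 ≤ xx σ := by unfold xx; positivity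

theorem xx_le_one (σ : List ℕ) : xx σ ≤ 1 := by
  unfold xx
  rw [div_le_one (by positivity)]
  exact_mod_cast (aa_lt σ).le

theorem xx_step (σ : List ℕ) (v : ℕ) :
    2 ^ (σ.length + 1) * xx (σ ++ [v]) = 2 ^ (σ.length + 1) * xx σ + (v % 2 : ℕ) := by
  unfold xx
  rw [aa_append, List.length_append, List.length_singleton]
  push_cast
  have : (2 : ℝ) ^ σ.length ≠ 0 := by positivity
  field_simp
  ring

/-- positive sign is detected -/
def pos (l : MS) (a n : ℕ) : Bool :=
  decide ((LL l : ℤ) * ((2 ^ (n * dg l) : ℕ) : ℤ) < ((2 ^ n : ℕ) : ℤ) * V (dg l) l a n)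

theorem pos_iff (l : MS) (σ : List ℕ) : pos l (aa σ) σ.length = true ↔
    (LL l : ℝ) < 2 ^ σ.length * nuM (xx σ) l := by
  unfold pos
  rw [decide_eq_true_eq]
  have h1 := V_real (dg l) l (aa σ) σ.length (le_dg l)
  have h2 : ((LL l : ℤ) * ((2 ^ (σ.length * dg l) : ℕ) : ℤ) <
      ((2 ^ σ.length : ℕ) : ℤ) * V (dg l) l (aa σ) σ.length) ↔
      ((LL l : ℝ) * 2 ^ (σ.length * dg l) < 2 ^ σ.length * (V (dg l) l (aa σ) σ.length : ℝ)) := by
    constructor
    · intro h
      exact_mod_cast h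
    · intro h
      exact_mod_cast h
  rw [h2, h1]
  unfold xx
  have h3 : (0 : ℝ) < 2 ^ (σ.length * dg l) := by positivity
  constructor
  · intro h
    by_contra hc
    push Not at hc
    have := mul_le_mul_of_nonneg_left hc h3.le
    linarith
  · intro h
    have := mul_lt_mul_of_pos_left h h3
    linarith

theorem LL_neg (l : MS) : LL (negM l) = LL l := by
  induction l with
  | nil => rfl
  | cons q l ih =>
    have h1 : LL (q :: l) = (q.1.toNat + (-q.1).toNat) * q.2 + LL l := rfl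
    have h2 : LL (negM (q :: l)) = ((-q.1).toNat + (-(-q.1)).toNat) * q.2 + LL (negM l) := rfl
    rw [h1, h2, ih, neg_neg, add_comm (-q.1).toNat]

theorem pos_step (l : MS) (σ : List ℕ) (v : ℕ) (h : (LL l : ℝ) < 2 ^ σ.length * nuM (xx σ) l) :
    (LL l : ℝ) < 2 ^ (σ ++ [v]).length * nuM (xx (σ ++ [v])) l := by
  rw [List.length_append, List.length_singleton]
  have h1 := lip l (xx (σ ++ [v])) (xx σ) (xx_nonneg _) (xx_le_one _) (xx_nonneg _) (xx_le_one _)
  have h2 := xx_step σ v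
  have h3 : (0 : ℝ) < 2 ^ (σ.length + 1) := by positivity
  have h4 : 2 ^ (σ.length + 1) * |xx (σ ++ [v]) - xx σ| ≤ 1 := by
    have h4' : 2 ^ (σ.length + 1) * |xx (σ ++ [v]) - xx σ| =
        |2 ^ (σ.length + 1) * (xx (σ ++ [v]) - xx σ)| := by
      rw [abs_mul, abs_of_pos h3]
    rw [h4', mul_sub, h2, add_sub_cancel_left]
    have h5 : v % 2 ≤ 1 := by omega
    have h6 : ((v % 2 : ℕ) : ℝ) ≤ 1 := by exact_mod_cast h5
    rw [abs_of_nonneg (Nat.cast_nonneg _)]
    exact h6
  have h5 := (abs_le.1 h1).1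
  have h6 : (0 : ℝ) ≤ LL l := Nat.cast_nonneg _
  have h7 : 2 ^ (σ.length + 1) * ((LL l : ℝ) * |xx (σ ++ [v]) - xx σ|) ≤ LL l := by
    calc 2 ^ (σ.length + 1) * ((LL l : ℝ) * |xx (σ ++ [v]) - xx σ|)
        = (LL l : ℝ) * (2 ^ (σ.length + 1) * |xx (σ ++ [v]) - xx σ|) := by ring
      _ ≤ (LL l : ℝ) * 1 := mul_le_mul_of_nonneg_left h4 h6
      _ = LL l := mul_one _
  have h8 : 2 ^ (σ.length + 1) * (-((LL l : ℝ) * |xx (σ ++ [v]) - xx σ|)) ≤
      2 ^ (σ.length + 1) * (nuM (xx (σ ++ [v])) l - nuM (xx σ) l) :=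
    mul_le_mul_of_nonneg_left h5 h3.le
  have h9 : (2 : ℝ) ^ (σ.length + 1) = 2 * 2 ^ σ.length := by rw [pow_succ]; ring
  have h10 : 2 ^ (σ.length + 1) * nuM (xx σ) l = 2 * (2 ^ σ.length * nuM (xx σ) l) := by
    rw [h9]; ring
  linarith

theorem pos_mono (l : MS) {σ τ : List ℕ} (hst : σ <+: τ)
    (h : pos l (aa σ) σ.length = true) : pos l (aa τ) τ.length = true := by
  rw [pos_iff] at h ⊢
  exact prefix_induction (P := fun τ => (LL l : ℝ) < 2 ^ τ.length * nuM (xx τ) l) hst h
    (fun ρ v hρ => pos_step l ρ v hρ)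

theorem al_le_one : al ≤ 1 := by
  have := le_ak 0
  simpa [ak_zero] using this

theorem xx_seg (n : ℕ) : 2 ^ n * xx (seg A n) = ak n := by
  unfold xx
  rw [aa_seg, length_seg]
  field_simp

theorem pos_al (l : MS) (n : ℕ) (h : pos l (aa (seg A n)) (seg A n).length = true) :
    0 < nuM al l := by
  rw [pos_iff, length_seg] at h
  have h1 := lip l al (xx (seg A n)) al_nonneg al_le_one (xx_nonneg _) (xx_le_one _)
  have h2 := ak_le n
  have h3 := le_ak n
  have h4 := xx_seg n
  have h5 : (0 : ℝ) < 2 ^ n := by positivity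
  have h6 : 2 ^ n * |al - xx (seg A n)| ≤ 1 := by
    have h6' : 2 ^ n * |al - xx (seg A n)| = |2 ^ n * (al - xx (seg A n))| := by
      rw [abs_mul, abs_of_pos h5]
    rw [h6', mul_sub, h4, abs_le]
    constructor <;> linarith
  have h7 : 2 ^ n * ((LL l : ℝ) * |al - xx (seg A n)|) ≤ LL l := by
    calc 2 ^ n * ((LL l : ℝ) * |al - xx (seg A n)|)
        = (LL l : ℝ) * (2 ^ n * |al - xx (seg A n)|) := by ring
      _ ≤ (LL l : ℝ) * 1 := mul_le_mul_of_nonneg_left h6 (Nat.cast_nonneg _)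
      _ = LL l := mul_one _
  have h8 := (abs_le.1 h1).1
  have h9 := mul_le_mul_of_nonneg_left h8 h5.le
  have h10 : 0 < 2 ^ n * nuM al l := by linarith
  by_contra hc
  push Not at hc
  have := mul_nonpos_of_nonneg_of_nonpos h5.le hc
  linarith

/-! ### density -/

theorem aa_zeros (σ : List ℕ) (t : ℕ) : aa (σ ++ List.replicate t 0) = aa σ * 2 ^ t := by
  induction t with
  | zero => simp
  | succ t ih =>
    rw [List.replicate_succ', ← List.append_assoc, aa_append, ih, pow_succ]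
    ring

theorem aa_ones (σ : List ℕ) (t : ℕ) : aa (σ ++ List.replicate t 1) + 1 = (aa σ + 1) * 2 ^ t := by
  induction t with
  | zero => simp
  | succ t ih =>
    rw [List.replicate_succ', ← List.append_assoc, aa_append, pow_succ, ← mul_assoc, ← ih]
    omega

theorem xx_zeros (σ : List ℕ) (t : ℕ) : xx (σ ++ List.replicate t 0) = xx σ := by
  unfold xx
  rw [aa_zeros, List.length_append, List.length_replicate, pow_add]
  push_cast
  have : (2 : ℝ) ^ t ≠ 0 := by positivity
  have : (2 : ℝ) ^ σ.length ≠ 0 := by positivity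
  field_simp

theorem xx_ones_inj (σ : List ℕ) : Function.Injective fun t => xx (σ ++ List.replicate t 1) := by
  intro s t h
  simp only at h
  have key : ∀ t, xx (σ ++ List.replicate t 1) = ((aa σ : ℝ) + 1) / 2 ^ σ.length -
      1 / (2 ^ σ.length * 2 ^ t) := by
    intro t
    unfold xx
    have h1 := aa_ones σ t
    have h2 : (aa (σ ++ List.replicate t 1) : ℝ) = (aa σ + 1) * 2 ^ t - 1 := by
      have : ((aa (σ ++ List.replicate t 1) + 1 : ℕ) : ℝ) = (((aa σ + 1) * 2 ^ t : ℕ) : ℝ) := by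
        rw [h1]
      push_cast at this
      linarith
    rw [h2, List.length_append, List.length_replicate, pow_add]
    have : (2 : ℝ) ^ t ≠ 0 := by positivity
    have : (2 : ℝ) ^ σ.length ≠ 0 := by positivity
    field_simp
  rw [key, key] at h
  have h1 : (1 : ℝ) / (2 ^ σ.length * 2 ^ s) = 1 / (2 ^ σ.length * 2 ^ t) := by linarith
  have h2 : (2 : ℝ) ^ σ.length * 2 ^ s = 2 ^ σ.length * 2 ^ t := by
    have := congrArg (fun x : ℝ => 1 / x) h1
    simpa using this
  have h3 : (2 : ℝ) ^ s = 2 ^ t := by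
    have : (2 : ℝ) ^ σ.length ≠ 0 := by positivity
    exact mul_left_cancel₀ this h2
  exact pow_right_injective₀ (by norm_num) (by norm_num) h3

theorem dense (l : MS) (hl : zt l = false) (σ : List ℕ) : ∃ τ, σ <+: τ ∧
    (pos l (aa τ) τ.length || pos (negM l) (aa τ) τ.length) = true := by
  have h0 : QQ l ≠ 0 := by
    intro h
    rw [← zt_iff, hl] at h
    simp at h
  obtain ⟨t, ht⟩ : ∃ t, nuM (xx (σ ++ List.replicate t 1)) l ≠ 0 := by
    by_contra hc
    push Not at hc
    apply h0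
    apply Polynomial.eq_zero_of_infinite_isRoot
    refine Set.Infinite.mono (s := Set.range fun t => xx (σ ++ List.replicate t 1)) ?_
      (Set.infinite_range_of_injective (xx_ones_inj σ))
    rintro _ ⟨t, rfl⟩
    show Polynomial.IsRoot _ _
    rw [Polynomial.IsRoot, eval_QQ]
    exact hc t
  obtain ⟨ρ, hρ⟩ : ∃ ρ, ρ = σ ++ List.replicate t 1 := ⟨_, rfl⟩
  rw [← hρ] at ht
  obtain ⟨s, hs⟩ : ∃ s : ℕ, (LL l : ℝ) < 2 ^ s * |nuM (xx ρ) l| := by
    obtain ⟨s, hs⟩ := pow_unbounded_of_one_lt ((LL l : ℝ) / |nuM (xx ρ) l|) (by norm_num :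
      (1 : ℝ) < 2)
    exact ⟨s, (div_lt_iff₀ (abs_pos.2 ht)).1 hs⟩
  refine ⟨ρ ++ List.replicate s 0, ?_, ?_⟩
  · rw [hρ, List.append_assoc]
    exact List.prefix_append _ _
  · rw [Bool.or_eq_true, pos_iff, pos_iff, xx_zeros, nuM_neg, LL_neg, List.length_append,
      List.length_replicate]
    have h1 : (2 : ℝ) ^ s ≤ 2 ^ (ρ.length + s) :=
      pow_le_pow_right₀ (by norm_num) (by omega)
    rcases lt_or_gt_of_ne ht with h | h
    · right
      rw [abs_of_neg h] at hs
      have := mul_le_mul_of_nonneg_right h1 (by linarith : 0 ≤ -nuM (xx ρ) l)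
      linarith
    · left
      rw [abs_of_pos h] at hs
      have := mul_le_mul_of_nonneg_right h1 h.le
      linarith

theorem prim_pos : Primrec fun p : MS × (ℕ × ℕ) => pos p.1 p.2.1 p.2.2 := by
  have hl : Primrec fun p : MS × (ℕ × ℕ) => p.1 := Primrec.fst
  have ha : Primrec fun p : MS × (ℕ × ℕ) => p.2.1 := Primrec.fst.comp Primrec.snd
  have hn : Primrec fun p : MS × (ℕ × ℕ) => p.2.2 := Primrec.snd.comp Primrec.snd
  have h1 : Primrec fun p : MS × (ℕ × ℕ) => dg p.1 := prim_dg.comp hl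
  have h2 : Primrec fun p : MS × (ℕ × ℕ) => LL p.1 := prim_LL.comp hl
  have h3 : Primrec fun p : MS × (ℕ × ℕ) => V (dg p.1) p.1 p.2.1 p.2.2 :=
    prim_V.comp (Primrec.pair (Primrec.pair h1 hl) (Primrec.pair ha hn))
  have h4 : Primrec fun p : MS × (ℕ × ℕ) => 2 ^ (p.2.2 * dg p.1) :=
    prim_pow.comp (Primrec.const 2) (Primrec.nat_mul.comp hn h1)
  have h5 : Primrec fun p : MS × (ℕ × ℕ) => 2 ^ p.2.2 := prim_pow.comp (Primrec.const 2) hn
  have h6 : Primrec fun p : MS × (ℕ × ℕ) => (LL p.1 : ℤ) * ((2 ^ (p.2.2 * dg p.1) : ℕ) : ℤ) :=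
    prim_int_mul.comp (prim_natCast.comp h2) (prim_natCast.comp h4)
  have h7 : Primrec fun p : MS × (ℕ × ℕ) =>
      ((2 ^ p.2.2 : ℕ) : ℤ) * V (dg p.1) p.1 p.2.1 p.2.2 :=
    prim_int_mul.comp (prim_natCast.comp h5) h3
  exact (prim_int_lt.comp h6 h7).decide

theorem cpos {α : Type} [Primcodable α] {O : Set (ℕ →. ℕ)} {l : α → MS} {a n : α → ℕ}
    (hl : ComputableIn O l) (ha : ComputableIn O a) (hn : ComputableIn O n) :
    ComputableIn O fun x => pos (l x) (a x) (n x) :=
  ci_compC (f := fun p : MS × (ℕ × ℕ) => pos p.1 p.2.1 p.2.2)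
    (g := fun x => (l x, (a x, n x))) prim_pos.to_comp (ci_pair hl (ci_pair ha hn))

/-- approximation of the truth value of `0 ≤ nuM al l` -/
def sg (l : MS) (σ : List ℕ) : Option ℕ :=
  bif zt l || pos l (aa σ) σ.length then some 1 else
    bif pos (negM l) (aa σ) σ.length then some 0 else none

theorem csg {α : Type} [Primcodable α] {O : Set (ℕ →. ℕ)} {l : α → MS} {σ : α → List ℕ}
    (hl : ComputableIn O l) (hσ : ComputableIn O σ) :
    ComputableIn O fun x => sg (l x) (σ x) := by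
  have h1 : ComputableIn O fun x => negM (l x) := ci_compC prim_negM.to_comp hl
  exact ccond (cor (ci_compC prim_zt.to_comp hl) (cpos hl (caa hσ) (clen hσ)))
    (cconst (some 1)) (ccond (cpos h1 (caa hσ) (clen hσ)) (cconst (some 0)) (cconst none))

theorem not_pos_neg (l : MS) (σ : List ℕ) (h1 : pos l (aa σ) σ.length = true)
    (h2 : pos (negM l) (aa σ) σ.length = true) : False := by
  rw [pos_iff] at h1 h2
  rw [nuM_neg, LL_neg] at h2
  have : (0 : ℝ) ≤ LL l := Nat.cast_nonneg _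
  linarith

theorem sg_mono (l : MS) {σ τ : List ℕ} (h : σ <+: τ) {v : ℕ} (hv : sg l σ = some v) :
    sg l τ = some v := by
  unfold sg at hv ⊢
  cases hz : zt l with
  | true =>
    rw [hz] at hv
    simpa using hv
  | false =>
    rw [hz] at hv
    simp only [Bool.false_or] at hv ⊢
    cases h1 : pos l (aa σ) σ.length with
    | true =>
      rw [h1, cond_true] at hv
      rw [pos_mono l h h1, cond_true]
      exact hv
    | false =>
      rw [h1, cond_false] at hv
      cases h2 : pos (negM l) (aa σ) σ.length with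
      | false =>
        rw [h2] at hv
        simp at hv
      | true =>
        rw [h2, cond_true] at hv
        have h3 := pos_mono (negM l) h h2
        have h4 : pos l (aa τ) τ.length = false := by
          rw [← Bool.not_eq_true]
          intro h4
          exact not_pos_neg l τ h4 h3
        rw [h4, h3, cond_false, cond_true]
        exact hv

theorem nuM_of_zt (l : MS) (h : zt l = true) (x : ℝ) : nuM x l = 0 := by
  rw [zt_iff] at h
  rw [← eval_QQ, h, Polynomial.eval_zero]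

theorem decided (l : MS) (hl : zt l = false) : ∃ n,
    (pos l (aa (seg A n)) (seg A n).length || pos (negM l) (aa (seg A n)) (seg A n).length)
      = true := by
  refine meets (w := fun σ => pos l (aa σ) σ.length || pos (negM l) (aa σ) σ.length) ?_ ?_
    (dense l hl)
  · apply computable_of_ci
    have h1 : ComputableIn ∅ fun σ : List ℕ => σ := ComputableIn.id
    exact cor (cpos (cconst l) (caa h1) (clen h1)) (cpos (cconst (negM l)) (caa h1) (clen h1))
  · intro σ τ hst h
    simp only [Bool.or_eq_true] at h ⊢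
    exact h.imp (pos_mono _ hst) (pos_mono _ hst)

theorem zt_al (l : MS) : zt l = true ↔ nuM al l = 0 := by
  constructor
  · intro h
    exact nuM_of_zt l h al
  · intro h
    by_contra hc
    rw [Bool.not_eq_true] at hc
    obtain ⟨n, hn⟩ := decided l hc
    rw [Bool.or_eq_true] at hn
    rcases hn with hn | hn
    · have := pos_al l n hn
      linarith
    · have := pos_al _ n hn
      rw [nuM_neg] at this
      linarith

open Classical in
theorem sg_total (l : MS) : ∃ k, sg l (seg A k) = some (if 0 ≤ nuM al l then 1 else 0) := by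
  cases hz : zt l with
  | true =>
    refine ⟨0, ?_⟩
    rw [if_pos (by rw [nuM_of_zt l hz]), sg, hz, Bool.true_or, cond_true]
  | false =>
    obtain ⟨n, hn⟩ := decided l hz
    refine ⟨n, ?_⟩
    rw [Bool.or_eq_true] at hn
    unfold sg
    rw [hz, Bool.false_or]
    rcases hn with hn | hn
    · rw [hn, cond_true, if_pos (pos_al l n hn).le]
    · have h1 : pos l (aa (seg A n)) (seg A n).length = false := by
        rw [← Bool.not_eq_true]
        intro h4
        exact not_pos_neg l _ h4 hn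
      have h2 := pos_al _ n hn
      rw [nuM_neg] at h2
      rw [h1, hn, cond_false, cond_true, if_neg (by linarith)]

end Pool.Agent.H626R2.PolyReal
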