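import Mathlib
import Pool.Agent.H626R2.PolyReal
import Pool.Agent.H696R2.FR.Frac
import Pool.Agent.Results.MP_738f0f_lc.Equality

/-!
# A computable presentation of `ℚ(al)` whose order has computable approximations;
the limit lemma.
-/

set_option autoImplicit false

namespace Pool.Agent.H626R2.FieldPres

open Pool.Agent.Helper223 (exists_field_numbering)
open Pool.Agent.H626R2.Low Pool.Agent.H626R2.LowReal Pool.Agent.H626R2.IntPrim
  Pool.Agent.H626R2.PolyReal
open Pool.Agent.Helper67.BN (seg seg_prefix use_principle ci_comp ci_pair ci_comp₂ ci_compC ci_fst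
  ci_snd ci_nat_rec computable_of_ci cand cor cnot cpair ind cind
  ceqN clt cle cadd csub cmul cconst ccond clen cunl cunr)

section

variable {A : Type} (ν : A → ℝ) (add mul : A → A → A) (neg : A → A) (z o : A)
  (cadd : ∀ x y, ν (add x y) = ν x + ν y) (cmul : ∀ x y, ν (mul x y) = ν x * ν y)
  (cneg : ∀ x, ν (neg x) = - ν x) (cz : ν z = 0) (co : ν o = 1)

variable [Primcodable A] [Inhabited A]
  (hadd : Computable₂ add) (hmul : Computable₂ mul) (hneg : Computable neg)
  (zt : A → Bool) (hzt : Computable zt) (czt : ∀ x, zt x = true ↔ ν x = 0)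

include cadd cmul cneg cz co hadd hmul hneg hzt czt in
/-- Fractions over a computably numbered domain with zero test form a computable field
(adapted from `Pool.Agent.H696R2.FR.exists_frac_presentation`, helper696). -/
theorem exists_frac_presentation' : ∃ F : Subfield ℝ, (∀ a, ν a ∈ F) ∧
    ∃ (e : ℕ ≃ F) (u : ℕ → A × A), Computable u ∧
      (∀ n, ((e n : F) : ℝ) = ν (u n).1 / ν (u n).2) ∧
      Computable₂ (fun a b : ℕ => e.symm (e a + e b)) ∧
      Computable₂ (fun a b : ℕ => e.symm (e a * e b)) := by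
  obtain ⟨F, hF⟩ := Pool.Agent.H696R2.FR.exists_frac_field ν add mul neg z o cadd cmul cneg cz co
  refine ⟨F, fun a => (hF _).2 ⟨a, o, by rw [co, div_one]⟩, ?_⟩
  let c : A × A → F := fun p => ⟨ν p.1 / ν p.2, (hF _).2 ⟨p.1, p.2, rfl⟩⟩
  have hsurj : Function.Surjective c := by
    rintro ⟨x, hx⟩
    obtain ⟨a, b, rfl⟩ := (hF _).1 hx
    exact ⟨(a, b), rfl⟩
  have : Infinite F := Infinite.of_injective (fun n : ℕ => (n : F)) Nat.cast_injective
  -- operations on notations
  let fadd : A × A → A × A → A × A := fun p q =>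
    cond (zt p.2) q (cond (zt q.2) p (add (mul p.1 q.2) (mul p.2 q.1), mul p.2 q.2))
  let fmul : A × A → A × A → A × A := fun p q => (mul p.1 q.1, mul p.2 q.2)
  let fneg : A × A → A × A := fun p => (neg p.1, p.2)
  let finv : A × A → A × A := fun p => (p.2, p.1)
  let feq : A × A → A × A → Bool := fun p q =>
    cond (zt p.2) (zt q.1 || zt q.2) (cond (zt q.2) (zt p.1)
      (zt (add (mul p.1 q.2) (neg (mul q.1 p.2)))))
  have p11 : Computable (fun r : (A × A) × (A × A) => r.1.1) :=
    Computable.fst.comp Computable.fst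
  have p12 : Computable (fun r : (A × A) × (A × A) => r.1.2) :=
    Computable.snd.comp Computable.fst
  have p21 : Computable (fun r : (A × A) × (A × A) => r.2.1) :=
    Computable.fst.comp Computable.snd
  have p22 : Computable (fun r : (A × A) × (A × A) => r.2.2) :=
    Computable.snd.comp Computable.snd
  have hfadd : Computable₂ fadd := by
    refine Computable.cond (hzt.comp p12) Computable.snd ?_
    refine Computable.cond (hzt.comp p22) Computable.fst ?_
    exact Computable.pair (hadd.comp (hmul.comp p11 p22) (hmul.comp p12 p21)) (hmul.comp p12 p22)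
  have hfmul : Computable₂ fmul :=
    Computable.pair (hmul.comp p11 p21) (hmul.comp p12 p22)
  have hfneg : Computable fneg := Computable.pair (hneg.comp Computable.fst) Computable.snd
  have hfinv : Computable finv := Computable.pair Computable.snd Computable.fst
  have hfeq : Computable₂ feq := by
    refine Computable.cond (hzt.comp p12) ?_ ?_
    · exact (Primrec.or.to_comp).comp (hzt.comp p21) (hzt.comp p22)
    · refine Computable.cond (hzt.comp p22) (hzt.comp p11) ?_
      exact hzt.comp (hadd.comp (hmul.comp p11 p22) (hneg.comp (hmul.comp p21 p12)))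
  have ztf : ∀ x, zt x = false ↔ ν x ≠ 0 := by
    intro x
    rw [Ne, ← czt, Bool.not_eq_true]
  have hA : ∀ p q, c (fadd p q) = c p + c q := by
    intro p q
    apply Subtype.ext
    show ν (fadd p q).1 / ν (fadd p q).2 = ν p.1 / ν p.2 + ν q.1 / ν q.2
    by_cases hp : ν p.2 = 0
    · simp only [fadd, (czt p.2).2 hp, cond_true, hp, div_zero, zero_add]
    · by_cases hq : ν q.2 = 0
      · simp only [fadd, (ztf p.2).2 hp, (czt q.2).2 hq, cond_true, cond_false, hq, div_zero,
          add_zero]
      · simp only [fadd, (ztf p.2).2 hp, (ztf q.2).2 hq, cond_false]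
        rw [cadd, cmul, cmul, cmul, div_add_div _ _ hp hq]
  have hM : ∀ p q, c (fmul p q) = c p * c q := by
    intro p q
    apply Subtype.ext
    show ν (mul p.1 q.1) / ν (mul p.2 q.2) = ν p.1 / ν p.2 * (ν q.1 / ν q.2)
    rw [cmul, cmul, div_mul_div_comm]
  have hN : ∀ p, c (fneg p) = - c p := by
    intro p
    apply Subtype.ext
    show ν (neg p.1) / ν p.2 = - (ν p.1 / ν p.2)
    rw [cneg, neg_div]
  have hI : ∀ p, c (finv p) = (c p)⁻¹ := by
    intro p
    apply Subtype.ext
    show ν p.2 / ν p.1 = (ν p.1 / ν p.2)⁻¹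
    rw [inv_div]
  have hE : ∀ p q, feq p q = true ↔ c p = c q := by
    intro p q
    have hceq : c p = c q ↔ ν p.1 / ν p.2 = ν q.1 / ν q.2 := Subtype.ext_iff
    rw [hceq]
    by_cases hp : ν p.2 = 0
    · simp only [feq, (czt p.2).2 hp, cond_true, hp, div_zero, Bool.or_eq_true, czt]
      constructor
      · rintro (h | h) <;> simp [h]
      · intro h
        rcases div_eq_zero_iff.1 h.symm with h | h
        · exact Or.inl h
        · exact Or.inr h
    · by_cases hq : ν q.2 = 0
      · simp only [feq, (ztf p.2).2 hp, (czt q.2).2 hq, cond_true, cond_false, hq, div_zero, czt]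
        constructor
        · intro h; simp [h]
        · intro h
          rcases div_eq_zero_iff.1 h with h | h
          · exact h
          · exact absurd h hp
      · simp only [feq, (ztf p.2).2 hp, (ztf q.2).2 hq, cond_false, czt]
        rw [cadd, cneg, cmul, cmul, div_eq_div_iff hp hq]
        constructor
        · intro h; linarith
        · intro h; linarith
  obtain ⟨e, u, v, hu, -, hu2, -, h1, h2, h3, h4⟩ :=
    exists_field_numbering c hsurj fadd fmul fneg finv hfadd hfmul hfneg hfinv hA hM hN hI feq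
      hfeq hE
  exact ⟨e, u, hu, fun n => by rw [hu2 n], h1, h2⟩

end

/-- difference of two fractions -/
def dif (p q : MS × MS) : MS × MS :=
  bif zt p.2 then (negM q.1, q.2) else bif zt q.2 then p else
    (addM (mulM p.1 q.2) (negM (mulM p.2 q.1)), mulM p.2 q.2)

theorem cdif : Computable₂ dif := by
  have p1 : Computable (fun r : (MS × MS) × (MS × MS) => r.1) := Computable.fst
  have p11 : Computable (fun r : (MS × MS) × (MS × MS) => r.1.1) :=
    Computable.fst.comp Computable.fst
  have p12 : Computable (fun r : (MS × MS) × (MS × MS) => r.1.2) :=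
    Computable.snd.comp Computable.fst
  have p21 : Computable (fun r : (MS × MS) × (MS × MS) => r.2.1) :=
    Computable.fst.comp Computable.snd
  have p22 : Computable (fun r : (MS × MS) × (MS × MS) => r.2.2) :=
    Computable.snd.comp Computable.snd
  have hm := prim_mulM.to_comp
  refine Computable.cond (prim_zt.to_comp.comp p12)
    (Computable.pair (prim_negM.to_comp.comp p21) p22) ?_
  refine Computable.cond (prim_zt.to_comp.comp p22) p1 ?_
  exact Computable.pair (prim_addM.to_comp.comp (hm.comp p11 p22)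
    (prim_negM.to_comp.comp (hm.comp p12 p21))) (hm.comp p12 p22)

/-- the difference, as a polynomial with the same sign -/
def sp (p q : MS × MS) : MS := mulM (dif p q).1 (dif p q).2

theorem csp {α : Type} [Primcodable α] {O : Set (ℕ →. ℕ)} {p q : α → MS × MS}
    (hp : ComputableIn O p) (hq : ComputableIn O q) : ComputableIn O fun a => sp (p a) (q a) := by
  have h1 : ComputableIn O fun a => dif (p a) (q a) := ci_comp₂ cdif hp hq
  have h2 : ComputableIn O fun a => (dif (p a) (q a)).1 := ci_comp ci_fst h1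
  have h3 : ComputableIn O fun a => (dif (p a) (q a)).2 := ci_comp ci_snd h1
  exact ci_comp₂ (f := mulM) prim_mulM.to_comp h2 h3

theorem sp_iff (p q : MS × MS) : 0 ≤ nuM al (sp p q) ↔
    nuM al q.1 / nuM al q.2 ≤ nuM al p.1 / nuM al p.2 := by
  have h1 : nuM al (dif p q).1 / nuM al (dif p q).2 =
      nuM al p.1 / nuM al p.2 - nuM al q.1 / nuM al q.2 := by
    unfold dif
    cases hp : zt p.2 with
    | true =>
      rw [zt_al] at hp
      simp only [cond_true]
      rw [hp, nuM_neg]
      ring
    | false =>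
      cases hq : zt q.2 with
      | true =>
        rw [zt_al] at hq
        simp only [cond_true, cond_false]
        rw [hq]
        ring
      | false =>
        have hp' : nuM al p.2 ≠ 0 := by
          rw [Ne, ← zt_al, hp]
          simp
        have hq' : nuM al q.2 ≠ 0 := by
          rw [Ne, ← zt_al, hq]
          simp
        simp only [cond_false]
        rw [nuM_add, nuM_neg, nuM_mul, nuM_mul, nuM_mul]
        field_simp
        ring
  rw [← sub_nonneg (b := nuM al q.1 / nuM al q.2), ← h1]
  unfold sp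
  rw [nuM_mul]
  by_cases h2 : nuM al (dif p q).2 = 0
  · rw [h2]
    simp
  · have h3 : 0 < nuM al (dif p q).2 * nuM al (dif p q).2 := by
      rcases lt_or_gt_of_ne h2 with h | h
      · exact mul_pos_of_neg_of_neg h h
      · exact mul_pos h h
    have h4 : nuM al (dif p q).1 / nuM al (dif p q).2 =
        (nuM al (dif p q).1 * nuM al (dif p q).2) / (nuM al (dif p q).2 * nuM al (dif p q).2) := by
      field_simp
    rw [h4]
    constructor
    · intro h
      exact div_nonneg h h3.le
    · intro h
      by_contra hc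
      push Not at hc
      have := div_neg_of_neg_of_pos hc h3
      linarith

/-- approximations to the order of the presentation -/
def Dd (u : ℕ → MS × MS) (σ : List ℕ) (k : ℕ) : Option ℕ :=
  (sg (sp (u (Nat.unpair k).1) (u (Nat.unpair k).2)) σ).map fun v => 1 - v

theorem cDd {u : ℕ → MS × MS} (hu : Computable u) : Computable₂ (Dd u) := by
  apply computable_of_ci (f := fun p : List ℕ × ℕ => Dd u p.1 p.2)
  have hk : ComputableIn ∅ fun p : List ℕ × ℕ => p.2 := ci_snd
  have h1 : ComputableIn ∅ fun p : List ℕ × ℕ => u (Nat.unpair p.2).1 := ci_compC hu (cunl hk)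
  have h2 : ComputableIn ∅ fun p : List ℕ × ℕ => u (Nat.unpair p.2).2 := ci_compC hu (cunr hk)
  have h3 : Computable fun o : Option ℕ => o.map fun v => 1 - v :=
    (Primrec.option_map (f := fun o : Option ℕ => o) (g := fun _ v => 1 - v) Primrec.id
      (Primrec.nat_sub.comp (Primrec.const 1) Primrec.snd)).to_comp
  exact ci_compC h3 (csg (csp h1 h2) ci_fst)

theorem Dd_mono {u : ℕ → MS × MS} (σ τ : List ℕ) (k v : ℕ) (hst : σ <+: τ)
    (h : Dd u σ k = Option.some v) : Dd u τ k = Option.some v := by
  unfold Dd at h ⊢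
  rw [Option.map_eq_some_iff] at h ⊢
  obtain ⟨a, h1, h2⟩ := h
  exact ⟨a, sg_mono _ hst h1, h2⟩

open Classical in
theorem Dd_total {F : Subfield ℝ} {e : ℕ ≃ F} {u : ℕ → MS × MS}
    (hu : ∀ n, ((e n : F) : ℝ) = nuM al (u n).1 / nuM al (u n).2) (k : ℕ) :
    ∃ n, Dd u (seg A n) k =
      Option.some (if (e (Nat.unpair k).1 : ℝ) < e (Nat.unpair k).2 then 1 else 0) := by
  obtain ⟨n, hn⟩ := sg_total (sp (u (Nat.unpair k).1) (u (Nat.unpair k).2))
  refine ⟨n, ?_⟩
  unfold Dd
  rw [hn, Option.map_some]
  congr 1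
  have h1 := sp_iff (u (Nat.unpair k).1) (u (Nat.unpair k).2)
  rw [← hu, ← hu] at h1
  by_cases h2 : (e (Nat.unpair k).1 : ℝ) < e (Nat.unpair k).2
  · rw [if_pos h2, if_neg (by rw [h1]; exact not_le.2 h2)]
  · rw [if_neg h2, if_pos (by rw [h1]; exact not_lt.1 h2)]

/-! ### The limit lemma -/

theorem search_dom {g : ℕ → ℕ → Bool} (hg : Computable₂ g) : ∃ k : ℕ → ℕ → ℕ, Computable₂ k ∧
    ∀ n s₀, (Nat.Partrec.Code.eval (Denumerable.ofNat Nat.Partrec.Code (k n s₀)) (k n s₀)).Dom ↔
      ∃ s, s₀ ≤ s ∧ g n s ≠ g n s₀ := by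
  have h1 : Partrec fun z : ℕ => Nat.rfind fun s =>
      (Part.some (decide ((Nat.unpair (Nat.unpair z).1).2 ≤ s) &&
        !(decide (g (Nat.unpair (Nat.unpair z).1).1 s =
          g (Nat.unpair (Nat.unpair z).1).1 (Nat.unpair (Nat.unpair z).1).2))) : Part Bool) := by
    refine Partrec.rfind ?_
    have hz : ComputableIn ∅ fun p : ℕ × ℕ => p.1 := ci_fst
    have h2 : Computable fun p : ℕ × ℕ => (decide ((Nat.unpair (Nat.unpair p.1).1).2 ≤ p.2) &&
        !(decide (g (Nat.unpair (Nat.unpair p.1).1).1 p.2 =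
          g (Nat.unpair (Nat.unpair p.1).1).1 (Nat.unpair (Nat.unpair p.1).1).2))) := by
      apply computable_of_ci
      have h3 := cunl (cunl hz)
      have h4 := cunr (cunl hz)
      exact cand (cle h4 ci_snd) (cnot (Pool.Agent.Helper67.BN.ceqB (ci_comp₂ hg h3 ci_snd)
        (ci_comp₂ hg h3 h4)))
    exact h2.partrec
  obtain ⟨c, hc⟩ := Nat.Partrec.Code.exists_code.1 (Partrec.nat_iff.1 h1)
  refine ⟨fun n s₀ => Encodable.encode (Nat.Partrec.Code.curry c (Nat.pair n s₀)), ?_, ?_⟩
  · exact (Primrec.encode.comp (Nat.Partrec.Code.primrec₂_curry.comp (Primrec.const c)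
      Primrec₂.natPair)).to_comp
  · intro n s₀
    rw [Denumerable.ofNat_encode, Nat.Partrec.Code.eval_curry, hc]
    simp only [Nat.unpair_pair]
    rw [Nat.rfind_dom]
    constructor
    · rintro ⟨s, hs, -⟩
      simp only [Part.mem_some_iff] at hs
      have hs' := hs.symm
      rw [Bool.and_eq_true, Bool.not_eq_true', decide_eq_true_eq, decide_eq_false_iff_not] at hs'
      exact ⟨s, hs'.1, hs'.2⟩
    · rintro ⟨s, hs1, hs2⟩
      refine ⟨s, ?_, fun {m} _ => by simp⟩
      simp [hs1, hs2]

/-- characteristic function of a set, as an oracle -/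
noncomputable def chi (X : Set ℕ) : ℕ →. ℕ := by
  classical exact fun n => Part.some (if n ∈ X then 1 else 0)

/-- the halting problem -/
def HP : Set ℕ :=
  {e | (Nat.Partrec.Code.eval (Denumerable.ofNat Nat.Partrec.Code e) e).Dom}

theorem ci_chi (X : Set ℕ) : ∃ x : ℕ → Bool, ComputableIn {chi X} x ∧ ∀ n, x n = true ↔ n ∈ X := by
  classical
  have h1 : RecursiveIn {chi X} (chi X) := RecursiveIn.oracle _ (by simp)
  have h2 : ComputableIn {chi X} fun n : ℕ => if n ∈ X then 1 else 0 := by
    unfold chi at h1 ⊢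
    exact h1
  refine ⟨fun n => decide ((if n ∈ X then 1 else 0) = 1), ceqN h2 (cconst 1), fun n => ?_⟩
  by_cases h : n ∈ X <;> simp [h]

theorem chi_of_ci {X : Set ℕ} {O : Set (ℕ →. ℕ)} {x : ℕ → Bool} (hx : ComputableIn O x)
    (h : ∀ n, x n = true ↔ n ∈ X) : RecursiveIn O (chi X) := by
  classical
  have h1 : ComputableIn O fun n => ind (x n) := cind hx
  have h2 : chi X = fun n => Part.some (ind (x n)) := by
    funext n
    unfold chi
    congr 1
    by_cases h3 : n ∈ X
    · rw [if_pos h3, (h n).2 h3]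
      rfl
    · have h4 : x n = false := by
        rw [← Bool.not_eq_true, h]
        exact h3
      rw [if_neg h3, h4]
      rfl
  rw [h2]
  exact h1

/-- the limit lemma: limit computable sets are computable in the halting problem -/
theorem limit_le {S : Set ℕ} {g : ℕ → ℕ → Bool} (hg : Computable₂ g)
    (h : ∀ n, ∀ᶠ s in Filter.atTop, (g n s = true ↔ n ∈ S)) :
    TuringReducible (chi S) (chi HP) := by
  obtain ⟨k, hk, hk2⟩ := search_dom hg
  obtain ⟨x, hx, hx2⟩ := ci_chi HP
  obtain ⟨F, hF, hF2⟩ := Pool.Agent.Results.MP_738f0f_lc.Equality.ci_search (O := {chi HP})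
    (q := fun n s₀ => !(x (k n s₀)))
    (cnot (ci_comp (f := x) hx (hk.computableIn))) (by
      intro n
      have h1 := h n
      rw [Filter.eventually_atTop] at h1
      obtain ⟨s₀, h2⟩ := h1
      refine ⟨s₀, ?_⟩
      rw [Bool.not_eq_true', ← Bool.not_eq_true, hx2]
      intro h3
      obtain ⟨s, h4, h5⟩ := (hk2 n s₀).1 h3
      apply h5
      have h6 := h2 s h4
      have h7 := h2 s₀ le_rfl
      rw [Bool.eq_iff_iff, h6, h7])
  have hgF : ComputableIn {chi HP} fun n => g n (F n) := ci_comp₂ hg ComputableIn.id hF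
  refine chi_of_ci hgF fun n => ?_
  have h1 := hF2 n
  rw [Bool.not_eq_true', ← Bool.not_eq_true, hx2] at h1
  have h2 := h n
  rw [Filter.eventually_atTop] at h2
  obtain ⟨s₀, h3⟩ := h2
  have h4 := h3 (max s₀ (F n)) (le_max_left _ _)
  have h5 : g n (max s₀ (F n)) = g n (F n) := by
    by_contra hc
    exact h1 ((hk2 n (F n)).2 ⟨_, le_max_right _ _, hc⟩)
  rw [← h5]
  exact h4

end Pool.Agent.H626R2.FieldPres
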