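import Mathlib
import Pool.Agent.H626R2.StepAlg

/-!
# A computable linear order of type `ω + ω*` whose initial part `ω` computes the halting problem

The order is defined by true stages: `i < j` in the order if `i < j` and `i` still looks like a true
stage at `j`, or `j < i` and `j` looks false at `i`.
-/

set_option autoImplicit false

namespace Pool.Agent.H626R2.TrueStages

open Pool.Agent.H626R2.StepAlg
open Pool.Agent.Results.MP_65fbb9_lc.Coincidence (ci_comp ci_pair ci_comp₂ ci_compC ci_fst ci_snd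
  computable_of_ci ball ball_iff nsum nsum_eq ball_comp nsum_comp cand cor cnot ceqN ceqB clt cle
  cadd csub cmul cdiv cmod cconst ccond cpw cpair cunl cunr ind cind ind_true ind_false nsum_ind
  bt bsum bsum_lt bt_lt bt_bsum cbt search)
open Nat.Partrec (Code)
open Nat.Partrec.Code (evaln eval)

/-- the code `(unpair s).1` halts on input `0` with bound `(unpair s).2 + 1` but not before -/
def en (s : ℕ) : Bool :=
  (evaln ((Nat.unpair s).2 + 1) (Denumerable.ofNat Code (Nat.unpair s).1) 0).isSome &&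
    !(evaln (Nat.unpair s).2 (Denumerable.ofNat Code (Nat.unpair s).1) 0).isSome

/-- the number enumerated at stage `s` -/
def ff (s : ℕ) : ℕ := bif en s then (Nat.unpair s).1 else s

theorem cen {α : Type} [Primcodable α] {O : Set (ℕ →. ℕ)} {f : α → ℕ} (hf : ComputableIn O f) :
    ComputableIn O fun a => en (f a) := by
  have h1 : Primrec fun s : ℕ =>
      (evaln ((Nat.unpair s).2 + 1) (Denumerable.ofNat Code (Nat.unpair s).1) 0).isSome :=
    Primrec.option_isSome.comp (Nat.Partrec.Code.primrec_evaln.comp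
      ((((Primrec.succ.comp (Primrec.snd.comp Primrec.unpair)).pair
        ((Primrec.ofNat Code).comp (Primrec.fst.comp Primrec.unpair)))).pair (Primrec.const 0)))
  have h2 : Primrec fun s : ℕ =>
      (evaln (Nat.unpair s).2 (Denumerable.ofNat Code (Nat.unpair s).1) 0).isSome :=
    Primrec.option_isSome.comp (Nat.Partrec.Code.primrec_evaln.comp
      ((((Primrec.snd.comp Primrec.unpair).pair
        ((Primrec.ofNat Code).comp (Primrec.fst.comp Primrec.unpair)))).pair (Primrec.const 0)))
  have h3 : Computable en := computable_of_ci (cand h1.to_comp.computableIn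
    (cnot h2.to_comp.computableIn))
  exact ci_compC h3 hf

theorem cff {α : Type} [Primcodable α] {O : Set (ℕ →. ℕ)} {f : α → ℕ} (hf : ComputableIn O f) :
    ComputableIn O fun a => ff (f a) := ccond (cen hf) (cunl hf) hf

theorem en_unique {c k k' : ℕ} (h : en (Nat.pair c k) = true) (h' : en (Nat.pair c k') = true) :
    k = k' := by
  have key : ∀ a b, a < b → en (Nat.pair c a) = true → en (Nat.pair c b) = true → False := by
    intro a b hab ha hb
    unfold en at ha hb
    rw [Nat.unpair_pair] at ha hb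
    simp only [Bool.and_eq_true, Bool.not_eq_true'] at ha hb
    obtain ⟨v, hv⟩ := Option.isSome_iff_exists.1 ha.1
    have h1 := Nat.Partrec.Code.evaln_mono (show a + 1 ≤ b from hab) (Option.mem_def.2 hv)
    have h2 : (evaln b (Denumerable.ofNat Code c) 0).isSome = true := by
      rw [Option.mem_def.1 h1]; rfl
    rw [hb.2] at h2
    exact absurd h2 (by decide)
  rcases Nat.lt_trichotomy k k' with h1 | h1 | h1
  · exact (key _ _ h1 h h').elim
  · exact h1
  · exact (key _ _ h1 h' h).elim

theorem en_exists (c : ℕ) : (eval (Denumerable.ofNat Code c) 0).Dom ↔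
    ∃ k, en (Nat.pair c k) = true := by
  constructor
  · intro h
    obtain ⟨v, hv⟩ := Part.dom_iff_mem.1 h
    have h1 : ∃ k, (evaln k (Denumerable.ofNat Code c) 0).isSome = true := by
      obtain ⟨k, hk⟩ := Nat.Partrec.Code.evaln_complete.1 hv
      exact ⟨k, by rw [Option.mem_def.1 hk]; rfl⟩
    classical
    obtain ⟨k, hk⟩ : ∃ k, k = Nat.find h1 := ⟨_, rfl⟩
    have h2 := Nat.find_spec h1
    have h3 := fun m => Nat.find_min h1 (m := m)
    rw [← hk] at h2 h3
    have hk0 : k ≠ 0 := by
      rintro rfl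
      simp [evaln] at h2
    refine ⟨k - 1, ?_⟩
    unfold en
    rw [Nat.unpair_pair]
    have h4 := h3 (k - 1) (by omega)
    have h5 : k - 1 + 1 = k := by omega
    simp only [h5, h2, Bool.true_and, Bool.not_eq_true']
    simpa using h4
  · rintro ⟨k, hk⟩
    unfold en at hk
    rw [Nat.unpair_pair] at hk
    simp only [Bool.and_eq_true] at hk
    obtain ⟨v, hv⟩ := Option.isSome_iff_exists.1 hk.1
    exact Part.dom_iff_mem.2 ⟨v, Nat.Partrec.Code.evaln_sound (Option.mem_def.2 hv)⟩

theorem ff_tendsto (c : ℕ) : ∃ N, ∀ u, N ≤ u → c ≤ ff u := by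
  induction c with
  | zero => exact ⟨0, fun u _ => Nat.zero_le _⟩
  | succ c ih =>
    obtain ⟨N, hN⟩ := ih
    have h1 : ∃ M, ∀ k, en (Nat.pair c k) = true → Nat.pair c k ≤ M := by
      by_cases h : ∃ k, en (Nat.pair c k) = true
      · obtain ⟨k, hk⟩ := h
        exact ⟨Nat.pair c k, fun k' hk' => by rw [en_unique hk hk']⟩
      · exact ⟨0, fun k hk => absurd ⟨k, hk⟩ h⟩
    obtain ⟨M, hM⟩ := h1
    refine ⟨N + M + c + 1, fun u hu => ?_⟩
    have h2 := hN u (by omega)
    rcases Nat.lt_or_ge c (ff u) with h3 | h3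
    · exact h3
    · exfalso
      have h4 : ff u = c := by omega
      unfold ff at h4
      cases h5 : en u with
      | false =>
        rw [h5] at h4
        simp only [cond_false] at h4
        omega
      | true =>
        rw [h5] at h4
        simp only [cond_true] at h4
        have h6 : u = Nat.pair c (Nat.unpair u).2 := by rw [← h4, Nat.pair_unpair]
        have h7 := hM (Nat.unpair u).2 (by rw [← h6]; exact h5)
        rw [← h6] at h7
        omega

/-- `i` looks true at stage `j` -/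
def T (i j : ℕ) : Prop := ∀ u, i < u → u ≤ j → ff i ≤ ff u

/-- `i` is a true stage -/
def Tr (i : ℕ) : Prop := ∀ u, i < u → ff i ≤ ff u

theorem T1 {i j k : ℕ} (h : j ≤ k) (hT : T i k) : T i j := fun u h1 h2 => hT u h1 (h2.trans h)

theorem T2 {i j k : ℕ} (h : i < j) (hT : T i j) (hT' : T j k) : T i k := by
  intro u h1 h2
  rcases Nat.lt_or_ge j u with h3 | h3
  · exact (hT j h le_rfl).trans (hT' u h3 h2)
  · exact hT u h1 h3

theorem exists_Tr (N : ℕ) : ∃ i, N ≤ i ∧ Tr i := by
  classical
  have h : ∃ v, ∃ i, N ≤ i ∧ ff i = v := ⟨ff N, N, le_rfl, rfl⟩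
  obtain ⟨i, hi, hv⟩ := Nat.find_spec h
  refine ⟨i, hi, fun u hu => ?_⟩
  rw [hv]
  exact Nat.find_min' h ⟨u, by omega, rfl⟩

/-- the strict order -/
def LT' (a b : ℕ) : Prop := (a < b ∧ T a b) ∨ (b < a ∧ ¬ T b a)

theorem LT'_trans {a b c : ℕ} (h1 : LT' a b) (h2 : LT' b c) (hne : a ≠ c) : LT' a c := by
  rcases h1 with ⟨h1, h1'⟩ | ⟨h1, h1'⟩ <;> rcases h2 with ⟨h2, h2'⟩ | ⟨h2, h2'⟩
  · exact Or.inl ⟨h1.trans h2, T2 h1 h1' h2'⟩
  · rcases Nat.lt_or_gt_of_ne hne with h | h
    · exact Or.inl ⟨h, T1 h2.le h1'⟩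
    · exact Or.inr ⟨h, fun h3 => h2' (T2 h h3 h1')⟩
  · rcases Nat.lt_or_gt_of_ne hne with h | h
    · exact absurd (T1 h.le h2') h1'
    · exact Or.inr ⟨h, fun h3 => h1' (T2 h2 h2' h3)⟩
  · exact Or.inr ⟨h2.trans h1, fun h3 => h2' (T1 h1.le h3)⟩

theorem LT'_asymm {a b : ℕ} (h1 : LT' a b) (h2 : LT' b a) : False := by
  rcases h1 with ⟨h1, h1'⟩ | ⟨h1, h1'⟩ <;> rcases h2 with ⟨h2, h2'⟩ | ⟨h2, h2'⟩
  · omega
  · exact h2' h1'
  · exact h1' h2'
  · omega

/-- decision procedure for `T` -/
def tr (i j : ℕ) : Bool := ball (j + 1) fun u => !(decide (i < u)) || decide (ff i ≤ ff u)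

theorem tr_iff (i j : ℕ) : tr i j = true ↔ T i j := by
  unfold tr T
  rw [ball_iff]
  simp only [Bool.or_eq_true, Bool.not_eq_true', decide_eq_false_iff_not, decide_eq_true_eq]
  constructor
  · intro h u h1 h2
    rcases h u (by omega) with h3 | h3
    · exact absurd h1 h3
    · exact h3
  · intro h u hu
    by_cases h1 : i < u
    · exact Or.inr (h u h1 (by omega))
    · exact Or.inl h1

/-- decision procedure for the strict order -/
def lt (i j : ℕ) : Bool := (decide (i < j) && tr i j) || (decide (j < i) && !(tr j i))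

theorem lt_iff (i j : ℕ) : lt i j = true ↔ LT' i j := by
  unfold lt LT'
  simp only [Bool.or_eq_true, Bool.and_eq_true, decide_eq_true_eq, tr_iff, Bool.not_eq_true']
  rw [← tr_iff j i, Bool.not_eq_true]

/-- the order with a new least element `0` -/
def rr (x y : ℕ) : Bool :=
  decide (x = 0) || (decide (0 < y) && (decide (x = y) || lt (x - 1) (y - 1)))

theorem rr_iff (x y : ℕ) : rr x y = true ↔ x = 0 ∨ (0 < y ∧ (x = y ∨ LT' (x - 1) (y - 1))) := by
  unfold rr
  simp only [Bool.or_eq_true, Bool.and_eq_true, decide_eq_true_eq, lt_iff]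

theorem crr {O : Set (ℕ →. ℕ)} : ComputableIn O fun p : ℕ × ℕ => rr p.1 p.2 := by
  have htr : ComputableIn O fun p : ℕ × ℕ => tr p.1 p.2 :=
    ball_comp (g := fun p : ℕ × ℕ => p.2 + 1)
      (q := fun (p : ℕ × ℕ) (u : ℕ) => !(decide (p.1 < u)) || decide (ff p.1 ≤ ff u))
      (cadd ci_snd (cconst 1))
      (cor (cnot (clt (ci_comp ci_fst ci_fst) ci_snd))
        (cle (cff (f := fun p : (ℕ × ℕ) × ℕ => p.1.1) (ci_comp ci_fst ci_fst))
          (cff (f := fun p : (ℕ × ℕ) × ℕ => p.2) ci_snd)))
  have htr' : ComputableIn O fun p : ℕ × ℕ => tr p.2 p.1 :=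
    ci_comp (f := fun p : ℕ × ℕ => tr p.1 p.2) (g := fun p : ℕ × ℕ => (p.2, p.1)) htr
      (ci_pair ci_snd ci_fst)
  have hlt : ComputableIn O fun p : ℕ × ℕ => lt p.1 p.2 :=
    cor (cand (clt ci_fst ci_snd) htr) (cand (clt ci_snd ci_fst) (cnot htr'))
  have hlt' : ComputableIn O fun p : ℕ × ℕ => lt (p.1 - 1) (p.2 - 1) :=
    ci_comp (f := fun p : ℕ × ℕ => lt p.1 p.2) (g := fun p : ℕ × ℕ => (p.1 - 1, p.2 - 1)) hlt
      (ci_pair (csub ci_fst (cconst 1)) (csub ci_snd (cconst 1)))
  exact cor (ceqN ci_fst (cconst 0)) (cand (clt (cconst 0) ci_snd) (cor (ceqN ci_fst ci_snd) hlt'))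

theorem rr_fin_true {i : ℕ} (h : Tr i) : {y | rr y (i + 1) = true}.Finite := by
  refine (Set.finite_Iic (i + 1)).subset fun y hy => ?_
  have h1 : rr y (i + 1) = true := hy
  rw [rr_iff] at h1
  rw [Set.mem_Iic]
  rcases h1 with h1 | ⟨-, h1 | h1⟩
  · omega
  · omega
  · by_contra hc
    rcases h1 with ⟨h2, h3⟩ | ⟨h2, h3⟩
    · omega
    · apply h3
      intro u hu _
      exact h u (by omega)

theorem rr_fin_false {i : ℕ} (h : ¬ Tr i) : {y | rr (i + 1) y = true}.Finite := by
  unfold Tr at h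
  push Not at h
  obtain ⟨u, hu, hu2⟩ := h
  refine (Set.finite_Iic u).subset fun y hy => ?_
  have h1 : rr (i + 1) y = true := hy
  rw [rr_iff] at h1
  rw [Set.mem_Iic]
  rcases h1 with h1 | ⟨h0, h1 | h1⟩
  · omega
  · omega
  · by_contra hc
    rcases h1 with ⟨h2, h3⟩ | ⟨h2, h3⟩
    · have := h3 u (by omega) (by omega)
      rw [Nat.add_sub_cancel] at this
      omega
    · omega

theorem rr_zero_left (y : ℕ) : rr 0 y = true := by rw [rr_iff]; exact Or.inl rfl

theorem rr_refl (x : ℕ) : rr x x = true := by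
  rw [rr_iff]
  rcases Nat.eq_zero_or_pos x with h | h
  · exact Or.inl h
  · exact Or.inr ⟨h, Or.inl rfl⟩

theorem rr_anti (x y : ℕ) (h1 : rr x y = true) (h2 : rr y x = true) : x = y := by
  rw [rr_iff] at h1 h2
  by_contra hne
  rcases h1 with h1 | ⟨h1, h1' | h1'⟩
  · rcases h2 with h2 | ⟨h2, h2' | h2'⟩
    · omega
    · omega
    · omega
  · exact hne h1'
  · rcases h2 with h2 | ⟨h2, h2' | h2'⟩
    · omega
    · exact hne h2'.symm
    · exact LT'_asymm h1' h2'

theorem rr_tot (x y : ℕ) : rr x y = true ∨ rr y x = true := by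
  rw [rr_iff, rr_iff]
  rcases Nat.eq_zero_or_pos x with h | h
  · exact Or.inl (Or.inl h)
  rcases Nat.eq_zero_or_pos y with h' | h'
  · exact Or.inr (Or.inl h')
  rcases Nat.lt_trichotomy x y with h1 | h1 | h1
  · by_cases hT : T (x - 1) (y - 1)
    · exact Or.inl (Or.inr ⟨h', Or.inr (Or.inl ⟨by omega, hT⟩)⟩)
    · exact Or.inr (Or.inr ⟨h, Or.inr (Or.inr ⟨by omega, hT⟩)⟩)
  · exact Or.inl (Or.inr ⟨h', Or.inl h1⟩)
  · by_cases hT : T (y - 1) (x - 1)
    · exact Or.inr (Or.inr ⟨h, Or.inr (Or.inl ⟨by omega, hT⟩)⟩)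
    · exact Or.inl (Or.inr ⟨h', Or.inr (Or.inr ⟨by omega, hT⟩)⟩)

theorem rr_trans (x y z : ℕ) (h1 : rr x y = true) (h2 : rr y z = true) : rr x z = true := by
  rw [rr_iff] at h1 h2 ⊢
  rcases h1 with h1 | ⟨h1, h1' | h1'⟩
  · exact Or.inl h1
  · subst h1'
    exact h2
  · rcases h2 with h2 | ⟨h2, h2' | h2'⟩
    · omega
    · subst h2'
      exact Or.inr ⟨h1, Or.inr h1'⟩
    · by_cases hxz : x = z
      · exact Or.inr ⟨h2, Or.inl hxz⟩
      by_cases hx0 : x = 0
      · exact Or.inl hx0
      exact Or.inr ⟨h2, Or.inr (LT'_trans h1' h2' (by omega))⟩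

theorem rr_minimum (S : Finset ℕ) (hS : S.Nonempty) : ∃ m ∈ S, ∀ x ∈ S, rr m x = true := by
  induction hS using Finset.Nonempty.cons_induction with
  | singleton a => exact ⟨a, by simp, by simpa using rr_refl a⟩
  | cons a s h hs ih =>
    obtain ⟨m, hm, hm2⟩ := ih
    rcases rr_tot a m with h1 | h1
    · refine ⟨a, by simp, fun x hx => ?_⟩
      rw [Finset.mem_cons] at hx
      rcases hx with rfl | hx
      · exact rr_refl _
      · exact rr_trans _ _ _ h1 (hm2 x hx)
    · refine ⟨m, by simp [hm], fun x hx => ?_⟩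
      rw [Finset.mem_cons] at hx
      rcases hx with rfl | hx
      · exact h1
      · exact hm2 x hx

theorem rr_succ_of {x z0 : ℕ} (h1 : z0 ≠ x) (h2 : rr x z0 = true)
    (h3 : {y | rr y z0 = true}.Finite) :
    ∃ z, z ≠ x ∧ rr x z = true ∧ ∀ y, rr x y = true → y ≠ x → rr z y = true := by
  classical
  obtain ⟨S, hS⟩ : ∃ S : Finset ℕ, ∀ y, y ∈ S ↔ (rr y z0 = true ∧ rr x y = true ∧ y ≠ x) := by
    have h4 : {y | rr y z0 = true ∧ rr x y = true ∧ y ≠ x}.Finite :=
      h3.subset fun y hy => hy.1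
    exact ⟨h4.toFinset, fun y => by simp⟩
  obtain ⟨m, hm, hm2⟩ := rr_minimum S ⟨z0, (hS z0).2 ⟨rr_refl _, h2, h1⟩⟩
  have hm3 := (hS m).1 hm
  refine ⟨m, hm3.2.2, hm3.2.1, fun y hy hne => ?_⟩
  rcases rr_tot y z0 with h5 | h5
  · exact hm2 y ((hS y).2 ⟨h5, hy, hne⟩)
  · exact rr_trans _ _ _ hm3.1 h5

theorem good_rr : Good rr where
  refl := rr_refl
  trans := rr_trans
  anti := rr_anti
  tot := rr_tot
  bot := rr_zero_left
  fin := by
    intro x
    rcases Nat.eq_zero_or_pos x with h | h
    · left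
      refine (Set.finite_singleton 0).subset fun y hy => ?_
      have h1 : rr y x = true := hy
      rw [rr_iff] at h1
      rw [Set.mem_singleton_iff]
      omega
    · obtain ⟨i, rfl⟩ : ∃ i, x = i + 1 := ⟨x - 1, by omega⟩
      by_cases hT : Tr i
      · exact Or.inl (rr_fin_true hT)
      · exact Or.inr (rr_fin_false hT)
  succ := by
    classical
    intro x
    rcases Nat.eq_zero_or_pos x with h | h
    · right
      obtain ⟨t, -, ht⟩ := exists_Tr 0
      subst h
      exact rr_succ_of (Nat.succ_ne_zero t) (rr_zero_left _) (rr_fin_true ht)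
    · obtain ⟨i, rfl⟩ : ∃ i, x = i + 1 := ⟨x - 1, by omega⟩
      by_cases hT : Tr i
      · right
        obtain ⟨t, hti, ht⟩ := exists_Tr (i + 1)
        refine rr_succ_of (z0 := t + 1) (by omega) ?_ (rr_fin_true ht)
        rw [rr_iff]
        refine Or.inr ⟨by omega, Or.inr (Or.inl ⟨by omega, ?_⟩)⟩
        intro u hu _
        exact hT u (by omega)
      · have hfin := rr_fin_false hT
        obtain ⟨S, hS⟩ : ∃ S : Finset ℕ, ∀ y, y ∈ S ↔ (rr (i + 1) y = true ∧ y ≠ i + 1) := by
          have h4 : {y | rr (i + 1) y = true ∧ y ≠ i + 1}.Finite :=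
            hfin.subset fun y hy => hy.1
          exact ⟨h4.toFinset, fun y => by simp⟩
        rcases S.eq_empty_or_nonempty with h0 | h0
        · left
          intro y
          rcases rr_tot y (i + 1) with h5 | h5
          · exact h5
          · by_cases hy : y = i + 1
            · rw [hy]; exact rr_refl _
            · have := (hS y).2 ⟨h5, hy⟩
              rw [h0] at this
              simp at this
        · right
          obtain ⟨m, hm, hm2⟩ := rr_minimum S h0
          have hm3 := (hS m).1 hm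
          exact ⟨m, hm3.2, hm3.1, fun y hy hne => hm2 y ((hS y).2 ⟨hy, hne⟩)⟩

/-- the usual order -/
def natle (i j : ℕ) : Bool := decide (i ≤ j)

theorem good_natle : Good natle where
  refl := fun x => by simp [natle]
  trans := fun x y z h1 h2 => by simp [natle] at h1 h2 ⊢; omega
  anti := fun x y h1 h2 => by simp [natle] at h1 h2; omega
  tot := fun x y => by simp [natle]; omega
  bot := fun x => by simp [natle]
  fin := fun x => Or.inl ((Set.finite_Iic x).subset fun y hy => by simpa [natle] using hy)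
  succ := fun x => Or.inr ⟨x + 1, by omega, by simp [natle], fun y h1 h2 => by
    simp [natle] at h1 ⊢; omega⟩

/-- If the set of the true stages is decidable, then so is the halting problem. -/
theorem no_decider (tt : ℕ → Bool) (htt : Computable tt) (h : ∀ z, tt z = true ↔ Tr z) : False := by
  obtain ⟨F, hF, hF2⟩ := search (α := ℕ)
    (q := fun c z => tt z && decide (c < ff z))
    (by
      have h2 : ComputableIn ∅ fun p : ℕ × ℕ => tt p.2 && decide (p.1 < ff p.2) :=
        cand (ci_comp (f := tt) htt.computableIn ci_snd)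
          (clt ci_fst (cff (f := fun p : ℕ × ℕ => p.2) ci_snd))
      exact computable_of_ci h2)
    (by
      intro c
      obtain ⟨N, hN⟩ := ff_tendsto (c + 1)
      obtain ⟨z, hz, hz2⟩ := exists_Tr N
      refine ⟨z, ?_⟩
      simp only [Bool.and_eq_true, decide_eq_true_eq]
      exact ⟨(h z).2 hz2, hN z hz⟩)
  simp only [Bool.and_eq_true, decide_eq_true_eq] at hF2
  obtain ⟨d, hd⟩ : ∃ d : ℕ → Bool, d = fun c =>
      !(ball (F c + 1) fun u => !(en u && decide ((Nat.unpair u).1 = c))) := ⟨_, rfl⟩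
  have hdc : Computable d := by
    apply computable_of_ci
    rw [hd]
    exact cnot (ball_comp (g := fun c : ℕ => F c + 1)
      (q := fun c u => !(en u && decide ((Nat.unpair u).1 = c)))
      (cadd hF.computableIn (cconst 1))
      (cnot (cand (cen (f := fun p : ℕ × ℕ => p.2) ci_snd)
        (ceqN (cunl (f := fun p : ℕ × ℕ => p.2) ci_snd) ci_fst))))
  have hdi : ∀ c, d c = true ↔ (eval (Denumerable.ofNat Code c) 0).Dom := by
    intro c
    rw [en_exists, hd]
    simp only [Bool.not_eq_true']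
    rw [← Bool.not_eq_true, ball_iff]
    push Not
    constructor
    · rintro ⟨u, hu, h1⟩
      simp only [Bool.not_eq_true', ne_eq, Bool.not_eq_false, Bool.and_eq_true,
        decide_eq_true_eq] at h1
      refine ⟨(Nat.unpair u).2, ?_⟩
      rw [← h1.2, Nat.pair_unpair]
      exact h1.1
    · rintro ⟨k, hk⟩
      refine ⟨Nat.pair c k, ?_, ?_⟩
      · by_contra hc
        have h1 := hF2 c
        have h2 := (h _).1 h1.1 (Nat.pair c k) (by omega)
        have h3 : ff (Nat.pair c k) = c := by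
          unfold ff
          rw [hk, Nat.unpair_pair]
          rfl
        omega
      · simp only [Bool.not_eq_true', ne_eq, Bool.not_eq_false, Bool.and_eq_true,
          decide_eq_true_eq, Nat.unpair_pair]
        exact ⟨hk, trivial⟩
  apply ComputablePred.halting_problem 0
  have h1 : Computable fun c : Code => d (Encodable.encode c) := hdc.comp Computable.encode
  have h2 : ∀ c : Code, d (Encodable.encode c) = true ↔ (eval c 0).Dom := by
    intro c
    rw [hdi, Denumerable.ofNat_encode]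
  have h3 : (fun c : Code => (eval c 0).Dom) = fun c : Code => d (Encodable.encode c) = true := by
    funext c
    exact propext (h2 c).symm
  rw [h3]
  exact Computable.computablePred (by simpa using h1)

end Pool.Agent.H626R2.TrueStages
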